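import Mathlib
import Pool.Agent.CB71.GF

set_option autoImplicit false
set_option linter.unusedSectionVars false

/-!
# RB61/Ap: equality up to few commutators  (COMPLETE FILE)

Project RB61 (MP_d14c4c_al): finite commutator width of regular branch groups generated by finite
automata which are amenable (for example of subexponential growth).

`Ap K n x y` means `x = y c` where `c` is a product of `n` commutators of elements of the normal
subgroup `K` (`c ∈ CK K n`, see `Pool.Agent.CW71.RM`).  This file contains the calculus.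
-/

namespace Pool.Agent.RB61

open scoped commutatorElement
open Pool.Agent.CW71 Pool.Agent.CB71

variable {Γ : Type*} [Group Γ] {K : Subgroup Γ} [hKn : K.Normal]

/-- `x = y c` with `c` a product of `n` commutators of elements of `K` -/
def Ap (K : Subgroup Γ) (n : ℕ) (x y : Γ) : Prop := ∃ c ∈ CK K n, x = y * c

omit hKn in
lemma CK_inv {n : ℕ} {x : Γ} (hx : x ∈ CK K n) : x⁻¹ ∈ CK K n := by
  induction n generalizing x with
  | zero =>
    have : x = 1 := hx
    rw [this, inv_one]; exact rfl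
  | succ n ih =>
    obtain ⟨p, hp, q, hq, y, hy, rfl⟩ := hx
    have h1 := CK_mul (ih hy) (comm_mem_CK hq hp)
    rw [mul_inv_rev, commutatorElement_inv]
    exact h1

lemma Ap.refl (n : ℕ) (x : Γ) : Ap K n x x := ⟨1, one_mem_CK n, by rw [mul_one]⟩

lemma Ap.of_eq {x y : Γ} (n : ℕ) (h : x = y) : Ap K n x y := h ▸ Ap.refl n x

lemma Ap.mono {n m : ℕ} {x y : Γ} (h : Ap K n x y) (hnm : n ≤ m) : Ap K m x y := by
  obtain ⟨c, hc, e⟩ := h
  exact ⟨c, CK_mono hnm hc, e⟩

lemma Ap.symm {n : ℕ} {x y : Γ} (h : Ap K n x y) : Ap K n y x := by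
  obtain ⟨c, hc, e⟩ := h
  exact ⟨c⁻¹, CK_inv hc, by rw [e, mul_inv_cancel_right]⟩

lemma Ap.trans {n m : ℕ} {x y z : Γ} (h : Ap K n x y) (h' : Ap K m y z) : Ap K (n + m) x z := by
  obtain ⟨c, hc, e⟩ := h
  obtain ⟨c', hc', e'⟩ := h'
  refine ⟨c' * c, ?_, by rw [e, e', mul_assoc]⟩
  rw [add_comm]
  exact CK_mul hc' hc

lemma Ap.mul {n m : ℕ} {x y x' y' : Γ} (h : Ap K n x y) (h' : Ap K m x' y') :
    Ap K (n + m) (x * x') (y * y') := by
  obtain ⟨c, hc, e⟩ := h
  obtain ⟨c', hc', e'⟩ := h'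
  refine ⟨y'⁻¹ * c * y'⁻¹⁻¹ * c', CK_mul (CK_conj hc _) hc', ?_⟩
  rw [e, e']; group

lemma Ap.mul_left {n : ℕ} {x y : Γ} (h : Ap K n x y) (z : Γ) : Ap K n (z * x) (z * y) := by
  have := (Ap.refl (K := K) 0 z).mul h
  rwa [Nat.zero_add] at this

lemma Ap.mul_right {n : ℕ} {x y : Γ} (h : Ap K n x y) (z : Γ) : Ap K n (x * z) (y * z) := by
  have := h.mul (Ap.refl (K := K) 0 z)
  rwa [Nat.add_zero] at this

lemma Ap.inv {n : ℕ} {x y : Γ} (h : Ap K n x y) : Ap K n x⁻¹ y⁻¹ := by
  obtain ⟨c, hc, e⟩ := h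
  refine ⟨y * c⁻¹ * y⁻¹, CK_conj (CK_inv hc) _, ?_⟩
  rw [e]; group

lemma Ap.conj {n : ℕ} {x y : Γ} (h : Ap K n x y) (g : Γ) : Ap K n (g * x * g⁻¹) (g * y * g⁻¹) :=
  (h.mul_left g).mul_right g⁻¹

lemma Ap.comm {x y : Γ} (hx : x ∈ K) (hy : y ∈ K) : Ap K 1 (x * y) (y * x) := by
  refine ⟨⁅x⁻¹, y⁻¹⁆, comm_mem_CK (K.inv_mem hx) (K.inv_mem hy), ?_⟩
  simp only [commutatorElement_def]; group

lemma Ap.mem {n : ℕ} {x y : Γ} (h : Ap K n x y) (hy : y ∈ K) : x ∈ K := by
  obtain ⟨c, hc, e⟩ := h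
  rw [e]; exact K.mul_mem hy (CK_sub hc)

lemma Ap.CK_one {n : ℕ} {x : Γ} (h : Ap K n x 1) : x ∈ CK K n := by
  obtain ⟨c, hc, e⟩ := h
  rw [e, one_mul]; exact hc

lemma Ap.of_CK {n : ℕ} {x : Γ} (h : x ∈ CK K n) : Ap K n x 1 := ⟨x, h, by rw [one_mul]⟩

/-- `Ap` and the sets `R K S M` -/
lemma Ap.R {n M : ℕ} {S : List Γ} {x y : Γ} (h : Ap K n x y) (hy : y ∈ R K S M) :
    x ∈ R K S (M + n) := by
  obtain ⟨c, hc, e⟩ := h
  rw [e]; exact R_mul_CK hy hc

/-- `Ap` inside a subgroup containing `[K, K]` -/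
lemma Ap.mem_comm {H : Subgroup Γ} (hKH : K ≤ H) {n : ℕ} {x y : Γ} (h : Ap K n x y)
    (hy : y ∈ ⁅H, K⁆) : x ∈ ⁅H, K⁆ := by
  obtain ⟨c, hc, e⟩ := h
  rw [e]; exact Subgroup.mul_mem _ hy (CK_comm hKH hc)

lemma Ap.pow {n : ℕ} {x y : Γ} (h : Ap K n x y) (m : ℕ) : Ap K (m * n) (x ^ m) (y ^ m) := by
  induction m with
  | zero => rw [pow_zero, pow_zero]; exact Ap.refl _ _
  | succ m ih =>
    rw [pow_succ, pow_succ, Nat.succ_mul]
    exact ih.mul h

/-- `(x y)^m = x^m y^m` up to `m` commutators -/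
lemma Ap.mul_pow {x y : Γ} (hx : x ∈ K) (hy : y ∈ K) (m : ℕ) :
    Ap K m ((x * y) ^ m) (x ^ m * y ^ m) := by
  induction m with
  | zero => rw [pow_zero, pow_zero, pow_zero, mul_one]; exact Ap.refl _ _
  | succ m ih =>
    have h1 : Ap K m ((x * y) ^ (m + 1)) (x ^ m * y ^ m * (x * y)) := by
      rw [pow_succ]; exact ih.mul_right _
    have h2 : Ap K 1 (y ^ m * x) (x * y ^ m) := Ap.comm (K.pow_mem hy m) hx
    have h3 : Ap K 1 (x ^ m * y ^ m * (x * y)) (x ^ (m + 1) * y ^ (m + 1)) := by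
      have h4 := (h2.mul_left (x ^ m)).mul_right y
      have e1 : x ^ m * (y ^ m * x) * y = x ^ m * y ^ m * (x * y) := by group
      have e2 : x ^ m * (x * y ^ m) * y = x ^ (m + 1) * y ^ (m + 1) := by
        rw [pow_succ, pow_succ]; group
      rwa [e1, e2] at h4
    exact h1.trans h3

/-- products of lists -/
lemma Ap.list_map {ι : Type*} (l : List ι) (f g : ι → Γ) (c : ι → ℕ)
    (h : ∀ i ∈ l, Ap K (c i) (f i) (g i)) :
    Ap K (l.map c).sum (l.map f).prod (l.map g).prod := by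
  induction l with
  | nil => exact Ap.refl _ _
  | cons i l ih =>
    rw [List.map_cons, List.map_cons, List.map_cons, List.prod_cons, List.prod_cons, List.sum_cons]
    exact (h i List.mem_cons_self).mul (ih fun j hj => h j (List.mem_cons_of_mem _ hj))

lemma Ap.list_map_const {ι : Type*} (l : List ι) (f g : ι → Γ) (c : ℕ)
    (h : ∀ i ∈ l, Ap K c (f i) (g i)) :
    Ap K (l.length * c) (l.map f).prod (l.map g).prod := by
  have h1 := Ap.list_map l f g (fun _ => c) h
  rwa [List.map_const', List.sum_replicate, smul_eq_mul] at h1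

lemma prod_mem_K {ι : Type*} (l : List ι) (f : ι → Γ) (h : ∀ i ∈ l, f i ∈ K) :
    (l.map f).prod ∈ K := by
  refine K.list_prod_mem fun x hx => ?_
  obtain ⟨i, hi, rfl⟩ := List.mem_map.1 hx
  exact h i hi

/-- the product of products -/
lemma Ap.list_mul {ι : Type*} (l : List ι) (f g : ι → Γ) (hf : ∀ i ∈ l, f i ∈ K)
    (hg : ∀ i ∈ l, g i ∈ K) :
    Ap K l.length (l.map fun i => f i * g i).prod ((l.map f).prod * (l.map g).prod) := by
  induction l with
  | nil => rw [List.map_nil, List.map_nil, List.map_nil, List.prod_nil, mul_one]; exact Ap.refl _ _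
  | cons i l ih =>
    have hf' : ∀ j ∈ l, f j ∈ K := fun j hj => hf j (List.mem_cons_of_mem _ hj)
    have hg' : ∀ j ∈ l, g j ∈ K := fun j hj => hg j (List.mem_cons_of_mem _ hj)
    have h1 := (ih hf' hg').mul_left (f i * g i)
    have h2 : Ap K 1 (g i * (l.map f).prod) ((l.map f).prod * g i) :=
      Ap.comm (hg i List.mem_cons_self) (prod_mem_K l f hf')
    have h3 := (h2.mul_left (f i)).mul_right (l.map g).prod
    rw [List.map_cons, List.map_cons, List.map_cons, List.prod_cons, List.prod_cons,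
      List.prod_cons, List.length_cons]
    refine (h1.trans (m := 1) ?_)
    have e1 : f i * (g i * (l.map f).prod) * (l.map g).prod =
      f i * g i * ((l.map f).prod * (l.map g).prod) := by group
    have e2 : f i * ((l.map f).prod * g i) * (l.map g).prod =
      f i * (l.map f).prod * (g i * (l.map g).prod) := by group
    rwa [e1, e2] at h3

/-- permuting a product costs at most one commutator for every factor -/
lemma Ap.perm {l l' : List Γ} (h : l.Perm l') (hl : ∀ x ∈ l, x ∈ K) :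
    Ap K l.length l.prod l'.prod := by
  induction l' generalizing l with
  | nil =>
    have : l = [] := List.Perm.eq_nil h
    rw [this]; exact Ap.refl _ _
  | cons a l' ih =>
    have ha : a ∈ l := h.symm.subset List.mem_cons_self
    obtain ⟨l₁, l₂, rfl⟩ := List.append_of_mem ha
    have h1 : (l₁ ++ l₂).Perm l' := by
      have h2 : (a :: (l₁ ++ l₂)).Perm (a :: l') := List.perm_middle.symm.trans h
      exact List.Perm.cons_inv h2
    have hl' : ∀ x ∈ l₁ ++ l₂, x ∈ K := by
      intro x hx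
      apply hl
      rcases List.mem_append.1 hx with hx | hx
      · exact List.mem_append_left _ hx
      · exact List.mem_append_right _ (List.mem_cons_of_mem _ hx)
    have h3 := (ih h1 hl').mul_left a
    have h4 : Ap K 1 (l₁.prod * a) (a * l₁.prod) :=
      Ap.comm (K.list_prod_mem fun x hx => hl x (List.mem_append_left _ hx)) (hl a ha)
    have h5 := h4.mul_right l₂.prod
    have e1 : l₁.prod * a * l₂.prod = (l₁ ++ a :: l₂).prod := by
      rw [List.prod_append, List.prod_cons, mul_assoc]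
    have e2 : a * l₁.prod * l₂.prod = a * (l₁ ++ l₂).prod := by
      rw [List.prod_append, mul_assoc]
    rw [e1, e2] at h5
    have h6 := h5.trans h3
    rw [List.prod_cons]
    refine h6.mono ?_
    simp only [List.length_append, List.length_cons]
    omega

/-- permutation of an indexed product -/
lemma Ap.perm_map {ι : Type*} {l l' : List ι} (h : l.Perm l') (f : ι → Γ) (hf : ∀ i ∈ l, f i ∈ K) :
    Ap K l.length (l.map f).prod (l'.map f).prod := by
  have h1 := Ap.perm (K := K) (h.map f) (fun x hx => by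
    obtain ⟨i, hi, rfl⟩ := List.mem_map.1 hx
    exact hf i hi)
  rwa [List.length_map] at h1

/-- conjugating every factor by an element of `K` costs one commutator for every factor -/
lemma Ap.list_conj {ι : Type*} (l : List ι) (f g : ι → Γ) (hf : ∀ i ∈ l, f i ∈ K)
    (hg : ∀ i ∈ l, g i ∈ K) :
    Ap K l.length (l.map fun i => g i * f i * (g i)⁻¹).prod (l.map f).prod := by
  have h1 := Ap.list_map_const (K := K) l (fun i => g i * f i * (g i)⁻¹) f 1 (fun i hi => by
    have h2 := (Ap.comm (hg i hi) (hf i hi)).mul_right (g i)⁻¹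
    rwa [mul_inv_cancel_right] at h2)
  rwa [mul_one] at h1

end Pool.Agent.RB61
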