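import Mathlib
import Pool.Agent.RB61.Ap

set_option autoImplicit false
set_option linter.unusedSectionVars false

/-!
# RB61/Lev: elements of `[H, K]` modulo the levels

Background (namespace `Pool.Agent.CB71`): `G` is a self-similar group of permutations of the words
over `X`, `K` a normal subgroup; `InsG m k g`: `g` fixes the words of length `m` and its section at
such a word `v` is `k v`; `Br G K`: self-similarity and insertion (`ins`: for every function
`k : List X → G` with values in `K` and every level `m` there is `g ∈ K` with `InsG m k g`);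
`PG K m`: the normal subgroup of the elements inserted at level `m` with values in `K`
(`PG_normal`, `PG_le`, `PG_finiteIndex`, `PG_fix`, `PG_sec`); `insG_unique`; `secG hG H v`: the
group of the sections at `v` of the elements of `H` fixing `v`; `GenList H S`: the list `S`
generates `H` as a monoid; `R K S M`, `CK K n` see `Pool.Agent.CW71.RM`.
-/

namespace Pool.Agent.RB61

open scoped commutatorElement
open Pool.Agent.CW71 Pool.Agent.CB71

variable {X : Type} {G : Subgroup (Tr X)}

/-- the standing data -/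
structure Dt (G : Subgroup (Tr X)) (K : Subgroup G) [K.Normal] where
  br : Br G K
  fin : K.FiniteIndex
  Sg : Subgroup G → List G
  gen : ∀ H, K ≤ H → GenList H (Sg H)

variable {K : Subgroup G} [hKn : K.Normal]

/-- conjugation by elements of `H` preserves `[H, P]`, `P` normal.
PROOF.  `comm_conj` (CB71/GT) with `A = A' = H` and `K` replaced by `P`. -/
theorem conj_comm_mem {H P : Subgroup G} [P.Normal] {h x : G} (hh : h ∈ H) (hx : x ∈ ⁅H, P⁆) :
    h * x * h⁻¹ ∈ ⁅H, P⁆ :=
  comm_conj (K := P) h (fun y hy => H.mul_mem (H.mul_mem hh hy) (H.inv_mem hh)) hx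

/-- PROOF.  An element inserted at level `m = n + d` with values in `K` is inserted at level `n`
with values in `K`: if `g ∈ PG K m` with function `k`, take for every word `v` the element
`κ v ∈ K` with `InsG d (fun u => k (v ++ u)) (κ v)` (`hB.ins`), and `g' ∈ K` with
`InsG n κ g'`; then `InsG (n + d) k g'` by `insG_append` (CB71/GF; `InsG.congr` to adjust the
function) and `g = g'` by `insG_unique`. -/
theorem PG_anti [Nonempty X] (hB : Br G K) {n m : ℕ} (h : n ≤ m) : PG K m ≤ PG K n := by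
  obtain ⟨d, rfl⟩ := Nat.exists_eq_add_of_le h
  rintro g ⟨k, hk, hi⟩
  choose κ hκK hκ using fun v : List X => hB.ins d (fun u => k (v ++ u)) (fun u => hk _)
  obtain ⟨g', _, hi'⟩ := hB.ins n κ hκK
  have h1 : InsG (n + d) k g' := insG_append hi' fun v _ => hκ v
  rw [insG_unique hB.self hi h1 fun _ _ => rfl]
  exact ⟨κ, hκK, hi'⟩

/-- PROOF.  Induction on `M`; `c = ⁅p, q⁆ y` with `p, q ∈ PG K m`; combine the functions
(`InsG.mul`, `InsG.inv`, `commutatorElement_def`). -/
theorem CK_PG (m : ℕ) {M : ℕ} {c : G} (hc : c ∈ CK (PG K m) M) :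
    ∃ k : List X → G, (∀ v, k v ∈ CK K M) ∧ InsG m k c := by
  induction M generalizing c with
  | zero =>
    have : c = 1 := hc
    rw [this]
    exact ⟨fun _ => 1, fun _ => rfl, insG_one m⟩
  | succ M ih =>
    obtain ⟨p, ⟨kp, hkp, hip⟩, q, ⟨kq, hkq, hiq⟩, y, hy, rfl⟩ := hc
    obtain ⟨k, hk, hi⟩ := ih hy
    refine ⟨fun v => ⁅kp v, kq v⁆ * k v, fun v => ⟨kp v, hkp v, kq v, hkq v, k v, hk v, rfl⟩, ?_⟩
    rw [commutatorElement_def]
    exact (((hip.mul hiq).mul hip.inv).mul hiq.inv).mul hi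

/-- PROOF.  `PG K m` is normal (`PG_normal hB.self m`), so `exists_RH hS hx` (with `K` replaced by
`PG K m`) gives `x ∈ R (PG K m) S M`, and `R_split` gives `x = z * κ` with
`z ∈ R (PG K m) S 0 ⊆ R K S 0` (by induction on `S`, `PG_le hB m`) and `κ ∈ CK (PG K m) M`;
`CK_PG`. -/
theorem comm_PG [Nonempty X] (hB : Br G K) {H : Subgroup G} {S : List G} (hS : GenList H S)
    {m : ℕ} {x : G} (hx : x ∈ ⁅H, PG K m⁆) :
    ∃ z ∈ R K S 0, ∃ M, ∃ k : List X → G, (∀ v, k v ∈ CK K M) ∧ InsG m k (z⁻¹ * x) := by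
  have hPn : (PG K m).Normal := PG_normal hB.self m
  obtain ⟨M, hM⟩ := exists_RH (K := PG K m) hS hx
  obtain ⟨z, hz, κ, hκ, e⟩ := R_split hM
  obtain ⟨k, hk, hi⟩ := CK_PG m hκ
  have h1 : ∀ (T : List G) (z : G), z ∈ R (PG K m) T 0 → z ∈ R K T 0 := by
    intro T
    induction T with
    | nil => intro z hz; exact hz
    | cons s T ih =>
      rintro z ⟨μ, hμ, y, hy, rfl⟩
      exact ⟨μ, PG_le hB m hμ, y, ih y hy, rfl⟩
  refine ⟨z, h1 S z hz, M, k, hk, ?_⟩
  rw [e, inv_mul_cancel_left]
  exact hi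

/-- PROOF.  `PG K n` is normal of finite index (`PG_normal`, `PG_finiteIndex hB hK n`), so by
`transversal_HH` (CB71/GN, with `K` replaced by `PG K n`) there is a finite `T ⊆ ⁅H, H⁆` with
`t⁻¹ * y ∈ ⁅H, PG K n⁆` for some `t ∈ T`, for every `y ∈ ⁅H, H⁆ ⊇ ⁅H, K⁆`.  If `y ∈ ⁅H, K⁆` then
`t ∈ ⁅H, K⁆` too (`⁅H, PG K n⁆ ≤ ⁅H, K⁆` by `PG_le`), so `finite_R hS` for the finite set
`T ∩ ⁅H, K⁆` gives `C`. -/
theorem trans_level [Finite X] [Nonempty X] (hB : Br G K) (hK : K.FiniteIndex) {H : Subgroup G}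
    (hKH : K ≤ H) {S : List G} (hS : GenList H S) (n : ℕ) :
    ∃ C, ∀ x ∈ ⁅H, K⁆, ∃ z ∈ R K S C, z⁻¹ * x ∈ ⁅H, PG K n⁆ := by
  have hPn : (PG K n).Normal := PG_normal hB.self n
  obtain ⟨T, hT, hTH, hT'⟩ := transversal_HH (H := H) (PG_finiteIndex hB hK n)
  obtain ⟨C, hC⟩ := finite_R (K := K) hS (hT.inter_of_left {t | t ∈ ⁅H, K⁆}) fun t ht => ht.2
  refine ⟨C, fun x hx => ?_⟩
  obtain ⟨t, ht, h1⟩ := hT' x (Subgroup.commutator_mono le_rfl hKH hx)
  have h2 : t⁻¹ * x ∈ ⁅H, K⁆ := Subgroup.commutator_mono le_rfl (PG_le hB n) h1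
  have h3 : t ∈ ⁅H, K⁆ := by
    have e : t = x * (t⁻¹ * x)⁻¹ := by group
    rw [e]
    exact Subgroup.mul_mem _ hx (Subgroup.inv_mem _ h2)
  exact ⟨t, hC t ⟨ht, h3⟩, h1⟩

/-- Insertion of elements of `[secG H v, PG K n]` at level `m` gives elements of
`[H, PG K (m + n)]`.
PROOF.  (1) One word `v` of length `m`: for `x ∈ ⁅secG H v, PG K n⁆` there is
`i ∈ ⁅H, PG K (m + n)⁆` with `InsG m (del v x) i`.  By closure induction
(`Subgroup.commutator_def`, `Subgroup.closure_induction`): for a generator `⁅a, p⁆`,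
`a ∈ secG H v` is the section at `v` of some `â ∈ H` with `â • v = v`, `p ∈ PG K n`, and
`j` with `InsG m (del v p) j` (`hB.ins`, `p ∈ K` by `PG_le`) belongs to `PG K (m + n)` (by
`insG_append`: its function is `z ↦ ` the value of the function of `p` at `z.drop m` if
`z.take m = v`, and `1` otherwise; `insG_one`); `comm_del` shows
`InsG m (fun u => del v (a * p * a⁻¹) u * del v p⁻¹ u) ⁅â, j⁆`, and this function is
`del v ⁅a, p⁆` (`del_mul` in CB71/GF).  Products and inverses: `InsG.mul`, `InsG.inv`, `del_mul`,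
`del_inv`, `del_one`.
(2) All words of length `m`: as in `ins_of_del` (CB71/GF) with `A = ⁅H, PG K (m + n)⁆`
(`delSub A m v` is the set of the `x` for which (1) holds); `insG_unique`. -/
theorem ins_comm_PG [Finite X] [Nonempty X] (hB : Br G K) {H : Subgroup G} {m n : ℕ}
    {d : List X → G} {i : G} (hi : InsG m d i)
    (hd : ∀ v : List X, v.length = m → d v ∈ ⁅secG hB.self H v, PG K n⁆) :
    i ∈ ⁅H, PG K (m + n)⁆ := by
  classical
  have hPn : (PG K n).Normal := PG_normal hB.self n
  have h1 : ∀ v : List X, v.length = m → ∀ x ∈ ⁅secG hB.self H v, PG K n⁆,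
      x ∈ delSub ⁅H, PG K (m + n)⁆ m v := by
    intro v hv x hx
    have h2 : ⁅secG hB.self H v, PG K n⁆ ≤ delSub ⁅H, PG K (m + n)⁆ m v := by
      rw [Subgroup.commutator_le]
      rintro a ⟨â, hâ, hâv, hsec⟩ p ⟨kp, hkp, hip⟩
      have hpK : p ∈ K := PG_le hB n ⟨kp, hkp, hip⟩
      obtain ⟨j, _, hj⟩ := hB.ins m (del v p) (del_mem hpK)
      have hjP : j ∈ PG K (m + n) := by
        refine ⟨fun z => if z.take m = v then kp (z.drop m) else 1, ?_, ?_⟩
        · intro z
          show (if z.take m = v then kp (z.drop m) else 1) ∈ K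
          split
          · exact hkp _
          · exact K.one_mem
        · refine insG_append hj fun u hu => ?_
          by_cases huv : u = v
          · rw [huv, del_self]
            refine hip.congr fun w _ => ?_
            show kp w = if (v ++ w).take m = v then kp ((v ++ w).drop m) else 1
            rw [← hv, List.take_left, List.drop_left, if_pos rfl]
          · rw [del_ne _ huv]
            refine (insG_one n).congr fun w _ => ?_
            show (1 : G) = if (u ++ w).take m = v then kp ((u ++ w).drop m) else 1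
            rw [← hu, List.take_left, if_neg huv]
      refine ⟨⁅â, j⁆, Subgroup.commutator_mem_commutator hâ hjP, ?_⟩
      have h3 := comm_del hB.self (a := â) hj
      refine h3.congr fun u _ => ?_
      rw [hâv, hsec, del_mul, commutatorElement_def]
    exact h2 hx
  obtain ⟨g, hg, hgi⟩ := ins_of_del ⁅H, PG K (m + n)⁆ m d fun v hv => h1 v hv _ (hd v hv)
  rw [insG_unique hB.self hi hgi fun _ _ => rfl]
  exact hg

end Pool.Agent.RB61
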