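import Mathlib
import Pool.Agent.RB61.Lev

set_option autoImplicit false
set_option linter.unusedSectionVars false

/-!
# RB61/BSec: representatives with bounded sections
-/

namespace Pool.Agent.RB61

open scoped commutatorElement Pointwise
open Pool.Agent.CW71 Pool.Agent.CB71

variable {X : Type} {G : Subgroup (Tr X)} {K : Subgroup G} [hKn : K.Normal]

/-- PROOF.  `F` is the range of `Quotient.out` on `G ⧸ K` (finite).  Given `g`, `n` put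
`k v = (sec g v)⁻¹ * (QuotientGroup.mk (sec g v) : G ⧸ K).out ∈ K` and `ĝ = g * i`,
`InsG n k i`, so `i ∈ PG K n`; for `v` of length `n`: `sec (g * i) v = sec g (i • v) * sec i v =
sec g v * k v ∈ F` (`sec_mul`, `InsG.fix`, `InsG.sec`). -/
theorem exists_repr (hB : Br G K) (hK : K.FiniteIndex) : ∃ F : Set G, F.Finite ∧ ∀ (g : G) (n : ℕ),
    ∃ g' : G, g⁻¹ * g' ∈ PG K n ∧ ∀ v : List X, v.length = n → sec hB.self g' v ∈ F := by
  have fQ : Finite (G ⧸ K) := Subgroup.finite_quotient_of_finiteIndex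
  refine ⟨Set.range (Quotient.out : G ⧸ K → G), Set.finite_range _, fun g n => ?_⟩
  have hkK : ∀ v, (sec hB.self g v)⁻¹ *
      (QuotientGroup.mk (sec hB.self g v) : G ⧸ K).out ∈ K := by
    intro v
    obtain ⟨h, hh⟩ := QuotientGroup.mk_out_eq_mul K (sec hB.self g v)
    rw [hh, inv_mul_cancel_left]
    exact h.2
  obtain ⟨i, _, hi⟩ := hB.ins n (fun v => (sec hB.self g v)⁻¹ *
      (QuotientGroup.mk (sec hB.self g v) : G ⧸ K).out) hkK
  refine ⟨g * i, ?_, fun v hv => ?_⟩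
  · rw [inv_mul_cancel_left]
    exact ⟨_, hkK, hi⟩
  · rw [sec_mul, hi.fix hB.self hv, hi.sec hB.self hv, mul_inv_cancel_left]
    exact ⟨_, rfl⟩

/-- PROOF.  `sec (g * h) v = sec g (h • v) * sec h v` and `len_act`. -/
theorem secs_mul (hG : SelfSimilar G) {n : ℕ} {g h : G} {E E' : Set G}
    (hg : ∀ v : List X, v.length = n → sec hG g v ∈ E)
    (hh : ∀ v : List X, v.length = n → sec hG h v ∈ E') :
    ∀ v : List X, v.length = n → sec hG (g * h) v ∈ E * E' := by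
  intro v hv
  rw [sec_mul]
  exact Set.mul_mem_mul (hg _ (by rw [len_act hG, hv])) (hh v hv)

/-- PROOF.  `sec_inv'`. -/
theorem secs_inv (hG : SelfSimilar G) {n : ℕ} {g : G} {E : Set G}
    (hg : ∀ v : List X, v.length = n → sec hG g v ∈ E) :
    ∀ v : List X, v.length = n → sec hG g⁻¹ v ∈ E⁻¹ := by
  intro v hv
  rw [sec_inv']
  exact Set.inv_mem_inv.2 (hg _ (by rw [len_act hG, hv]))

/-- PROOF.  With `N = ⁅H, P⁆` (conjugation by elements of `H` preserves `N`, `conj_comm_mem`):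
`⁅p * i, q⁆ = (p * ⁅i, q⁆ * p⁻¹) * ⁅p, q⁆` and `⁅p, q * j⁆ = ⁅p, q⁆ * (q * ⁅p, j⁆ * q⁻¹)`, so
`⁅p, q⁆⁻¹ * ⁅p * i, q * j⁆ = (⁅p, q⁆⁻¹ * ⁅p * i, q⁆) * (⁅p * i, q⁆⁻¹ * ⁅p * i, q * j⁆)` is a
product of conjugates (by elements of `H`) of `⁅i, q⁆ = ⁅q, i⁆⁻¹` and `⁅p * i, j⁆`.  (`P ≤ H`.) -/
theorem comm_congr {H P : Subgroup G} [P.Normal] (hPH : P ≤ H) {p q i j : G} (hp : p ∈ H)
    (hq : q ∈ H) (hi : i ∈ P) (hj : j ∈ P) : ⁅p, q⁆⁻¹ * ⁅p * i, q * j⁆ ∈ ⁅H, P⁆ := by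
  have ha : p * i ∈ H := H.mul_mem hp (hPH hi)
  have hpq : ⁅p, q⁆ ∈ H := by
    rw [commutatorElement_def]
    exact H.mul_mem (H.mul_mem (H.mul_mem hp hq) (H.inv_mem hp)) (H.inv_mem hq)
  have h1 : ⁅i, q⁆ ∈ ⁅H, P⁆ := by
    rw [← commutatorElement_inv]
    exact inv_mem (Subgroup.commutator_mem_commutator hq hi)
  have h2 : ⁅p * i, j⁆ ∈ ⁅H, P⁆ := Subgroup.commutator_mem_commutator ha hj
  have h3 := conj_comm_mem (H.mul_mem (H.inv_mem hpq) hp) h1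
  have h4 := conj_comm_mem hq h2
  have e : ⁅p, q⁆⁻¹ * ⁅p * i, q * j⁆ =
      (⁅p, q⁆⁻¹ * p * ⁅i, q⁆ * (⁅p, q⁆⁻¹ * p)⁻¹) * (q * ⁅p * i, j⁆ * q⁻¹) := by
    simp only [commutatorElement_def]
    group
  rw [e]
  exact mul_mem h3 h4

private theorem bdd_CK (hB : Br G K) [Nonempty X] (hK : K.FiniteIndex) {H : Subgroup G}
    (hKH : K ≤ H) (M : ℕ) :
    ∃ E : Set G, E.Finite ∧ ∀ n, ∀ z ∈ CK K M, ∃ z' ∈ CK K M, z⁻¹ * z' ∈ ⁅H, PG K n⁆ ∧
      ∀ v : List X, v.length = n → sec hB.self z' v ∈ E := by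
  obtain ⟨F, hF, hrep⟩ := exists_repr hB hK
  induction M with
  | zero =>
    refine ⟨{1}, Set.finite_singleton _, fun n z hz => ⟨1, rfl, ?_, fun v _ => ?_⟩⟩
    · have : z = 1 := hz
      rw [this, inv_one, one_mul]
      exact one_mem _
    · rw [sec_one]
      exact rfl
  | succ M ih =>
    obtain ⟨E, hE, hEz⟩ := ih
    refine ⟨F * F * F⁻¹ * F⁻¹ * E, (((hF.mul hF).mul hF.inv).mul hF.inv).mul hE,
      fun n z hz => ?_⟩
    obtain ⟨p, hp, q, hq, y, hy, rfl⟩ := hz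
    have hPn : (PG K n).Normal := PG_normal hB.self n
    have hPK : PG K n ≤ K := PG_le hB n
    obtain ⟨p', hp'1, hp'2⟩ := hrep p n
    obtain ⟨q', hq'1, hq'2⟩ := hrep q n
    obtain ⟨y', hy'1, hy'2, hy'3⟩ := hEz n y hy
    have hp' : p' ∈ K := by
      have := K.mul_mem hp (hPK hp'1)
      rwa [mul_inv_cancel_left] at this
    have hq' : q' ∈ K := by
      have := K.mul_mem hq (hPK hq'1)
      rwa [mul_inv_cancel_left] at this
    refine ⟨⁅p', q'⁆ * y', ⟨p', hp', q', hq', y', hy'1, rfl⟩, ?_, ?_⟩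
    · have h1 := comm_congr (hPK.trans hKH) (hKH hp) (hKH hq) hp'1 hq'1
      rw [mul_inv_cancel_left, mul_inv_cancel_left] at h1
      have h2 := conj_comm_mem (H.inv_mem (hKH (CK_sub hy))) h1
      have e : (⁅p, q⁆ * y)⁻¹ * (⁅p', q'⁆ * y') =
          y⁻¹ * (⁅p, q⁆⁻¹ * ⁅p', q'⁆) * y⁻¹⁻¹ * (y⁻¹ * y') := by
        group
      rw [e]
      exact mul_mem h2 hy'2
    · rw [commutatorElement_def]
      exact secs_mul _ (secs_mul _ (secs_mul _ (secs_mul _ hp'2 hq'2) (secs_inv _ hp'2))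
        (secs_inv _ hq'2)) hy'3

/-- PROOF.  Let `F` be from `exists_repr`.  First the case `S = []` (`R K [] M = CK K M`) by
induction on `M`: for `M = 0` take `z' = 1`, `E = {1}` (`sec_one`); for `z = ⁅p, q⁆ * y` with
`p, q ∈ K`, `y ∈ CK K M`, take `p' = p i`, `q' = q j` (`i, j ∈ PG K n ≤ K`) from `exists_repr`, `y'`
from the induction hypothesis and `z' = ⁅p', q'⁆ * y'`, `E' = F * F * F⁻¹ * F⁻¹ * E` (`secs_mul`,
`secs_inv`, `commutatorElement_def`);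
`z⁻¹ * z' = y⁻¹ * (⁅p, q⁆⁻¹ * ⁅p', q'⁆) * y * (y⁻¹ * y')` (`comm_congr`, `conj_comm_mem`).
Then induction on `S`: for `z = ⁅s, m⁆ * y` take `z' = ⁅s, m'⁆ * y'`; the sections of `s` lie in
the finite set `{t | ∃ v, sec s v = t}` (`hfs s`). -/
theorem exists_bounded (hB : Br G K) [Nonempty X] (hK : K.FiniteIndex)
    (hfs : ∀ g : G, {s : G | ∃ v : List X, sec hB.self g v = s}.Finite) {H : Subgroup G}
    (hKH : K ≤ H) (S : List G) (hS : ∀ s ∈ S, s ∈ H) (M : ℕ) :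
    ∃ E : Set G, E.Finite ∧ ∀ n, ∀ z ∈ R K S M, ∃ z' ∈ R K S M, z⁻¹ * z' ∈ ⁅H, PG K n⁆ ∧
      ∀ v : List X, v.length = n → sec hB.self z' v ∈ E := by
  obtain ⟨F, hF, hrep⟩ := exists_repr hB hK
  induction S with
  | nil => exact bdd_CK hB hK hKH M
  | cons s S ih =>
    obtain ⟨E, hE, hEz⟩ := ih (fun t ht => hS t (List.mem_cons_of_mem _ ht))
    have hsH : s ∈ H := hS s List.mem_cons_self
    have hFs := hfs s
    refine ⟨{t : G | ∃ v : List X, sec hB.self s v = t} * F *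
      {t : G | ∃ v : List X, sec hB.self s v = t}⁻¹ * F⁻¹ * E,
      (((hFs.mul hF).mul hFs.inv).mul hF.inv).mul hE, fun n z hz => ?_⟩
    obtain ⟨m, hm, y, hy, rfl⟩ := hz
    have hPn : (PG K n).Normal := PG_normal hB.self n
    have hPK : PG K n ≤ K := PG_le hB n
    obtain ⟨m', hm'1, hm'2⟩ := hrep m n
    obtain ⟨y', hy'1, hy'2, hy'3⟩ := hEz n y hy
    have hm' : m' ∈ K := by
      have := K.mul_mem hm (hPK hm'1)
      rwa [mul_inv_cancel_left] at this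
    refine ⟨⁅s, m'⁆ * y', ⟨m', hm', y', hy'1, rfl⟩, ?_, ?_⟩
    · have h1 := comm_congr (hPK.trans hKH) hsH (hKH hm) (one_mem (PG K n)) hm'1
      rw [mul_one, mul_inv_cancel_left] at h1
      have h2 := conj_comm_mem (H.inv_mem (hKH (R_sub hy))) h1
      have e : (⁅s, m⁆ * y)⁻¹ * (⁅s, m'⁆ * y') =
          y⁻¹ * (⁅s, m⁆⁻¹ * ⁅s, m'⁆) * y⁻¹⁻¹ * (y⁻¹ * y') := by
        group
      rw [e]
      exact mul_mem h2 hy'2
    · rw [commutatorElement_def]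
      have hs2 : ∀ v : List X, v.length = n →
          sec hB.self s v ∈ {t : G | ∃ v : List X, sec hB.self s v = t} := fun v _ => ⟨v, rfl⟩
      exact secs_mul _ (secs_mul _ (secs_mul _ (secs_mul _ hs2 hm'2) (secs_inv _ hs2))
        (secs_inv _ hm'2)) hy'3

/-- PROOF.  Let `E₀` be from `exists_bounded` and `E = (E₀⁻¹ * {t | ∃ v, sec x v = t}) ∩ K`.  For
`n`: `z⁻¹ * x ∈ ⁅H, PG K n⁆` by `hW`; take `z'` from `exists_bounded`; then
`z'⁻¹ * x = (z⁻¹ * z')⁻¹ * (z⁻¹ * x) ∈ ⁅H, PG K n⁆ ≤ PG K n` (`comm_le_self` in CB71/GT for the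
normal subgroup `PG K n`), its sections at level `n` are in `K` (`PG_sec`) and in
`E₀⁻¹ * {..}` (`secs_mul`, `secs_inv`). -/
theorem bounded_sections (hB : Br G K) [Nonempty X] (hK : K.FiniteIndex)
    (hfs : ∀ g : G, {s : G | ∃ v : List X, sec hB.self g v = s}.Finite) {H : Subgroup G}
    (hKH : K ≤ H) (S : List G) (hS : ∀ s ∈ S, s ∈ H) (W : ℕ) {x : G}
    (hW : ∀ n, ∃ z ∈ R K S W, z⁻¹ * x ∈ ⁅H, PG K n⁆) :
    ∃ E : Set G, E.Finite ∧ (∀ e ∈ E, e ∈ K) ∧ ∀ n, ∃ z ∈ R K S W, z⁻¹ * x ∈ ⁅H, PG K n⁆ ∧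
      ∀ v : List X, v.length = n → sec hB.self (z⁻¹ * x) v ∈ E := by
  obtain ⟨E₀, hE₀, hb⟩ := exists_bounded hB hK hfs hKH S hS W
  refine ⟨(E₀⁻¹ * {t : G | ∃ v : List X, sec hB.self x v = t}) ∩ {t | t ∈ K},
    (hE₀.inv.mul (hfs x)).subset Set.inter_subset_left, fun e he => he.2, fun n => ?_⟩
  obtain ⟨z, hz, hzx⟩ := hW n
  obtain ⟨z', hz', hzz', hsec⟩ := hb n z hz
  have hPn : (PG K n).Normal := PG_normal hB.self n
  have h1 : z'⁻¹ * x ∈ ⁅H, PG K n⁆ := by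
    have e : z'⁻¹ * x = (z⁻¹ * z')⁻¹ * (z⁻¹ * x) := by group
    rw [e]
    exact mul_mem (inv_mem hzz') hzx
  refine ⟨z', hz', h1, fun v hv => ⟨?_, ?_⟩⟩
  · have hx2 : ∀ v : List X, v.length = n →
        sec hB.self x v ∈ {t : G | ∃ v : List X, sec hB.self x v = t} := fun v _ => ⟨v, rfl⟩
    exact secs_mul _ (secs_inv _ hsec) hx2 v hv
  · exact PG_sec hB.self (comm_le_self H h1) hv

end Pool.Agent.RB61
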