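import Mathlib
import Pool.Agent.RB61.Ap

set_option autoImplicit false
set_option linter.unusedSectionVars false

/-!
# RB61/Tree: spanning forests of the Schreier graph of `H` on the words

`rtG H v` is the representative of the orbit of the word `v` under `H` (CB71/GT: `rtG_rel`,
`rtG_act`, `rtG_rtG`, `rtG_length`).  `GenList H S`: the elements of the list `S` are in `H` and
every element of `H` is the product of a list of elements of `S`.  `S.getD i 1` is the `i`-th
element of `S`.
-/

namespace Pool.Agent.RB61

open scoped commutatorElement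
open Pool.Agent.CW71 Pool.Agent.CB71

variable {X : Type} {G : Subgroup (Tr X)}

/-- every word `v` which is not a representative has a parent `S.getD (j v) 1 • v`, closer to the
representative of the orbit -/
structure Forest (H : Subgroup G) (S : List G) where
  j : List X → ℕ
  d : List X → ℕ
  t : List X → G
  jlt : ∀ v, rtG H v ≠ v → j v < S.length
  dstep : ∀ v, rtG H v ≠ v → d (S.getD (j v) 1 • v) + 1 = d v
  droot : ∀ v, rtG H v = v → d v = 0
  tmem : ∀ v, t v ∈ H
  tact : ∀ v, t v • v = rtG H v
  troot : ∀ v, rtG H v = v → t v = 1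
  tstep : ∀ v, rtG H v ≠ v → t v = t (S.getD (j v) 1 • v) * S.getD (j v) 1

lemma getD_mem_H {H : Subgroup G} {S : List G} (hS : GenList H S) (i : ℕ) : S.getD i 1 ∈ H := by
  by_cases hi : i < S.length
  · rw [List.getD_eq_getElem _ _ hi]
    exact hS.sub _ (List.getElem_mem hi)
  · rw [List.getD_eq_default _ _ (le_of_not_gt hi)]
    exact H.one_mem

open Classical in
/-- transports with fuel -/
noncomputable def Tree_T (H : Subgroup G) (S : List G) (j : List X → ℕ) : ℕ → List X → G
  | 0, _ => 1
  | f + 1, v => if rtG H v = v then 1 else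
      Tree_T H S j f (S.getD (j v) 1 • v) * S.getD (j v) 1

/-- PROOF.  `d v` is the least length of a list `l` of elements of `S` with `l.prod • v = rtG H v`
(`Nat.find`; it exists by `rtG_rel` and `hS.gen`).  If `rtG H v ≠ v`, a shortest `l` is not empty,
`l = l' ++ [s]`, `s ∈ S`, and `l'.prod • (s • v) = rtG H v = rtG H (s • v)` (`rtG_act`), so
`d (s • v) ≤ d v - 1`; also `d v ≤ d (s • v) + 1`.  Let `j v` be an index `< S.length` with
`S.getD (j v) 1 = s` (`List.getElem_of_mem`).  With `T 0 v = 1`,
`T (f + 1) v = if rtG H v = v then 1 else T f (S.getD (j v) 1 • v) * S.getD (j v) 1`, put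
`t v = T (d v) v`; as `d v = d (s • v) + 1`, `tstep` holds by definition; `tact`, `tmem` by
induction on `d v` (`rtG_act`; `d v = 0` implies `rtG H v = v`). -/
theorem exists_forest {H : Subgroup G} {S : List G} (hS : GenList H S) :
    Nonempty (Forest H S) := by
  classical
  have hex : ∀ v : List X, ∃ ℓ, ∃ l : List G, (∀ x ∈ l, x ∈ S) ∧ l.length = ℓ ∧
      l.prod • v = rtG H v := by
    intro v
    obtain ⟨a, ha, hav⟩ := rtG_rel H v
    obtain ⟨l, hl, e⟩ := hS.gen a ha
    exact ⟨l.length, l, hl, rfl, by rw [e, hav]⟩
  let d : List X → ℕ := fun v => Nat.find (hex v)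
  have hd : ∀ v, ∃ l : List G, (∀ x ∈ l, x ∈ S) ∧ l.length = d v ∧ l.prod • v = rtG H v :=
    fun v => Nat.find_spec (hex v)
  have hmin : ∀ (v : List X) (l : List G), (∀ x ∈ l, x ∈ S) → l.prod • v = rtG H v →
      d v ≤ l.length := fun v l hl e => Nat.find_min' (hex v) ⟨l, hl, rfl, e⟩
  have hstep : ∀ v : List X, ∃ i, rtG H v ≠ v → i < S.length ∧ d (S.getD i 1 • v) + 1 = d v := by
    intro v
    by_cases hv : rtG H v = v
    · exact ⟨0, fun h => absurd hv h⟩
    obtain ⟨l, hl, hlen, hprod⟩ := hd v
    rcases List.eq_nil_or_concat l with rfl | ⟨l', s, rfl⟩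
    · rw [List.prod_nil, one_smul] at hprod
      exact absurd hprod.symm hv
    have hs : s ∈ S := hl s (by simp)
    have hl' : ∀ x ∈ l', x ∈ S := fun x hx => hl x (by simp [hx])
    obtain ⟨i, hi, e⟩ := List.getElem_of_mem hs
    have e' : S.getD i 1 = s := by rw [List.getD_eq_getElem _ _ hi, e]
    have hsH : s ∈ H := hS.sub s hs
    have hprod' : l'.prod • (s • v) = rtG H (s • v) := by
      rw [rtG_act hsH, ← hprod, List.concat_eq_append, List.prod_append, List.prod_singleton,
        mul_smul]
    have h1 := hmin (s • v) l' hl' hprod'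
    obtain ⟨l'', hl'', hlen'', hprod''⟩ := hd (s • v)
    have h2 : d v ≤ (l'' ++ [s]).length := by
      refine hmin v _ ?_ ?_
      · intro x hx
        rcases List.mem_append.1 hx with hx | hx
        · exact hl'' x hx
        · rw [List.mem_singleton] at hx
          rw [hx]; exact hs
      · rw [List.prod_append, List.prod_singleton, mul_smul, hprod'', rtG_act hsH]
    rw [List.length_append, List.length_singleton, hlen''] at h2
    rw [List.concat_eq_append, List.length_append, List.length_singleton] at hlen
    refine ⟨i, fun _ => ⟨hi, ?_⟩⟩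
    rw [e']
    omega
  choose j hj using hstep
  have hroot : ∀ v, rtG H v = v → d v = 0 := by
    intro v hv
    have := hmin v [] (by simp) (by rw [List.prod_nil, one_smul, hv])
    simpa using this
  have htm : ∀ f v, Tree_T H S j f v ∈ H := by
    intro f
    induction f with
    | zero => intro v; exact H.one_mem
    | succ f ih =>
      intro v
      unfold Tree_T
      split
      · exact H.one_mem
      · exact H.mul_mem (ih _) (getD_mem_H hS _)
  have htr : ∀ v, rtG H v = v → Tree_T H S j (d v) v = 1 := by
    intro v hv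
    rw [hroot v hv]
    rfl
  have hts : ∀ v, rtG H v ≠ v → Tree_T H S j (d v) v =
      Tree_T H S j (d (S.getD (j v) 1 • v)) (S.getD (j v) 1 • v) * S.getD (j v) 1 := by
    intro v hv
    conv_lhs => rw [← (hj v hv).2]
    exact if_neg hv
  refine ⟨⟨j, d, fun v => Tree_T H S j (d v) v, fun v hv => (hj v hv).1, fun v hv => (hj v hv).2,
    hroot, fun v => htm _ _, ?_, htr, hts⟩⟩
  have key : ∀ (N : ℕ) (v : List X), d v = N → Tree_T H S j (d v) v • v = rtG H v := by
    intro N
    induction N with
    | zero =>
      intro v hv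
      by_cases h : rtG H v = v
      · rw [htr v h, one_smul, h]
      · have := (hj v h).2
        omega
    | succ N ih =>
      intro v hv
      by_cases h : rtG H v = v
      · rw [htr v h, one_smul, h]
      · have h1 := (hj v h).2
        rw [hts v h, mul_smul, ih _ (by omega), rtG_act (getD_mem_H hS _)]
  exact fun v => key _ v rfl

end Pool.Agent.RB61
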