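import Mathlib
import Pool.Agent.RB61.Tree

set_option autoImplicit false
set_option linter.unusedSectionVars false

/-!
# RB61/Lists: the lists of the descendants in a forest
-/

namespace Pool.Agent.RB61

open scoped commutatorElement
open Pool.Agent.CW71 Pool.Agent.CB71

variable {X : Type} {G : Subgroup (Tr X)} {H : Subgroup G} {S : List G}

open Classical in
/-- the child of `v` along the `i`-th generator -/
noncomputable def child (Φ : Forest H S) (v : List X) (i : ℕ) : Option (List X) :=
  if rtG H ((S.getD i 1)⁻¹ • v) ≠ (S.getD i 1)⁻¹ • v ∧ Φ.j ((S.getD i 1)⁻¹ • v) = i then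
    some ((S.getD i 1)⁻¹ • v) else none

/-- the children of `v` in the order of the generators -/
noncomputable def chl (Φ : Forest H S) (v : List X) : List (List X) :=
  (List.range S.length).filterMap (child Φ v)

/-- the descendants of `v` up to depth `f` (depth first order) -/
noncomputable def lst (Φ : Forest H S) : ℕ → List X → List (List X)
  | 0, v => [v]
  | f + 1, v => v :: (chl Φ v).flatMap (lst Φ f)

/-- the descendants of `v` up to distance `D` from the representatives -/
noncomputable def Lv (Φ : Forest H S) (D : ℕ) (v : List X) : List (List X) := lst Φ (D - Φ.d v) v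

/-- PROOF.  `List.mem_filterMap`; if `c` is the child along `i` then `Φ.j c = i`, so
`S.getD (Φ.j c) 1 • c = v` (`smul_inv_smul`); conversely take `i = Φ.j c` (`Φ.jlt`). -/
theorem mem_chl (Φ : Forest H S) (v c : List X) :
    c ∈ chl Φ v ↔ (rtG H c ≠ c ∧ S.getD (Φ.j c) 1 • c = v) := by
  classical
  unfold chl
  rw [List.mem_filterMap]
  constructor
  · rintro ⟨i, _, h⟩
    unfold child at h
    split_ifs at h with h1
    have e : (S.getD i 1)⁻¹ • v = c := Option.some.inj h
    rw [e] at h1
    refine ⟨h1.1, ?_⟩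
    rw [h1.2, ← e, smul_inv_smul]
  · rintro ⟨h1, h2⟩
    refine ⟨Φ.j c, List.mem_range.2 (Φ.jlt c h1), ?_⟩
    have e : (S.getD (Φ.j c) 1)⁻¹ • v = c := by rw [← h2, inv_smul_smul]
    unfold child
    rw [e, if_pos ⟨h1, rfl⟩]

/-- PROOF.  `List.Nodup.filterMap`: the index is determined by the child, `i = Φ.j c`. -/
theorem chl_nodup (Φ : Forest H S) (v : List X) : (chl Φ v).Nodup := by
  classical
  have key : ∀ i c, child Φ v i = some c → Φ.j c = i := by
    intro i c h
    unfold child at h
    split_ifs at h with h1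
    have e : (S.getD i 1)⁻¹ • v = c := Option.some.inj h
    rw [e] at h1
    exact h1.2
  refine List.Nodup.filterMap ?_ List.nodup_range
  intro i i' c h h'
  rw [← key i c h, ← key i' c h']

/-- PROOF.  If `D - Φ.d v = 0` then `v` has no children: a child `c` has length `n` (`len_act`; `v`
and `c` are in one orbit of `G`) and `Φ.d c = Φ.d v + 1 > D`.  If `D - Φ.d v = f + 1` then
`D - Φ.d c = f` for all children `c` (`Φ.dstep`). -/
theorem Lv_rec (hG : SelfSimilar G) (Φ : Forest H S) {D n : ℕ}
    (hD : ∀ w : List X, w.length = n → Φ.d w ≤ D) {v : List X} (hv : v.length = n) :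
    Lv Φ D v = v :: (chl Φ v).flatMap (Lv Φ D) := by
  have hc : ∀ c ∈ chl Φ v, c.length = n ∧ Φ.d v + 1 = Φ.d c := by
    intro c hc
    obtain ⟨h1, h2⟩ := (mem_chl Φ v c).1 hc
    refine ⟨?_, ?_⟩
    · rw [← hv, ← h2, len_act hG]
    · rw [← h2]; exact Φ.dstep c h1
  unfold Lv
  rcases hf : D - Φ.d v with _ | f
  · have : chl Φ v = [] := by
      rw [List.eq_nil_iff_forall_not_mem]
      intro c hcc
      obtain ⟨h1, h2⟩ := hc c hcc
      have := hD c h1
      omega
    rw [this]
    rfl
  · show v :: (chl Φ v).flatMap (lst Φ f) = _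
    congr 1
    rw [List.flatMap_def, List.flatMap_def]
    congr 1
    refine List.map_congr_left fun c hcc => ?_
    obtain ⟨h1, h2⟩ := hc c hcc
    have : D - Φ.d c = f := by omega
    rw [this]

open Classical in
/-- the parent -/
noncomputable def Lists_par (Φ : Forest H S) (u : List X) : List X :=
  if rtG H u = u then u else S.getD (Φ.j u) 1 • u

lemma Lists_par_nonroot (Φ : Forest H S) {u : List X} (h : rtG H u ≠ u) :
    Lists_par Φ u = S.getD (Φ.j u) 1 • u := if_neg h

lemma Lists_par_root (Φ : Forest H S) {u : List X} (h : rtG H u = u) :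
    Lists_par Φ u = u := if_pos h

lemma Lists_par_d (Φ : Forest H S) (i : ℕ) (u : List X) (h : i ≤ Φ.d u) :
    Φ.d ((Lists_par Φ)^[i] u) + i = Φ.d u := by
  induction i generalizing u with
  | zero => rfl
  | succ i ih =>
    have hu : rtG H u ≠ u := by
      intro hu
      have := Φ.droot u hu
      omega
    have h1 := Φ.dstep u hu
    rw [Function.iterate_succ_apply, Lists_par_nonroot Φ hu]
    have := ih _ (show i ≤ Φ.d (S.getD (Φ.j u) 1 • u) by omega)
    omega

lemma Lists_par_len (hG : SelfSimilar G) (Φ : Forest H S) (i : ℕ) (u : List X) :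
    ((Lists_par Φ)^[i] u).length = u.length := by
  induction i generalizing u with
  | zero => rfl
  | succ i ih =>
    rw [Function.iterate_succ_apply, ih]
    by_cases h : rtG H u = u
    · rw [Lists_par_root Φ h]
    · rw [Lists_par_nonroot Φ h, len_act hG]

lemma Lists_par_rt (hS : GenList H S) (Φ : Forest H S) (i : ℕ) (u : List X) :
    rtG H ((Lists_par Φ)^[i] u) = rtG H u := by
  induction i generalizing u with
  | zero => rfl
  | succ i ih =>
    rw [Function.iterate_succ_apply, ih]
    by_cases h : rtG H u = u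
    · rw [Lists_par_root Φ h]
    · rw [Lists_par_nonroot Φ h, rtG_act (getD_mem_H hS _)]

lemma Lists_main (hG : SelfSimilar G) (Φ : Forest H S) {D n : ℕ}
    (hD : ∀ w : List X, w.length = n → Φ.d w ≤ D) (N : ℕ) : ∀ v : List X, v.length = n →
    D - Φ.d v = N → (Lv Φ D v).Nodup ∧ ∀ u, u ∈ Lv Φ D v ↔
      (u.length = n ∧ Φ.d v ≤ Φ.d u ∧ (Lists_par Φ)^[Φ.d u - Φ.d v] u = v) := by
  induction N using Nat.strong_induction_on with
  | _ N ih =>
    intro v hv hN
    have hc : ∀ c ∈ chl Φ v, c.length = n ∧ Φ.d v + 1 = Φ.d c := by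
      intro c hc
      obtain ⟨h1, h2⟩ := (mem_chl Φ v c).1 hc
      refine ⟨?_, ?_⟩
      · rw [← hv, ← h2, len_act hG]
      · rw [← h2]; exact Φ.dstep c h1
    have hih : ∀ c ∈ chl Φ v, (Lv Φ D c).Nodup ∧ ∀ u, u ∈ Lv Φ D c ↔
        (u.length = n ∧ Φ.d c ≤ Φ.d u ∧ (Lists_par Φ)^[Φ.d u - Φ.d c] u = c) := by
      intro c hcc
      obtain ⟨h1, h2⟩ := hc c hcc
      have h3 := hD c h1
      exact ih (D - Φ.d c) (by omega) c h1 rfl
    rw [Lv_rec hG Φ hD hv]
    refine ⟨?_, ?_⟩
    · rw [List.nodup_cons, List.nodup_flatMap]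
      refine ⟨?_, fun c hcc => (hih c hcc).1, ?_⟩
      · intro h
        obtain ⟨c, hcc, h4⟩ := List.mem_flatMap.1 h
        have h5 := (((hih c hcc).2 v).1 h4).2.1
        have h6 := (hc c hcc).2
        omega
      · refine (List.Nodup.pairwise_of_forall_ne (chl_nodup Φ v) ?_)
        intro c hcc c' hcc' hne
        show List.Disjoint (Lv Φ D c) (Lv Φ D c')
        intro u hu hu'
        have h5 := (((hih c hcc).2 u).1 hu).2
        have h6 := (((hih c' hcc').2 u).1 hu').2
        have h7 : Φ.d c = Φ.d c' := by rw [← (hc c hcc).2, ← (hc c' hcc').2]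
        apply hne
        rw [← h5.2, ← h6.2, h7]
    · intro u
      rw [List.mem_cons, List.mem_flatMap]
      constructor
      · rintro (rfl | ⟨c, hcc, h4⟩)
        · refine ⟨hv, le_rfl, ?_⟩
          rw [Nat.sub_self]; rfl
        · obtain ⟨h5, h6, h7⟩ := ((hih c hcc).2 u).1 h4
          have h8 := (hc c hcc).2
          refine ⟨h5, by omega, ?_⟩
          have h9 : Φ.d u - Φ.d v = (Φ.d u - Φ.d c) + 1 := by omega
          rw [h9, Function.iterate_succ_apply', h7]
          obtain ⟨h10, h11⟩ := (mem_chl Φ v c).1 hcc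
          rw [Lists_par_nonroot Φ h10, h11]
      · rintro ⟨h5, h6, h7⟩
        rcases Nat.eq_or_lt_of_le h6 with h8 | h8
        · left
          rw [h8, Nat.sub_self] at h7
          exact h7
        · right
          set c := (Lists_par Φ)^[Φ.d u - (Φ.d v + 1)] u with hcdef
          have h9 : Φ.d u - Φ.d v = (Φ.d u - (Φ.d v + 1)) + 1 := by omega
          rw [h9, Function.iterate_succ_apply', ← hcdef] at h7
          have h10 := Lists_par_d Φ (Φ.d u - (Φ.d v + 1)) u (by omega)
          rw [← hcdef] at h10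
          have h11 : rtG H c ≠ c := by
            intro h
            have := Φ.droot c h
            omega
          rw [Lists_par_nonroot Φ h11] at h7
          have hcc : c ∈ chl Φ v := (mem_chl Φ v c).2 ⟨h11, h7⟩
          refine ⟨c, hcc, ((hih c hcc).2 u).2 ⟨h5, by omega, ?_⟩⟩
          have h12 : Φ.d u - Φ.d c = Φ.d u - (Φ.d v + 1) := by rw [(hc c hcc).2]
          rw [h12]

/-- PROOF.  Let `par u = if rtG H u = u then u else S.getD (Φ.j u) 1 • u`.  By induction on
`D - Φ.d v` (`Lv_rec`), for all `v` of length `n`: `(Lv Φ D v).Nodup` and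
`u ∈ Lv Φ D v ↔ (u.length = n ∧ ∃ i, Φ.d u = Φ.d v + i ∧ par^[i] u = v)`.  (Nodup: `v` itself has
smaller distance than all other elements; the lists of two different children `c ≠ c'` are
disjoint: `Φ.d c = Φ.d c'`, so `i` is the same for `c` and `c'` and `c = par^[i] u = c'`;
`List.nodup_cons`, `List.nodup_flatMap` with `List.Pairwise` from `chl_nodup`.)  For a
representative `r`: `Φ.d r = 0`, so `u ∈ Lv Φ D r ↔ u.length = n ∧ par^[Φ.d u] u = r`, and
`par^[Φ.d u] u` has distance `0`, so it is a representative, of the orbit of `u`: it is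
`rtG H u` (`rtG_act`; `S.getD i 1 ∈ H` for `i < S.length` by `hS.sub`). -/
theorem Lv_root (hG : SelfSimilar G) (hS : GenList H S) (Φ : Forest H S) {D n : ℕ}
    (hD : ∀ w : List X, w.length = n → Φ.d w ≤ D) {r : List X} (hr : r.length = n)
    (hrr : rtG H r = r) :
    (Lv Φ D r).Nodup ∧ ∀ u, u ∈ Lv Φ D r ↔ (u.length = n ∧ rtG H u = r) := by
  obtain ⟨h1, h2⟩ := Lists_main hG Φ hD _ r hr rfl
  refine ⟨h1, fun u => ?_⟩
  rw [h2 u, Φ.droot r hrr]
  constructor
  · rintro ⟨h3, _, h4⟩
    refine ⟨h3, ?_⟩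
    rw [← Lists_par_rt hS Φ (Φ.d u - 0) u, h4, hrr]
  · rintro ⟨h3, h4⟩
    refine ⟨h3, Nat.zero_le _, ?_⟩
    rw [Nat.sub_zero]
    have h5 := Lists_par_d Φ (Φ.d u) u le_rfl
    have h6 : rtG H ((Lists_par Φ)^[Φ.d u] u) = (Lists_par Φ)^[Φ.d u] u := by
      by_contra h
      have := Φ.dstep _ h
      omega
    rw [← h6, Lists_par_rt hS Φ, h4]

end Pool.Agent.RB61
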