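import Mathlib
import Pool.Agent.RB61.Lists

set_option autoImplicit false
set_option linter.unusedSectionVars false

/-!
# RB61/Gath: gathering at the representatives with the generators of `H` only
-/

namespace Pool.Agent.RB61

open scoped commutatorElement
open Pool.Agent.CW71 Pool.Agent.CB71

variable {X : Type} {G : Subgroup (Tr X)} {K : Subgroup G} [hKn : K.Normal]

/-- PROOF.  Induction on `S` (`List.range_succ_eq_map`, `List.getD_cons_succ`), for all `φ`. -/
theorem comm_range_R (S : List G) (φ : ℕ → G) (hφ : ∀ i, φ i ∈ K) :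
    ((List.range S.length).map fun i => ⁅S.getD i 1, φ i⁆).prod ∈ R K S 0 := by
  induction S generalizing φ with
  | nil => exact one_mem_R [] 0
  | cons s S ih =>
    rw [List.length_cons, List.range_succ_eq_map, List.map_cons, List.prod_cons, List.map_map]
    exact ⟨φ 0, hφ 0, _, ih (fun i => φ (i + 1)) (fun i => hφ _), rfl⟩

/-- the product over the list `l` of the elements `k v` transported by `t v` -/
noncomputable def gp (hG : SelfSimilar G) (t : List X → G) (k : List X → G) (l : List (List X)) :
    G := (l.map fun v => sec hG (t v) v * k v * (sec hG (t v) v)⁻¹).prod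

/-- PROOF.  `prod_mem_K`, `hKn.conj_mem`. -/
theorem gp_mem (hG : SelfSimilar G) (t : List X → G) {k : List X → G} (hk : ∀ v, k v ∈ K)
    (l : List (List X)) : gp hG t k l ∈ K :=
  prod_mem_K l _ fun v _ => hKn.conj_mem _ (hk v) _

lemma Gath_ins_prod (hG : SelfSimilar G) {n : ℕ} (l : List ℕ) (g : ℕ → G) (f : ℕ → List X → G)
    (h : ∀ i ∈ l, InsG n (f i) (g i)) :
    InsG n (fun v => (l.map fun i => f i v).prod) (l.map g).prod := by
  induction l with
  | nil => exact insG_one n
  | cons i l ih =>
    have h1 := (h i List.mem_cons_self).mul (ih fun j hj => h j (List.mem_cons_of_mem _ hj))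
    rw [List.map_cons, List.prod_cons]
    refine h1.congr fun v _ => ?_
    rw [List.map_cons, List.prod_cons]

/-- a product with at most one nontrivial factor -/
lemma Gath_prod_single {M : Type*} [Monoid M] (l : List ℕ) (hl : l.Nodup) (f : ℕ → M) (j : ℕ)
    (hj : j ∈ l) (h : ∀ i ∈ l, i ≠ j → f i = 1) : (l.map f).prod = f j := by
  induction l with
  | nil => exact absurd hj List.not_mem_nil
  | cons i l ih =>
    obtain ⟨hil, hl'⟩ := List.nodup_cons.1 hl
    rw [List.map_cons, List.prod_cons]
    rcases List.mem_cons.1 hj with rfl | hj'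
    · have h1 : (l.map f).prod = 1 := by
        apply List.prod_eq_one
        intro x hx
        obtain ⟨k, hk, rfl⟩ := List.mem_map.1 hx
        exact h k (List.mem_cons_of_mem _ hk) (fun e => hil (e ▸ hk))
      rw [h1, mul_one]
    · have hne : i ≠ j := fun e => hil (e ▸ hj')
      rw [h i List.mem_cons_self hne, one_mul]
      exact ih hl' hj' fun k hk => h k (List.mem_cons_of_mem _ hk)

/-- a product over a `filterMap` -/
lemma Gath_prod_filterMap {M α : Type*} [Monoid M] (l : List ℕ) (c : ℕ → Option α) (f : α → M) :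
    ((l.filterMap c).map f).prod = (l.map fun i => (c i).elim 1 f).prod := by
  induction l with
  | nil => rfl
  | cons i l ih =>
    rw [List.map_cons, List.prod_cons]
    cases hc : c i with
    | none => rw [List.filterMap_cons_none hc, ih]; simp
    | some a => rw [List.filterMap_cons_some hc, List.map_cons, List.prod_cons, ih]; simp

lemma Gath_prod_conj {M : Type*} [Group M] {α : Type*} (l : List α) (τ : M) (f : α → M) :
    (l.map fun i => τ⁻¹ * f i * τ).prod = τ⁻¹ * (l.map f).prod * τ := by
  induction l with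
  | nil => simp
  | cons i l ih =>
    rw [List.map_cons, List.prod_cons, ih, List.map_cons, List.prod_cons]
    group

lemma Gath_gp_cons (hG : SelfSimilar G) (t k : List X → G) (v : List X) (l : List (List X)) :
    gp hG t k (v :: l) = sec hG (t v) v * k v * (sec hG (t v) v)⁻¹ * gp hG t k l := by
  unfold gp
  rw [List.map_cons, List.prod_cons]

lemma Gath_gp_flatMap (hG : SelfSimilar G) (t k : List X → G) (l : List (List X))
    (L : List X → List (List X)) :
    gp hG t k (l.flatMap L) = (l.map fun c => gp hG t k (L c)).prod := by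
  induction l with
  | nil => rfl
  | cons c l ih =>
    rw [List.flatMap_cons, List.map_cons, List.prod_cons, ← ih]
    unfold gp
    rw [List.map_append, List.prod_append]

open Classical in
/-- PROOF.  Take a forest `Φ` (`exists_forest hS`), `D` a bound for `Φ.d` on the words of length
`n` (finitely many, `List.finite_length_eq X n`), `t = Φ.t`, `L = Lv Φ D` (`Lv_root`).
Write `s i = S.getD i 1` (in `H`), `τ v = sec (t v) v`, `B v = gp t k (L v)` and
`A v = (τ v)⁻¹ * B v * τ v`, all in `K` for the values in `K`.
`φ i ∈ K` (`i : ℕ`) is inserted at level `n` with the function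
`v ↦ if rtG H v ≠ v ∧ Φ.j v = i then A v else 1` (`hB.ins`).
Compute the function of `y * ∏_{i < S.length} (s i * φ i * (s i)⁻¹) * ∏_{i < S.length} (φ i)⁻¹`
(`InsG.mul`, `InsG.inv`, `InsG.conj`, products over lists by induction) at a word `u` of length `n`:
* the conjugate `s i * φ i * (s i)⁻¹` has at `u` the value `σ * φᵢ(c) * σ⁻¹` with
  `c = (s i)⁻¹ • u`, `σ = sec (s i) c` (`InsG.conj`), which is `1` unless `c` is the child of `u`
  along `i`, and then `t c = t u * s i` (`Φ.tstep`), `τ c = τ u * σ` (`sec_mul`), so the value is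
  `σ * (τ c)⁻¹ * B c * τ c * σ⁻¹ = (τ u)⁻¹ * B c * τ u`;
* hence the product over `i` is `(τ u)⁻¹ * ((chl Φ u).map B).prod * τ u`
  (`chl` is the `filterMap` of `child` over `List.range S.length`), and by `Lv_rec`
  `B u = (τ u * k u * (τ u)⁻¹) * ((chl Φ u).map B).prod`, so
  `k u * (this product) = A u`;
* the last product has at `u` the value `(A u)⁻¹` if `rtG H u ≠ u` (only `i = Φ.j u` contributes)
  and `1` otherwise.
So the whole product has the value `1` at `u` if `rtG H u ≠ u` and `A u = B u` if `rtG H u = u`
(`Φ.troot`, `sec_one`).  Finally, with `a i = s i * φ i * (s i)⁻¹` and `b i = (φ i)⁻¹` in `K`,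
`(∏ a i) * (∏ b i)` is `∏ (a i * b i) = ∏ ⁅s i, φ i⁆` up to `S.length` commutators
(`Ap.list_mul`, `Ap.symm`), which is in `R K S 0` by `comm_range_R`; so
`w = (∏ a i) * (∏ b i) ∈ R K S S.length` (`Ap.R`). -/
theorem gather [Finite X] [Nonempty X] (hB : Br G K) {H : Subgroup G} {S : List G}
    (hS : GenList H S) (n : ℕ) :
    ∃ (t : List X → G) (L : List X → List (List X)), (∀ v, t v ∈ H) ∧ (∀ v, t v • v = rtG H v) ∧
      (∀ r, rtG H r = r → r.length = n →
        (L r).Nodup ∧ ∀ u, u ∈ L r ↔ (u.length = n ∧ rtG H u = r)) ∧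
      ∀ (k : List X → G) (y : G), (∀ v, k v ∈ K) → InsG n k y →
        ∃ w ∈ R K S S.length,
          InsG n (fun u => if rtG H u = u then gp hB.self t k (L u) else 1) (y * w) := by
  have hG := hB.self
  obtain ⟨Φ⟩ := exists_forest (X := X) hS
  obtain ⟨D, hD⟩ : ∃ D, ∀ w : List X, w.length = n → Φ.d w ≤ D := by
    have fW : {l : List X | l.length = n}.Finite := List.finite_length_eq X n
    obtain ⟨c, hc⟩ := (fW.image Φ.d).bddAbove
    exact ⟨c, fun w hw => hc ⟨w, hw, rfl⟩⟩
  refine ⟨Φ.t, Lv Φ D, Φ.tmem, Φ.tact, fun r hr hrn => Lv_root hG hS Φ hD hrn hr,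
    fun k y hk hy => ?_⟩
  set s : ℕ → G := fun i => S.getD i 1 with hs
  set τ : List X → G := fun v => sec hG (Φ.t v) v with hτ
  set B : List X → G := fun v => gp hG Φ.t k (Lv Φ D v) with hBdef
  set A : List X → G := fun v => (τ v)⁻¹ * B v * τ v with hA
  have hBK : ∀ v, B v ∈ K := fun v => gp_mem hG Φ.t hk _
  have hAK : ∀ v, A v ∈ K := by
    intro v
    have := hKn.conj_mem _ (hBK v) (τ v)⁻¹
    rwa [inv_inv] at this
  -- the inserted elements
  set f : ℕ → List X → G := fun i v => if rtG H v ≠ v ∧ Φ.j v = i then A v else 1 with hf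
  have hfK : ∀ i v, f i v ∈ K := by
    intro i v
    show (if rtG H v ≠ v ∧ Φ.j v = i then A v else 1) ∈ K
    split
    · exact hAK v
    · exact K.one_mem
  choose φ hφK hφ using fun i => hB.ins n (f i) (hfK i)
  have hl : ∀ (a : G) (v : List X), v.length = n → (a • v).length = n := fun a v hv => by
    rw [len_act hG, hv]
  set q := S.length with hq
  -- the first product
  have h1 := Gath_ins_prod hG (n := n) (List.range q) (fun i => s i * φ i * (s i)⁻¹) _
    (fun i _ => (hφ i).conj hG (s i))
  have h2 := Gath_ins_prod hG (n := n) (List.range q) (fun i => (φ i)⁻¹) _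
    (fun i _ => (hφ i).inv)
  -- the values
  have v1 : ∀ u : List X, u.length = n →
      ((List.range q).map fun i => sec hG (s i) ((s i)⁻¹ • u) * f i ((s i)⁻¹ • u) *
        (sec hG (s i) ((s i)⁻¹ • u))⁻¹).prod =
        (τ u)⁻¹ * ((chl Φ u).map B).prod * τ u := by
    intro u hu
    have e1 : ∀ i, sec hG (s i) ((s i)⁻¹ • u) * f i ((s i)⁻¹ • u) *
        (sec hG (s i) ((s i)⁻¹ • u))⁻¹ =
        (τ u)⁻¹ * ((child Φ u i).elim 1 B) * τ u := by
      intro i
      set c := (s i)⁻¹ • u with hc
      by_cases h : rtG H c ≠ c ∧ Φ.j c = i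
      · have e2 : child Φ u i = some c := if_pos h
        have e3 : f i c = A c := if_pos h
        have e4 : s i • c = u := by rw [hc, smul_inv_smul]
        have e5 : Φ.t c = Φ.t u * s i := by
          have := Φ.tstep c h.1
          rw [h.2] at this
          have e6 : S.getD i 1 • c = u := e4
          rw [e6] at this
          exact this
        have e7 : τ c = τ u * sec hG (s i) c := by
          show sec hG (Φ.t c) c = sec hG (Φ.t u) u * sec hG (s i) c
          rw [e5, sec_mul, e4]
        rw [e2, e3, Option.elim_some]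
        show sec hG (s i) c * ((τ c)⁻¹ * B c * τ c) * (sec hG (s i) c)⁻¹ = _
        rw [e7]; group
      · have e2 : child Φ u i = none := if_neg h
        have e3 : f i c = 1 := if_neg h
        rw [e2, e3, Option.elim_none]; group
    rw [List.map_congr_left fun i _ => e1 i, Gath_prod_conj]
    congr 2
    exact (Gath_prod_filterMap (List.range q) (child Φ u) B).symm
  have v2 : ∀ u : List X, u.length = n → k u * ((τ u)⁻¹ * ((chl Φ u).map B).prod * τ u) = A u := by
    intro u hu
    have e1 : B u = (τ u * k u * (τ u)⁻¹) * ((chl Φ u).map B).prod := by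
      show gp hG Φ.t k (Lv Φ D u) = _
      rw [Lv_rec hG Φ hD hu, Gath_gp_cons, Gath_gp_flatMap]
    show _ = (τ u)⁻¹ * B u * τ u
    rw [e1]; group
  have v3 : ∀ u : List X, u.length = n → ((List.range q).map fun i => (f i u)⁻¹).prod =
      if rtG H u = u then 1 else (A u)⁻¹ := by
    intro u hu
    by_cases h : rtG H u = u
    · rw [if_pos h]
      apply List.prod_eq_one
      intro x hx
      obtain ⟨i, _, rfl⟩ := List.mem_map.1 hx
      have : f i u = 1 := if_neg (fun h' => h'.1 h)
      rw [this, inv_one]
    · rw [if_neg h, Gath_prod_single (List.range q) List.nodup_range (fun i => (f i u)⁻¹) (Φ.j u)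
        (List.mem_range.2 (Φ.jlt u h))]
      · have : f (Φ.j u) u = A u := if_pos ⟨h, rfl⟩
        rw [this]
      · intro i _ hi
        have : f i u = 1 := if_neg (fun h' => hi h'.2.symm)
        show (f i u)⁻¹ = 1
        rw [this, inv_one]
  set a : ℕ → G := fun i => s i * φ i * (s i)⁻¹ with ha
  set b : ℕ → G := fun i => (φ i)⁻¹ with hb
  refine ⟨((List.range q).map a).prod * ((List.range q).map b).prod, ?_, ?_⟩
  · have haK : ∀ i ∈ List.range q, a i ∈ K := fun i _ => hKn.conj_mem _ (hφK i) _
    have hbK : ∀ i ∈ List.range q, b i ∈ K := fun i _ => K.inv_mem (hφK i)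
    have e1 := (Ap.list_mul (K := K) (List.range q) a b haK hbK).symm
    rw [List.length_range] at e1
    have e2 : ((List.range q).map fun i => a i * b i).prod ∈ R K S 0 := by
      have := comm_range_R (K := K) S φ hφK
      exact this
    have e3 := e1.R e2
    rwa [Nat.zero_add] at e3
  · rw [← mul_assoc]
    refine ((hy.mul h1).mul h2).congr fun u hu => ?_
    rw [v1 u hu, v2 u hu, v3 u hu]
    by_cases h : rtG H u = u
    · rw [if_pos h, if_pos h, mul_one]
      have e1 : τ u = 1 := by
        show sec hG (Φ.t u) u = 1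
        rw [Φ.troot u h, sec_one]
      show (τ u)⁻¹ * B u * τ u = B u
      rw [e1]; group
    · rw [if_neg h, if_neg h, mul_inv_cancel]

end Pool.Agent.RB61
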