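import Mathlib
import Pool.Agent.RB61.Gath
import Pool.Agent.CB71.GPhi

set_option autoImplicit false
set_option linter.unusedSectionVars false

/-!
# RB61/Cls: the gathered product of an element of `[H, PG K n]` is in `[secG H r, K]`
-/

namespace Pool.Agent.RB61

open scoped commutatorElement
open Pool.Agent.CW71 Pool.Agent.CB71

variable {X : Type} {G : Subgroup (Tr X)} {K : Subgroup G} [hKn : K.Normal]

/-- the classes of `K` modulo `[H, K]` -/
lemma exists_cls {Γ : Type} [Group Γ] {K H : Subgroup Γ} [hKn : K.Normal] (hKH : K ≤ H) :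
    ∃ (A : Type) (_ : AddCommGroup A) (φ : Γ → A),
      (∀ x ∈ K, ∀ y ∈ K, φ (x * y) = φ x + φ y) ∧ (∀ x ∈ ⁅H, K⁆, φ x = 0) ∧
        ∀ x ∈ K, φ x = 0 → x ∈ ⁅H, K⁆ := by
  classical
  set D : Subgroup K := (⁅H, K⁆ : Subgroup Γ).subgroupOf K with hD
  have hDn : D.Normal := by
    constructor
    intro x hx k
    exact comm_conj_mem hKH k.2 hx
  have hcomm : ∀ x y : K ⧸ D, x * y = y * x := by
    intro x y
    obtain ⟨x, rfl⟩ := QuotientGroup.mk'_surjective D x
    obtain ⟨y, rfl⟩ := QuotientGroup.mk'_surjective D y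
    have h1 : ⁅x, y⁆ ∈ D := by
      show ((⁅x, y⁆ : K) : Γ) ∈ ⁅H, K⁆
      exact Subgroup.commutator_mem_commutator (hKH x.2) y.2
    have h2 : QuotientGroup.mk' D ⁅x, y⁆ = 1 := (QuotientGroup.eq_one_iff _).2 h1
    rw [map_commutatorElement] at h2
    exact commutatorElement_eq_one_iff_mul_comm.1 h2
  let _ : CommGroup (K ⧸ D) := { (inferInstance : Group (K ⧸ D)) with mul_comm := hcomm }
  let φ : Γ → Additive (K ⧸ D) := fun x =>
    if h : x ∈ K then Additive.ofMul (QuotientGroup.mk' D ⟨x, h⟩) else 0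
  have hφ : ∀ (x : Γ) (hx : x ∈ K), φ x = Additive.ofMul (QuotientGroup.mk' D ⟨x, hx⟩) :=
    fun x hx => dif_pos hx
  refine ⟨Additive (K ⧸ D), inferInstance, φ, ?_, ?_, ?_⟩
  · intro x hx y hy
    rw [hφ x hx, hφ y hy, hφ _ (K.mul_mem hx hy), ← ofMul_mul, ← map_mul]
    rfl
  · intro x hx
    have hxK : x ∈ K := comm_sub_K H hx
    rw [hφ x hxK]
    have h3 : QuotientGroup.mk' D ⟨x, hxK⟩ = 1 := (QuotientGroup.eq_one_iff _).2 hx
    rw [h3]; rfl
  · intro x hx h0
    rw [hφ x hx] at h0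
    have h3 : QuotientGroup.mk' D ⟨x, hx⟩ = 1 := h0
    have h4 : (⟨x, hx⟩ : K) ∈ D := (QuotientGroup.eq_one_iff (N := D) _).1 h3
    exact h4

/-- PROOF.  Let `Δ = ⁅secG hB.self H r, K⁆`, `Δ ≤ K` (`comm_le_self`), `⁅K, K⁆ ≤ Δ` (`K_le_secG`).
`Δ.subgroupOf K` is normal in `K` (CB71/GPhi: `comm_conj_mem`, as in `exists_Phi`) and
`A = Additive (K ⧸ Δ.subgroupOf K)` is an abelian group (as in `exists_Phi`).  Let `φ : G → A` be
the class of `x` if `x ∈ K`, and `0` otherwise: additive on `K`, zero exactly on `Δ` inside `K`.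
Let `W` be the finite set of the words of length `n` (`List.finite_length_eq X n`).  With
`Psi hB.self H W t φ r` (CB71/GP) and the lemmas `Psi_mul`, `Psi_one`, `Psi_inv`, `Psi_conj`
(`a = t`; `hkill`: `φ` vanishes on `⁅secG H r, K⁆`) one has `Psi x = 0` for all
`x ∈ ⁅H, PG K n⁆`: this is `h1` in the proof of `Psi_zero` (CB71/GP), copy it.  Now
`Psi y = ∑_{v ∈ W, rtG H v = r} φ (sec (t v) v * sec y v * (sec (t v) v)⁻¹)`, with `sec y v = k v`
(`InsG.sec`), is `φ (gp t k l)`, `l = L r`: the list `l` has no repetition and its members are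
exactly the words of the sum (`List.sum_toFinset`, and `φ` of a product over a list of elements of
`K` is the sum, by induction).  So `φ (gp hB.self t k l) = 0`, hence it is in `Δ`. -/
theorem class_mem [Finite X] [Nonempty X] (hB : Br G K) {H : Subgroup G} (hKH : K ≤ H) {n : ℕ}
    {t : List X → G} (ht : ∀ v, t v ∈ H) (hta : ∀ v, t v • v = rtG H v) {r : List X}
    (hr : rtG H r = r) (hrn : r.length = n) {l : List (List X)} (hl : l.Nodup)
    (hl' : ∀ u, u ∈ l ↔ (u.length = n ∧ rtG H u = r)) {k : List X → G} {y : G}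
    (hk : ∀ v, k v ∈ K) (hy : InsG n k y) (hyc : y ∈ ⁅H, PG K n⁆) :
    gp hB.self t k l ∈ ⁅secG hB.self H r, K⁆ := by
  classical
  obtain ⟨A, iA, φ, hφ, hkill, hker⟩ := exists_cls (K_le_secG hB hKH r)
  have hfin : {v : List X | v.length = n}.Finite := List.finite_length_eq X n
  set W : Finset (List X) := hfin.toFinset with hWd
  have hW : ∀ v : List X, v ∈ W ↔ v.length = n := by
    intro v
    rw [hWd, Set.Finite.mem_toFinset]
    rfl
  have hPn := PG_normal (K := K) hB.self n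
  have h1 : ∀ x ∈ ⁅H, PG K n⁆, x ∈ PG K n ∧ Psi hB.self H W t φ r x = 0 := by
    intro x hx
    rw [Subgroup.commutator_def] at hx
    induction hx using Subgroup.closure_induction with
    | mem x hx =>
      obtain ⟨g, hg, p, hp, rfl⟩ := hx
      have hgp : g * p * g⁻¹ ∈ PG K n := hPn.conj_mem p hp g
      refine ⟨?_, ?_⟩
      · rw [commutatorElement_def]
        exact (PG K n).mul_mem hgp ((PG K n).inv_mem hp)
      · rw [commutatorElement_def, Psi_mul hB hW hφ hgp ((PG K n).inv_mem hp),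
          Psi_conj hB hW ht hta hφ hkill hg hp, Psi_inv hB hW hφ hp, add_neg_cancel]
    | one => exact ⟨(PG K n).one_mem, Psi_one hB hW hφ⟩
    | mul x y _ _ hx hy =>
      exact ⟨(PG K n).mul_mem hx.1 hy.1, by
        rw [Psi_mul hB hW hφ hx.1 hy.1, hx.2, hy.2, add_zero]⟩
    | inv x _ hx =>
      exact ⟨(PG K n).inv_mem hx.1, by rw [Psi_inv hB hW hφ hx.1, hx.2, neg_zero]⟩
  have h2 := (h1 y hyc).2
  have hone : φ 1 = 0 := hkill 1 (Subgroup.one_mem _)
  have h3 : ∀ l : List (List X), φ (gp hB.self t k l) =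
      (l.map fun v => φ (sec hB.self (t v) v * k v * (sec hB.self (t v) v)⁻¹)).sum := by
    intro l
    induction l with
    | nil => exact hone
    | cons v l ih =>
      have e1 : gp hB.self t k (v :: l) =
          (sec hB.self (t v) v * k v * (sec hB.self (t v) v)⁻¹) * gp hB.self t k l := rfl
      have e2 : gp hB.self t k l ∈ K := prod_mem_K l _ fun i _ => hKn.conj_mem _ (hk i) _
      rw [e1, hφ _ (hKn.conj_mem _ (hk v) _) _ e2, ih, List.map_cons, List.sum_cons]
  have hgK : gp hB.self t k l ∈ K := prod_mem_K l _ fun i _ => hKn.conj_mem _ (hk i) _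
  refine hker _ hgK ?_
  rw [h3, ← List.sum_toFinset _ hl, ← h2]
  unfold Psi
  have h4 : l.toFinset = W.filter (fun v => rtG H v = r) := by
    ext u
    rw [List.mem_toFinset, hl', Finset.mem_filter, hW]
  rw [h4]
  refine Finset.sum_congr (by congr) fun v hv => ?_
  rw [Finset.mem_filter, hW] at hv
  rw [hy.sec hB.self hv.1]


end Pool.Agent.RB61
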