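import Mathlib
import Pool.Agent.RB61.Ap

set_option autoImplicit false
set_option linter.unusedSectionVars false

/-!
# RB61/FolT: averaged products over a finite set

Project RB61, see `Pool.Agent.RB61.Ap` for `Ap K n x y` (`x = y c`, `c` a product of `n`
commutators of elements of `K`) and its calculus (`Ap.trans`, `Ap.mul`, `Ap.mul_pow`,
`Ap.list_map_const`, `Ap.list_mul`, `Ap.perm_map`, ...).

For a finite set `F` and `g ∈ K` let `TF F m g = ∏_{f ∈ F} (f^m)⁻¹ (f g)^m` (in the order of
`F.toList`).  This file proves the two estimates used in `FolPw`.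
-/

namespace Pool.Agent.RB61

open scoped commutatorElement
open Pool.Agent.CW71 Pool.Agent.CB71

variable {Γ : Type*} [Group Γ] {K : Subgroup Γ} [hKn : K.Normal]

/-- `∏_{f ∈ F} (f^m)⁻¹ (f g)^m` -/
noncomputable def TF (F : Finset Γ) (m : ℕ) (g : Γ) : Γ :=
  (F.toList.map fun f => (f ^ m)⁻¹ * (f * g) ^ m).prod

/-- PROOF.  For `f, g ∈ K`: `(f g)^m` is `f^m g^m` up to `m` commutators (`Ap.mul_pow`), so
`(f^m)⁻¹ (f g)^m` is `g^m` up to `m` commutators (`Ap.mul_left`).  Now `Ap.list_map_const` for the
list `F.toList` (length `F.card`), and the product of the constant list is `(g^m)^F.card`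
(`List.map_const'`, `List.prod_replicate`). -/
theorem TF_pow (F : Finset Γ) (hF : ∀ f ∈ F, f ∈ K) (m : ℕ) {g : Γ} (hg : g ∈ K) :
    Ap K (F.card * m) (TF F m g) ((g ^ m) ^ F.card) := by
  have h := Ap.list_map_const (K := K) F.toList (fun f => (f ^ m)⁻¹ * (f * g) ^ m)
    (fun _ => g ^ m) m (by
      intro f hf
      have h1 := (Ap.mul_pow (hF f (Finset.mem_toList.1 hf)) hg m).mul_left (f ^ m)⁻¹
      rwa [inv_mul_cancel_left] at h1)
  rw [List.map_const', List.prod_replicate, Finset.length_toList] at h
  exact h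

lemma FolT_mem {f g : Γ} (hf : f ∈ K) (hg : g ∈ K) (m : ℕ) : (f ^ m)⁻¹ * (f * g) ^ m ∈ K :=
  K.mul_mem (K.inv_mem (K.pow_mem hf m)) (K.pow_mem (K.mul_mem hf hg) m)

lemma FolT_close {f h : Γ} (hf : f ∈ K) (hh : h ∈ K) (m : ℕ) :
    Ap K m ((f ^ m)⁻¹ * (f * h) ^ m) (h ^ m) := by
  have h1 := (Ap.mul_pow hf hh m).mul_left (f ^ m)⁻¹
  rwa [inv_mul_cancel_left] at h1

lemma FolT_list (l : List Γ) (m : ℕ) (v : Γ → Γ) (h : Γ) (hv : ∀ f ∈ l, Ap K m (v f) (h ^ m)) :
    Ap K (l.length * m) (l.map v).prod ((h ^ m) ^ l.length) := by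
  have h1 := Ap.list_map_const (K := K) l v (fun _ => h ^ m) m hv
  rwa [List.map_const', List.prod_replicate] at h1

/-- PROOF.  Put `u f = (f^m)⁻¹ (f h)^m`.  Since
`(f^m)⁻¹ (f g h)^m = ((f^m)⁻¹ (f g)^m) * u (f g)`, `Ap.list_mul` gives
`TF F m (g h) ≈ TF F m g * ∏_{f ∈ F} u (f g)` with `F.card` commutators (everything is in `K`).
It remains to compare `P = ∏_{f ∈ F} u (f g)` with `Q = ∏_{f ∈ F} u f = TF F m h`, cost
`2 * F.card + 2 * (m * bad)` where `bad = #{f ∈ F | f g ∉ F}`.
Let `A = F.filter (f * g ∈ F)` and `A' = A.image (· * g) ⊆ F`.  Both `F.toList` and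
`A.toList ++ (F \ A).toList` are lists of the elements of `F` without repetition, so they are
permutations of each other and `Ap.perm_map` costs `F.card`:
`P ≈ ∏_{f ∈ A} u (f g) * ∏_{f ∈ F \ A} u (f g)`.  Every factor of the second product is `h^m` up to
`m` commutators, so `P ≈ ∏_{f ∈ A} u (f g) * (h^m)^bad`, additional cost `bad * m`.
In the same way `Q ≈ ∏_{f ∈ A'} u f * ∏_{f ∈ F \ A'} u f ≈ ∏_{f ∈ A'} u f * (h^m)^bad`, where for
`A'` the order `A.toList.map (· * g)` is used (this list has no repetition since right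
multiplication is injective, and `#(F \ A') = #F - #A = bad`).  Hence both are close to the same
element.  (If it is more convenient, any other splitting with the same total cost is fine.) -/
theorem TF_mul (F : Finset Γ) (hF : ∀ f ∈ F, f ∈ K) (m : ℕ) {g h : Γ} (hg : g ∈ K) (hh : h ∈ K)
    (bad : ℕ)
    (hbad : open Classical in (F.filter fun f => f * g ∉ F).card ≤ bad) :
    Ap K (3 * F.card + 2 * (m * bad)) (TF F m (g * h)) (TF F m g * TF F m h) := by
  classical
  set u : Γ → Γ := fun f => (f ^ m)⁻¹ * (f * h) ^ m with hu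
  set A := F.filter fun f => f * g ∈ F with hA
  set Bd := F.filter fun f => f * g ∉ F with hBd
  have hbad' : Bd.card ≤ bad := by
    refine le_trans (le_of_eq ?_) hbad
    congr 1
  -- first step
  have s1 : Ap K F.card (TF F m (g * h)) (TF F m g * (F.toList.map fun f => u (f * g)).prod) := by
    have h1 := Ap.list_mul (K := K) F.toList (fun f => (f ^ m)⁻¹ * (f * g) ^ m)
      (fun f => u (f * g)) (fun f hf => FolT_mem (hF f (Finset.mem_toList.1 hf)) hg m)
      (fun f hf => FolT_mem (K.mul_mem (hF f (Finset.mem_toList.1 hf)) hg) hh m)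
    rw [Finset.length_toList] at h1
    have e : (F.toList.map fun f => (f ^ m)⁻¹ * (f * g) ^ m * u (f * g)) =
        F.toList.map fun f => (f ^ m)⁻¹ * (f * (g * h)) ^ m := by
      refine List.map_congr_left fun f _ => ?_
      show (f ^ m)⁻¹ * (f * g) ^ m * (((f * g) ^ m)⁻¹ * (f * g * h) ^ m) = _
      rw [mul_assoc f g h]; group
    rw [e] at h1
    exact h1
  -- the two permutations
  have p1 : F.toList.Perm (A.toList ++ Bd.toList) := by
    rw [List.perm_ext_iff_of_nodup (Finset.nodup_toList _)]
    · intro x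
      rw [List.mem_append, Finset.mem_toList, Finset.mem_toList, Finset.mem_toList, hA, hBd,
        Finset.mem_filter, Finset.mem_filter]
      tauto
    · rw [List.nodup_append']
      refine ⟨Finset.nodup_toList _, Finset.nodup_toList _, ?_⟩
      intro x hx hx'
      rw [Finset.mem_toList, hA, Finset.mem_filter] at hx
      rw [Finset.mem_toList, hBd, Finset.mem_filter] at hx'
      exact hx'.2 hx.2
  set A' := A.image (fun f => f * g) with hA'
  have hA'F : A' ⊆ F := by
    intro x hx
    obtain ⟨f, hf, rfl⟩ := Finset.mem_image.1 hx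
    exact (Finset.mem_filter.1 hf).2
  set R' := F \ A' with hR'
  have hinj : Function.Injective (fun f : Γ => f * g) := mul_left_injective g
  have hcard : R'.card = Bd.card := by
    have h1 : R'.card = F.card - A'.card := Finset.card_sdiff_of_subset hA'F
    have h2 : A'.card = A.card := Finset.card_image_of_injective _ hinj
    have h3 : A.card + Bd.card = F.card := Finset.card_filter_add_card_filter_not _
    omega
  have p2 : F.toList.Perm (A.toList.map (fun f => f * g) ++ R'.toList) := by
    rw [List.perm_ext_iff_of_nodup (Finset.nodup_toList _)]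
    · intro x
      rw [List.mem_append, Finset.mem_toList, Finset.mem_toList, hR', Finset.mem_sdiff, List.mem_map]
      constructor
      · intro hx
        by_cases h1 : x ∈ A'
        · left
          obtain ⟨f, hf, e⟩ := Finset.mem_image.1 h1
          exact ⟨f, Finset.mem_toList.2 hf, e⟩
        · exact Or.inr ⟨hx, h1⟩
      · rintro (⟨f, hf, rfl⟩ | h1)
        · exact (Finset.mem_filter.1 (Finset.mem_toList.1 hf)).2
        · exact h1.1
    · rw [List.nodup_append']
      refine ⟨(Finset.nodup_toList _).map hinj, Finset.nodup_toList _, ?_⟩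
      intro x hx hx'
      rw [List.mem_map] at hx
      rw [Finset.mem_toList, hR', Finset.mem_sdiff] at hx'
      obtain ⟨f, hf, e⟩ := hx
      exact hx'.2 (Finset.mem_image.2 ⟨f, Finset.mem_toList.1 hf, e⟩)
  have q1 := Ap.perm_map (K := K) p1 (fun f => u (f * g))
    (fun f hf => FolT_mem (K.mul_mem (hF f (Finset.mem_toList.1 hf)) hg) hh m)
  have q2 := Ap.perm_map (K := K) p2 u (fun f hf => FolT_mem (hF f (Finset.mem_toList.1 hf)) hh m)
  rw [Finset.length_toList, List.map_append, List.prod_append] at q1 q2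
  have q3 : Ap K (Bd.card * m) ((Bd.toList.map fun f => u (f * g)).prod) ((h ^ m) ^ Bd.card) := by
    have := FolT_list (K := K) Bd.toList m (fun f => u (f * g)) h (fun f hf => by
      have hf' : f ∈ F := (Finset.mem_filter.1 (Finset.mem_toList.1 hf)).1
      exact FolT_close (K.mul_mem (hF f hf') hg) hh m)
    rwa [Finset.length_toList] at this
  have q4 : Ap K (Bd.card * m) ((R'.toList.map u).prod) ((h ^ m) ^ Bd.card) := by
    have := FolT_list (K := K) R'.toList m u h (fun f hf => by
      have hf' : f ∈ F := (Finset.mem_sdiff.1 (Finset.mem_toList.1 hf)).1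
      exact FolT_close (hF f hf') hh m)
    rwa [Finset.length_toList, hcard] at this
  have q5 := q1.trans (q3.mul_left _)
  have q6 := q2.trans (q4.mul_left _)
  have e6 : ((A.toList.map fun f => f * g).map u).prod = (A.toList.map fun f => u (f * g)).prod := by
    rw [List.map_map]; rfl
  rw [e6] at q6
  have q7 := q5.trans q6.symm
  have q8 := s1.trans (q7.mul_left (TF F m g))
  refine q8.mono ?_
  have h9 : Bd.card * m ≤ m * bad := by rw [mul_comm]; exact Nat.mul_le_mul_left _ hbad'
  omega

end Pool.Agent.RB61
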