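import Mathlib
import Pool.Agent.RB61.FolT

set_option autoImplicit false
set_option linter.unusedSectionVars false

/-!
# RB61/FolPw: in an amenable group `(x y)^c = x^c y^c` up to `c / N + C` commutators
-/

namespace Pool.Agent.RB61

open scoped commutatorElement
open Pool.Agent.CW71 Pool.Agent.CB71

variable {Γ : Type*} [Group Γ] {K : Subgroup Γ} [hKn : K.Normal]

open Classical in
/-- Følner condition inside the subgroup `K` (right translations) -/
def Fol (K : Subgroup Γ) : Prop := ∀ (E : Finset Γ) (N : ℕ), (∀ g ∈ E, g ∈ K) →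
  ∃ F : Finset Γ, F.Nonempty ∧ (∀ f ∈ F, f ∈ K) ∧
    ∀ g ∈ E, N * (F.filter fun f => f * g ∉ F).card ≤ F.card

/-- powers of products up to few commutators -/
def Pw (K : Subgroup Γ) : Prop := ∀ x ∈ K, ∀ y ∈ K, ∀ N : ℕ, 0 < N → ∃ C : ℕ, ∀ c : ℕ,
  Ap K (c / N + C) ((x * y) ^ c) (x ^ c * y ^ c)

/-- PROOF.  Induction on `n` with `TF_mul` for `g ^ i * g` (`bad` for `g ^ i`): each step costs
`3 * F.card + 2 * (m * bad)`.  For `n = 0`: `TF F m 1 = 1` exactly (every factor is
`(f^m)⁻¹ (f * 1)^m = 1`). -/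
theorem TF_npow (F : Finset Γ) (hF : ∀ f ∈ F, f ∈ K) (m : ℕ) {g : Γ} (hg : g ∈ K) (bad n : ℕ)
    (hbad : open Classical in ∀ i < n, (F.filter fun f => f * g ^ i ∉ F).card ≤ bad) :
    Ap K (n * (3 * F.card + 2 * (m * bad))) (TF F m (g ^ n)) (TF F m g ^ n) := by
  induction n with
  | zero =>
    rw [pow_zero, pow_zero]
    refine Ap.of_eq _ ?_
    unfold TF
    apply List.prod_eq_one
    intro x hx
    obtain ⟨f, _, rfl⟩ := List.mem_map.1 hx
    rw [mul_one, inv_mul_cancel]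
  | succ n ih =>
    have h1 := TF_mul F hF m (K.pow_mem hg n) hg bad (hbad n (Nat.lt_succ_self n))
    have h2 := (ih fun i hi => hbad i (Nat.lt_succ_of_lt hi)).mul_right (TF F m g)
    rw [pow_succ, pow_succ]
    exact (h1.trans h2).mono (le_of_eq (by ring))

lemma FolPw_TF_mem (F : Finset Γ) (hF : ∀ f ∈ F, f ∈ K) (m : ℕ) {g : Γ} (hg : g ∈ K) :
    TF F m g ∈ K :=
  prod_mem_K _ _ fun f hf => FolT_mem (hF f (Finset.mem_toList.1 hf)) hg m

/-- PROOF.  Let `x, y ∈ K`, `N > 0`, and put `n = 6 N`.  Take `F` from the Følner condition for the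
finite set `E = {x^i, y^i, (x y)^i : i < n} ∪ {x}` and the number `16 N`; let `β` be the maximum of
the numbers `#{f ∈ F | f g ∉ F}`, `g ∈ E`, so `16 N β ≤ |F|`.  For `m : ℕ` put `P = n |F|`.
For each of `g = x, y, x y`:
`g^(m P) = ((g^n)^m)^|F| ≈ TF F m (g^n)` (`TF_pow`, cost `|F| m`) `≈ (TF F m g)^n`
(`TF_npow`, cost `n (3 |F| + 2 m β)`).  Moreover `TF F m (x y) ≈ TF F m x * TF F m y` (`TF_mul`,
cost `3 |F| + 2 m β`), hence `(TF F m (x y))^n ≈ (TF F m x * TF F m y)^n` (`Ap.pow`, cost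
`n (3 |F| + 2 m β)`) `≈ (TF F m x)^n (TF F m y)^n` (`Ap.mul_pow`, cost `n`; `TF` is in `K`).
Altogether `(x y)^(m P) ≈ x^(m P) y^(m P)` with cost
`3 |F| m + 4 n (3 |F| + 2 m β) + n = 3 |F| m + 8 n m β + (12 n |F| + n)`.
Here `N * 3 |F| m = m P / 2` (because `n = 6 N`) and `N * 8 n m β ≤ n m |F| / 2 = m P / 2`, so the
cost is at most `m P / N + (12 n |F| + n)` (natural division: `N * cost ≤ m P + N * (12 n |F| + n)`).
For general `c` write `c = m P + r`, `m = c / P`, `r = c % P < P`: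
`(x y)^c = (x y)^(m P) (x y)^r`, `(x y)^r ≈ x^r y^r` (cost `r`),
`x^(mP) y^(mP) x^r y^r ≈ x^(mP) x^r y^(mP) y^r` (cost `1`, `Ap.comm`).  So
`C = 12 n |F| + n + P + 1` works. -/
theorem Pw_of_Fol (h : Fol K) : Pw K := by
  classical
  intro x hx y hy N hN
  set n := 6 * N with hn
  set E : Finset Γ := (Finset.range n).image (fun i => x ^ i) ∪
    ((Finset.range n).image (fun i => y ^ i) ∪ ((Finset.range n).image (fun i => (x * y) ^ i) ∪
      {x})) with hE
  have hxy : x * y ∈ K := K.mul_mem hx hy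
  obtain ⟨F, hFne, hF, hFE⟩ := h E (16 * N) (by
    intro g hg
    rw [hE, Finset.mem_union, Finset.mem_union, Finset.mem_union] at hg
    rcases hg with hg | hg | hg | hg
    · obtain ⟨i, _, rfl⟩ := Finset.mem_image.1 hg; exact K.pow_mem hx i
    · obtain ⟨i, _, rfl⟩ := Finset.mem_image.1 hg; exact K.pow_mem hy i
    · obtain ⟨i, _, rfl⟩ := Finset.mem_image.1 hg; exact K.pow_mem hxy i
    · rw [Finset.mem_singleton] at hg; rw [hg]; exact hx)
  set φ := F.card with hφ
  have hφ0 : 0 < φ := Finset.card_pos.2 hFne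
  set β := φ / (16 * N) with hβ
  have hbad : ∀ g ∈ E, (F.filter fun f => f * g ∉ F).card ≤ β := by
    intro g hg
    rw [hβ, Nat.le_div_iff_mul_le (by omega), mul_comm]
    exact hFE g hg
  have hβ' : 16 * N * β ≤ φ := Nat.mul_div_le _ _
  have bx : ∀ i < n, (F.filter fun f => f * x ^ i ∉ F).card ≤ β := fun i hi => hbad _ (by
    rw [hE, Finset.mem_union]
    exact Or.inl (Finset.mem_image.2 ⟨i, Finset.mem_range.2 hi, rfl⟩))
  have by' : ∀ i < n, (F.filter fun f => f * y ^ i ∉ F).card ≤ β := fun i hi => hbad _ (by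
    rw [hE, Finset.mem_union, Finset.mem_union]
    exact Or.inr (Or.inl (Finset.mem_image.2 ⟨i, Finset.mem_range.2 hi, rfl⟩)))
  have bxy : ∀ i < n, (F.filter fun f => f * (x * y) ^ i ∉ F).card ≤ β := fun i hi => hbad _ (by
    rw [hE, Finset.mem_union, Finset.mem_union, Finset.mem_union]
    exact Or.inr (Or.inr (Or.inl (Finset.mem_image.2 ⟨i, Finset.mem_range.2 hi, rfl⟩))))
  have bx1 : (F.filter fun f => f * x ∉ F).card ≤ β := hbad _ (by
    rw [hE, Finset.mem_union, Finset.mem_union, Finset.mem_union, Finset.mem_singleton]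
    exact Or.inr (Or.inr (Or.inr rfl)))
  set P := n * φ with hP
  have hP0 : 0 < P := Nat.mul_pos (by omega) hφ0
  -- one element
  have one : ∀ (g : Γ), g ∈ K → (∀ i < n, (F.filter fun f => f * g ^ i ∉ F).card ≤ β) → ∀ m : ℕ,
      Ap K (φ * m + n * (3 * φ + 2 * (m * β))) (g ^ (m * P)) (TF F m g ^ n) := by
    intro g hg hb m
    have h1 := (TF_pow F hF m (K.pow_mem hg n)).symm
    have h2 := TF_npow F hF m hg β n hb
    have e : ((g ^ n) ^ m) ^ F.card = g ^ (m * P) := by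
      rw [← pow_mul, ← pow_mul, hP]
      congr 1
      ring
    rw [e] at h1
    exact h1.trans h2
  have two : ∀ m : ℕ, Ap K (3 * φ * m + 8 * n * m * β + (12 * n * φ + n))
      ((x * y) ^ (m * P)) (x ^ (m * P) * y ^ (m * P)) := by
    intro m
    have h1 := one (x * y) hxy bxy m
    have h2 := (TF_mul F hF m hx hy β bx1).pow n
    have h3 := Ap.mul_pow (K := K) (FolPw_TF_mem F hF m hx) (FolPw_TF_mem F hF m hy) n
    have h4 := (one x hx bx m).mul (one y hy by' m)
    refine (((h1.trans h2).trans h3).trans h4.symm).mono (le_of_eq ?_)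
    rw [← hφ]
    ring
  refine ⟨12 * n * φ + n + P + 1, fun c => ?_⟩
  set m := c / P with hm
  set r := c % P with hr
  have hc : c = m * P + r := by rw [hm, hr, mul_comm]; exact (Nat.div_add_mod c P).symm
  have hrP : r < P := Nat.mod_lt _ hP0
  have h1 := (two m).mul (Ap.mul_pow (K := K) hx hy r)
  have h2 : Ap K 1 (y ^ (m * P) * x ^ r) (x ^ r * y ^ (m * P)) :=
    Ap.comm (K.pow_mem hy _) (K.pow_mem hx _)
  have h3 := (h2.mul_left (x ^ (m * P))).mul_right (y ^ r)
  have e1 : x ^ (m * P) * (y ^ (m * P) * x ^ r) * y ^ r =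
      x ^ (m * P) * y ^ (m * P) * (x ^ r * y ^ r) := by group
  have e2 : x ^ (m * P) * (x ^ r * y ^ (m * P)) * y ^ r = x ^ c * y ^ c := by
    rw [hc, pow_add, pow_add]; group
  rw [e1, e2] at h3
  have h4 := h1.trans h3
  have e3 : (x * y) ^ (m * P) * (x * y) ^ r = (x * y) ^ c := by rw [hc, pow_add]
  rw [e3] at h4
  refine h4.mono ?_
  -- the cost
  have k1 : 2 * N * (3 * φ * m) ≤ m * P := by
    rw [hP, hn]
    apply le_of_eq
    ring
  have k2 : 2 * N * (8 * n * m * β) ≤ m * P := by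
    calc 2 * N * (8 * n * m * β) = n * m * (16 * N * β) := by ring
      _ ≤ n * m * φ := Nat.mul_le_mul_left _ hβ'
      _ = m * P := by rw [hP]; ring
  have k3 : N * (3 * φ * m + 8 * n * m * β) ≤ m * P := by
    have : 2 * (N * (3 * φ * m + 8 * n * m * β)) ≤ 2 * (m * P) := by
      calc 2 * (N * (3 * φ * m + 8 * n * m * β)) =
          2 * N * (3 * φ * m) + 2 * N * (8 * n * m * β) := by ring
        _ ≤ m * P + m * P := Nat.add_le_add k1 k2
        _ = 2 * (m * P) := by ring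
    omega
  have k4 : 3 * φ * m + 8 * n * m * β ≤ c / N := by
    rw [Nat.le_div_iff_mul_le hN, mul_comm]
    omega
  omega

end Pool.Agent.RB61
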