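import Mathlib
import Pool.Agent.RB61.FolPw

set_option autoImplicit false
set_option linter.unusedSectionVars false

/-!
# RB61/FolSub: amenability (Følner condition), subexponential growth, subgroups
-/

namespace Pool.Agent.RB61

open Classical in
/-- `Γ` satisfies the Følner condition (amenability): for every finite subset `E` and every
`ε > 0` there is a nonempty finite subset `F` such that for all `g ∈ E` at most `ε |F|` elements
`f` of `F` have `f g ∉ F`. -/
def FolnerAmenable (Γ : Type*) [Group Γ] : Prop := ∀ (E : Finset Γ) (ε : ℝ), 0 < ε →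
  ∃ F : Finset Γ, F.Nonempty ∧ ∀ g ∈ E, ((F.filter fun f => f * g ∉ F).card : ℝ) ≤ ε * F.card

/-- `Γ` is generated by a finite set for which the number of the elements which are products of at
most `n` generators and inverses of generators is eventually below `r ^ n`, for every `r > 1`. -/
def SubexponentialGrowth (Γ : Type*) [Group Γ] : Prop := ∃ S : Finset Γ,
  Subgroup.closure (S : Set Γ) = ⊤ ∧ ∀ r : ℝ, 1 < r → ∃ N : ℕ, ∀ n : ℕ, N ≤ n →
    ((Set.ncard {g : Γ | ∃ l : List Γ, l.length ≤ n ∧ (∀ x ∈ l, x ∈ S ∨ x⁻¹ ∈ S) ∧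
      l.prod = g} : ℕ) : ℝ) ≤ r ^ n

variable {Γ : Type*} [Group Γ]

/-- PROOF.  Let `E ⊆ K` be finite and `N : ℕ`.  Take `F` for `E` and `ε = 1 / (N * |E| + 1)`
(so that `Σ_{g ∈ E} #{f ∈ F | f g ∉ F} ≤ |E| ε |F|` and `N |E| ε ≤ 1`).  Decompose `F` into the
classes of `f ↦ (QuotientGroup.mk f : Γ ⧸ K)` (left cosets `c K`; right multiplication by `g ∈ K`
preserves them): `|F| = Σ_q |F_q|` and `#{f ∈ F | f g ∉ F} = Σ_q #{f ∈ F_q | f g ∉ F}`, sums over
the image of `F` in `Γ ⧸ K`.  If for every `q` in the image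
`N * Σ_{g ∈ E} #{f ∈ F_q | f g ∉ F} > |F_q|`, summation over `q` (nonempty) would give
`N * Σ_g #{f ∈ F | f g ∉ F} > |F|`, a contradiction.  So there is `q` with
`N * #{f ∈ F_q | f g ∉ F} ≤ |F_q|` for all `g ∈ E`; for `f ∈ F_q` and `g ∈ K` we have
`f g ∉ F ↔ f g ∉ F_q`.  Choose `c ∈ F_q` and take `F' = c⁻¹ F_q ⊆ K` (`Finset.image (c⁻¹ * ·)`):
`f' g ∉ F' ↔ (c f') g ∉ F_q`. -/
theorem fol_of_folner (h : FolnerAmenable Γ) (K : Subgroup Γ) : Fol K := by
  classical
  intro E N hE
  have hε : (0 : ℝ) < 1 / ((N : ℝ) * E.card + 1) := by positivity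
  obtain ⟨F, hFne, hF⟩ := h E (1 / ((N : ℝ) * E.card + 1)) hε
  obtain ⟨π, hπ⟩ : ∃ π : Γ → Γ ⧸ K, π = QuotientGroup.mk := ⟨_, rfl⟩
  have hπe : ∀ a b : Γ, π a = π b ↔ a⁻¹ * b ∈ K := by
    intro a b
    rw [hπ]
    exact QuotientGroup.eq
  have hex : ∃ q ∈ F.image π, N * ∑ g ∈ E, ((F.filter fun f => f * g ∉ F).filter
      (fun f => π f = q)).card ≤ (F.filter (fun f => π f = q)).card := by
    by_contra hcon
    push Not at hcon
    have h1 : ∑ q ∈ F.image π, (F.filter (fun f => π f = q)).card <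
        ∑ q ∈ F.image π, N * ∑ g ∈ E, ((F.filter fun f => f * g ∉ F).filter
          (fun f => π f = q)).card :=
      Finset.sum_lt_sum_of_nonempty (hFne.image π) hcon
    rw [← Finset.card_eq_sum_card_image, ← Finset.mul_sum, Finset.sum_comm] at h1
    have h2 : ∀ g ∈ E, ∑ q ∈ F.image π, ((F.filter fun f => f * g ∉ F).filter
        (fun f => π f = q)).card = (F.filter fun f => f * g ∉ F).card := by
      intro g _
      symm
      apply Finset.card_eq_sum_card_fiberwise
      intro f hf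
      exact Finset.mem_image_of_mem π (Finset.mem_filter.1 hf).1
    rw [Finset.sum_congr rfl h2] at h1
    have h3 : (F.card : ℝ) < (N : ℝ) * ∑ g ∈ E, ((F.filter fun f => f * g ∉ F).card : ℝ) := by
      exact_mod_cast h1
    have h4 : ∑ g ∈ E, ((F.filter fun f => f * g ∉ F).card : ℝ) ≤
        ∑ _g ∈ E, 1 / ((N : ℝ) * E.card + 1) * F.card := Finset.sum_le_sum hF
    rw [Finset.sum_const, nsmul_eq_mul] at h4
    have h5 : (N : ℝ) * ((E.card : ℝ) * (1 / ((N : ℝ) * E.card + 1) * F.card)) ≤ F.card := by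
      have h6 : (N : ℝ) * ((E.card : ℝ) * (1 / ((N : ℝ) * E.card + 1) * F.card)) =
          ((N : ℝ) * E.card) / ((N : ℝ) * E.card + 1) * F.card := by ring
      rw [h6]
      have h7 : ((N : ℝ) * E.card) / ((N : ℝ) * E.card + 1) ≤ 1 := by
        rw [div_le_one (by positivity)]
        linarith
      have h8 := mul_le_mul_of_nonneg_right h7 (Nat.cast_nonneg (α := ℝ) F.card)
      rwa [one_mul] at h8
    have h9 := mul_le_mul_of_nonneg_left h4 (Nat.cast_nonneg (α := ℝ) N)
    linarith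
  obtain ⟨q, hq, hqle⟩ := hex
  obtain ⟨c, hcF, hcq⟩ := Finset.mem_image.1 hq
  have hinj : Function.Injective (fun f : Γ => c⁻¹ * f) := mul_right_injective c⁻¹
  refine ⟨(F.filter (fun f => π f = q)).image (fun f => c⁻¹ * f), ?_, ?_, ?_⟩
  · exact Finset.Nonempty.image ⟨c, Finset.mem_filter.2 ⟨hcF, hcq⟩⟩ _
  · intro f' hf'
    obtain ⟨f, hf, rfl⟩ := Finset.mem_image.1 hf'
    have h1 : π c = π f := hcq.trans (Finset.mem_filter.1 hf).2.symm
    exact (hπe c f).1 h1
  · intro g hg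
    rw [Finset.card_image_of_injective _ hinj]
    refine le_trans (Nat.mul_le_mul_left N ?_) hqle
    refine le_trans ?_ (Finset.single_le_sum (f := fun g => ((F.filter fun f => f * g ∉ F).filter
          (fun f => π f = q)).card) (fun _ _ => Nat.zero_le _) hg)
    refine le_trans (Finset.card_le_card (t := ((F.filter fun f => f * g ∉ F).filter
          (fun f => π f = q)).image (fun f => c⁻¹ * f)) ?_) Finset.card_image_le
    intro f' hf'
    obtain ⟨h1, h2⟩ := Finset.mem_filter.1 hf'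
    obtain ⟨f, hf, rfl⟩ := Finset.mem_image.1 h1
    obtain ⟨hfF, hfq⟩ := Finset.mem_filter.1 hf
    refine Finset.mem_image_of_mem _ (Finset.mem_filter.2 ⟨Finset.mem_filter.2 ⟨hfF, ?_⟩, hfq⟩)
    intro h3
    apply h2
    refine Finset.mem_image.2 ⟨f * g, Finset.mem_filter.2 ⟨h3, ?_⟩, ?_⟩
    · rw [← hfq]
      apply (hπe _ _).2
      have h4 : (f * g)⁻¹ * f = g⁻¹ := by group
      rw [h4]
      exact K.inv_mem (hE g hg)
    · show c⁻¹ * (f * g) = c⁻¹ * f * g
      rw [mul_assoc]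

end Pool.Agent.RB61
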