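import Mathlib
import Pool.Agent.RB61.FolSub

set_option autoImplicit false
set_option linter.unusedSectionVars false

/-!
# RB61/FolGr: subexponential growth implies the Følner condition in all subgroups
-/

namespace Pool.Agent.RB61

variable {Γ : Type*} [Group Γ]

private def Ball (S : Finset Γ) (n : ℕ) : Set Γ :=
  {g : Γ | ∃ l : List Γ, l.length ≤ n ∧ (∀ x ∈ l, x ∈ S ∨ x⁻¹ ∈ S) ∧ l.prod = g}

private theorem ball_finite (S : Finset Γ) (n : ℕ) : (Ball S n).Finite := by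
  classical
  have hT : {x : Γ | x ∈ S ∨ x⁻¹ ∈ S}.Finite := by
    refine (S.finite_toSet.union S.finite_toSet.inv).subset ?_
    rintro x (hx | hx)
    · exact Or.inl hx
    · exact Or.inr (Set.mem_inv.2 hx)
  have hTf : Finite {x : Γ // x ∈ S ∨ x⁻¹ ∈ S} := hT
  have h1 := (List.finite_length_le {x : Γ // x ∈ S ∨ x⁻¹ ∈ S} n).image
    (fun l => (l.map Subtype.val).prod)
  refine h1.subset ?_
  rintro g ⟨l, hl, hS, rfl⟩
  lift l to List {x : Γ // x ∈ S ∨ x⁻¹ ∈ S} using hS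
  exact ⟨l, by simpa using hl, rfl⟩

private theorem ball_mul {S : Finset Γ} {n m : ℕ} {g h : Γ} (hg : g ∈ Ball S n)
    (hh : h ∈ Ball S m) : g * h ∈ Ball S (n + m) := by
  obtain ⟨l, hl, hS, rfl⟩ := hg
  obtain ⟨l', hl', hS', rfl⟩ := hh
  refine ⟨l ++ l', by rw [List.length_append]; omega, ?_, List.prod_append⟩
  intro x hx
  rcases List.mem_append.1 hx with h | h
  · exact hS x h
  · exact hS' x h

private theorem ball_mono {S : Finset Γ} {n m : ℕ} (h : n ≤ m) : Ball S n ⊆ Ball S m := by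
  rintro g ⟨l, hl, hS, rfl⟩
  exact ⟨l, hl.trans h, hS, rfl⟩

private theorem one_mem_ball (S : Finset Γ) (n : ℕ) : (1 : Γ) ∈ Ball S n :=
  ⟨[], Nat.zero_le _, by simp, by simp⟩

/-- PROOF.  Let `B n` be the ball `{g | ∃ l, l.length ≤ n ∧ (∀ x ∈ l, x ∈ S ∨ x⁻¹ ∈ S) ∧
l.prod = g}`: a finite set (image of the finite set of the lists of length `≤ n` over the finite
set `S ∪ S⁻¹`), `B n * B m ⊆ B (n + m)`, and every `g` lies in some `B ℓ` (closure induction).
Given a finite `E ⊆ K` and `N`, choose `ℓ ≥ 1` with `E ⊆ B ℓ` and put `a n = |B n ∩ K| ≥ 1`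
(`1 ∈ B n ∩ K`).  Claim: there is `j` with `N * (a (ℓ (j+1)) - a (ℓ j)) ≤ a (ℓ j)`.  Otherwise
(`N ≥ 1`) `a (ℓ (j+1)) > (1 + 1/N) a (ℓ j)` for all `j`, so `a (ℓ j) ≥ (1 + 1/N)^j`, contradicting
`a (ℓ j) ≤ |B (ℓ j)| ≤ r^(ℓ j)` eventually, for `r > 1` with `r^ℓ < 1 + 1/N` (for example
`r = 1 + 1/(N ℓ 2^ℓ)`, or `r = (1 + 1/(2N))^(1/ℓ)` with `Real.rpow`; note
`(r^ℓ)^j < (1+1/N)^j` already for `j ≥ 1`).  For this `j` take
`F = B (ℓ j) ∩ K` (as a `Finset`, `Set.Finite.toFinset`).  For `g ∈ E` the map `f ↦ f g` injects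
`{f ∈ F | f g ∉ F}` into `(B (ℓ (j+1)) ∩ K) \ F`. -/
theorem fol_of_subexp (h : SubexponentialGrowth Γ) (K : Subgroup Γ) : Fol K := by
  classical
  obtain ⟨S, hS, hgr⟩ := h
  intro E N hE
  have hex : ∀ g : Γ, ∃ n, g ∈ Ball S n := by
    intro g
    have hg : g ∈ Subgroup.closure (S : Set Γ) := by rw [hS]; exact Subgroup.mem_top g
    rw [← Subgroup.mem_toSubmonoid, Subgroup.closure_toSubmonoid] at hg
    obtain ⟨l, hl, hlp⟩ := Submonoid.exists_list_of_mem_closure hg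
    refine ⟨l.length, l, le_rfl, fun x hx => ?_, hlp⟩
    rcases hl x hx with h | h
    · exact Or.inl h
    · exact Or.inr (Set.mem_inv.1 h)
  choose L hL using hex
  set ℓ := E.sup L + 1 with hℓ
  have hEℓ : ∀ g ∈ E, g ∈ Ball S ℓ := fun g hg =>
    ball_mono ((Finset.le_sup hg).trans (Nat.le_succ _)) (hL g)
  have hfin : ∀ n, (Ball S n ∩ (K : Set Γ)).Finite := fun n =>
    (ball_finite S n).subset Set.inter_subset_left
  set a : ℕ → ℕ := fun n => (Ball S n ∩ (K : Set Γ)).ncard with ha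
  have ha1 : ∀ n, 1 ≤ a n := by
    intro n
    exact (Set.ncard_pos (hfin n)).2 ⟨1, one_mem_ball S n, K.one_mem⟩
  have hclaim : ∃ j, N * a (ℓ * (j + 1)) ≤ (N + 1) * a (ℓ * j) := by
    by_contra hcon
    push Not at hcon
    have hN : 0 < N := by
      rcases Nat.eq_zero_or_pos N with h0 | h0
      · have := hcon 0
        rw [h0] at this
        omega
      · exact h0
    have hNR : (0 : ℝ) < N := by exact_mod_cast hN
    set q : ℝ := 1 + 1 / (N : ℝ) with hq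
    have hq1 : 1 < q := by
      rw [hq]
      have : 0 < 1 / (N : ℝ) := by positivity
      linarith
    have hstep : ∀ j, q ^ j ≤ (a (ℓ * j) : ℝ) := by
      intro j
      induction j with
      | zero =>
        rw [pow_zero]
        exact_mod_cast ha1 _
      | succ j ih =>
        have h1 : ((N : ℝ) + 1) * (a (ℓ * j) : ℝ) < (N : ℝ) * (a (ℓ * (j + 1)) : ℝ) := by
          exact_mod_cast hcon j
        have h2 : q * (a (ℓ * j) : ℝ) ≤ (a (ℓ * (j + 1)) : ℝ) := by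
          have h3 : (N : ℝ) * (q * (a (ℓ * j) : ℝ)) = ((N : ℝ) + 1) * (a (ℓ * j) : ℝ) := by
            rw [hq]
            field_simp
          have h4 : (N : ℝ) * (q * (a (ℓ * j) : ℝ)) ≤ (N : ℝ) * (a (ℓ * (j + 1)) : ℝ) := by
            rw [h3]
            exact h1.le
          exact le_of_mul_le_mul_left h4 hNR
        calc q ^ (j + 1) = q * q ^ j := by ring
          _ ≤ q * (a (ℓ * j) : ℝ) := mul_le_mul_of_nonneg_left ih (by linarith)
          _ ≤ _ := h2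
    have hℓ1 : (0 : ℝ) < (ℓ : ℝ) + 1 := by positivity
    set r : ℝ := q ^ (1 / ((ℓ : ℝ) + 1)) with hr
    have hr1 : 1 < r := by
      rw [hr]
      exact Real.one_lt_rpow hq1 (by positivity)
    have hrℓ : r ^ ℓ < q := by
      have h1 : r ^ (ℓ + 1) = q := by
        rw [hr, ← Real.rpow_natCast, ← Real.rpow_mul (by linarith)]
        push_cast
        rw [one_div, inv_mul_cancel₀ hℓ1.ne', Real.rpow_one]
      rw [← h1]
      exact pow_lt_pow_right₀ hr1 (Nat.lt_succ_self _)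
    obtain ⟨N₀, hN₀⟩ := hgr r hr1
    have h1 := hN₀ (ℓ * (N₀ + 1)) (by
      have : 1 ≤ ℓ := by omega
      nlinarith)
    have h2 := hstep (N₀ + 1)
    have h3 : (a (ℓ * (N₀ + 1)) : ℝ) ≤ ((Ball S (ℓ * (N₀ + 1))).ncard : ℝ) := by
      exact_mod_cast Set.ncard_le_ncard Set.inter_subset_left (ball_finite S _)
    have h4 : r ^ (ℓ * (N₀ + 1)) < q ^ (N₀ + 1) := by
      rw [pow_mul]
      exact pow_lt_pow_left₀ hrℓ (by positivity) (Nat.succ_ne_zero _)
    have h5 : ((Ball S (ℓ * (N₀ + 1))).ncard : ℝ) ≤ r ^ (ℓ * (N₀ + 1)) := h1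
    linarith
  obtain ⟨j, hj⟩ := hclaim
  have hmemF : ∀ x, x ∈ (hfin (ℓ * j)).toFinset ↔ x ∈ Ball S (ℓ * j) ∧ x ∈ K := by
    intro x
    rw [Set.Finite.mem_toFinset]
    rfl
  have hcardF : (hfin (ℓ * j)).toFinset.card = a (ℓ * j) :=
    (Set.ncard_eq_toFinset_card _ (hfin (ℓ * j))).symm
  refine ⟨(hfin (ℓ * j)).toFinset, ⟨1, (hmemF 1).2 ⟨one_mem_ball S _, K.one_mem⟩⟩,
    fun f hf => ((hmemF f).1 hf).2, fun g hg => ?_⟩
  have h1 : ((hfin (ℓ * j)).toFinset.filter fun f => f * g ∉ (hfin (ℓ * j)).toFinset).card ≤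
      ((hfin (ℓ * (j + 1))).toFinset \ (hfin (ℓ * j)).toFinset).card := by
    refine Finset.card_le_card_of_injOn (fun f => f * g) ?_ (fun x _ y _ hxy => mul_right_cancel hxy)
    intro f hf
    have hf1 := Finset.mem_filter.1 (Finset.mem_coe.1 hf)
    have hf2 := (hmemF f).1 hf1.1
    refine Finset.mem_coe.2 (Finset.mem_sdiff.2 ⟨?_, hf1.2⟩)
    rw [Set.Finite.mem_toFinset]
    refine ⟨?_, K.mul_mem hf2.2 (hE g hg)⟩
    have h3 := ball_mul hf2.1 (hEℓ g hg)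
    rwa [← Nat.mul_succ] at h3
  have hsub : (hfin (ℓ * j)).toFinset ⊆ (hfin (ℓ * (j + 1))).toFinset := by
    intro x hx
    rw [hmemF] at hx
    rw [Set.Finite.mem_toFinset]
    exact ⟨ball_mono (Nat.mul_le_mul_left _ (Nat.le_succ _)) hx.1, hx.2⟩
  have h2 : ((hfin (ℓ * (j + 1))).toFinset \ (hfin (ℓ * j)).toFinset).card =
      a (ℓ * (j + 1)) - a (ℓ * j) := by
    rw [Finset.card_sdiff_of_subset hsub, hcardF]
    congr 1
    exact (Set.ncard_eq_toFinset_card _ (hfin (ℓ * (j + 1)))).symm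
  rw [h2] at h1
  have hmono : a (ℓ * j) ≤ a (ℓ * (j + 1)) := by
    have := Finset.card_le_card hsub
    rw [hcardF] at this
    exact this.trans (Set.ncard_eq_toFinset_card _ (hfin (ℓ * (j + 1)))).ge
  rw [hcardF]
  calc N * _ ≤ N * (a (ℓ * (j + 1)) - a (ℓ * j)) := Nat.mul_le_mul_left _ h1
    _ = N * a (ℓ * (j + 1)) - N * a (ℓ * j) := Nat.mul_sub _ _ _
    _ ≤ (N + 1) * a (ℓ * j) - N * a (ℓ * j) := Nat.sub_le_sub_right hj _
    _ = a (ℓ * j) := by
      rw [Nat.add_mul, one_mul, Nat.add_sub_cancel_left]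

end Pool.Agent.RB61
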