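import Mathlib
import Pool.Agent.RB61.Lev
import Pool.Agent.CB71.GM

set_option autoImplicit false
set_option linter.unusedSectionVars false

/-!
# RB61/Half: the recursion on the level

`Pn D n W`: for all `H` containing `K` every element of `[H, K]` is, modulo `[H, PG K n]`, in
`R K (D.Sg H) W`.  The proof of `half_step` follows `lem2` in `Pool.Agent.CB71.GM` (merging at the
representatives of the orbits of level `m`, splitting into halves), but it is shorter.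
-/

namespace Pool.Agent.RB61

open scoped commutatorElement
open Pool.Agent.CW71 Pool.Agent.CB71

variable {X : Type} {G : Subgroup (Tr X)} {K : Subgroup G} [hKn : K.Normal]

/-- every element of `[H, K]` is in `R K (D.Sg H) W` modulo `[H, PG K n]` -/
def Pn (D : Dt G K) (n W : ℕ) : Prop := ∀ H : Subgroup G, K ≤ H → ∀ x ∈ ⁅H, K⁆,
  ∃ z ∈ R K (D.Sg H) W, z⁻¹ * x ∈ ⁅H, PG K n⁆

/-- PROOF.  By `uniform D.fin` (CB71/GM) it suffices to find `C` for one `H` with `K ≤ H`.  Let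
`S = D.Sg H`, `hS = D.gen H hKH`, `l` the list of all words of length `m` (as in `lem2`), `a` from
`exists_mover H`, `s v = sec (a v) v`.  Constants: `C₁` from `trans_level D.br D.fin hKH hS m`;
`C₂` from `liftR D.br hS (fun v => D.Sg (secG D.br.self H v)) _ m` (CB71/GR); `C₃` from
`moveAll D.br hS a ha hav l` (CB71/GC).  Let `x ∈ ⁅H, K⁆`.
(a) `x = z₁ x₁`, `z₁ ∈ R K S C₁`, `x₁ ∈ ⁅H, PG K m⁆`.
(b) `comm_PG`: `x₁ = z₂ x₂`, `z₂ ∈ R K S 0`, `InsG m k x₂`, `k v ∈ CK K M`, so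
`k v ∈ ⁅K, K⁆` (`CK_comm le_rfl`).
(c) `moveAll` with `κ v = s v * k v * (s v)⁻¹`, `h = k`: `x₂ = g' * w`, `w ∈ R K S C₃`,
`InsG m h' g'`, `h' v = 1` for the words `v` of length `m` with `rtG H v ≠ v`, and
`h' r = k r * ((orbL H l r).map κ).prod ∈ ⁅K, K⁆` for `rtG H r = r` (`⁅K, K⁆` is normal:
`Subgroup.commutator_normal`).
(d) For a representative `r` of length `m`: `h' r ∈ ⁅secG H r, K⁆` (`K_le_secG`,
`Subgroup.commutator_mono`), so the hypothesis `Pn D n (W + W)` gives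
`h' r = z r * y r`, `z r ∈ R K (D.Sg (secG H r)) (W + W)`, `y r ∈ ⁅secG H r, PG K n⁆`; by `R_split`
and `CK_split` `z r = z₀ r * (κ₁ r * κ₂ r)` with `z₀ r ∈ R K _ 0`, `κ₁ r, κ₂ r ∈ CK K W`.  For all
other words put `z₀ = κ₁ = κ₂ = y = 1`.  So `g' = g₁ * g₂` (`insG_unique`) where `g₁ ∈ K` is
inserted with `h v = z₀ v * (κ₁ v * κ₂ v)` and `g₂ ∈ K` is inserted with `y`; `g₂ ∈
⁅H, PG K (m + n)⁆` by `ins_comm_PG`.
(e) `splitAll D.br hKH b hb hbv κ₂ _ h g₁ ..` (CB71/GM; `b v ∈ K` moves the word `v` of length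
`m`, from `hm`) : `g₁ = g₃ * c`, `c ∈ CK K l.length`, `InsG m q g₃`, `q r = h r * (κ₂ r)⁻¹ =
z₀ r * κ₁ r ∈ R K (D.Sg (secG H r)) W` for the representatives and `q v ∈ CK K W` for the other
words; so `g₃ ∈ R K S (C₂ + W)` by the choice of `C₂`.
(f) `x = (z₁ * z₂ * g₃ * c * w) * (w⁻¹ * g₂ * w)`; the first factor is in
`R K S (C₁ + C₂ + C₃ + l.length + 3 * (S.length * S.length) + W)` (`R_mul`, `R_mul_CK`), the second
in `⁅H, PG K (m + n)⁆` (`conj_comm_mem`, `w ∈ K ≤ H` by `R_sub`; `PG_normal` instance). -/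
theorem half_step [Finite X] [Nonempty X] (D : Dt G K) (m : ℕ)
    (hm : ∀ v : List X, v.length = m → ∃ b ∈ K, b • v ≠ v) :
    ∃ C, ∀ n W, Pn D n (W + W) → Pn D (m + n) (C + W) := by
  classical
  have hG := D.br.self
  have fW : {l : List X | l.length = m}.Finite := List.finite_length_eq X m
  set l : List (List X) := fW.toFinset.toList with hl
  have hlm : ∀ v, v ∈ l ↔ v.length = m := by
    intro v
    rw [hl, Finset.mem_toList, Set.Finite.mem_toFinset]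
    exact Iff.rfl
  have hlnd : l.Nodup := Finset.nodup_toList _
  have hb : ∀ v : List X, ∃ b ∈ K, v.length = m → b • v ≠ v := by
    intro v
    by_cases hv : v.length = m
    · obtain ⟨b, hb, h⟩ := hm v hv
      exact ⟨b, hb, fun _ => h⟩
    · exact ⟨1, K.one_mem, fun h => absurd h hv⟩
  choose b hbK hbv using hb
  have key : ∀ H : Subgroup G, K ≤ H → ∃ C, ∀ n W, Pn D n (W + W) → ∀ x ∈ ⁅H, K⁆,
      ∃ z ∈ R K (D.Sg H) (C + W), z⁻¹ * x ∈ ⁅H, PG K (m + n)⁆ := by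
    intro H hKH
    have hle : ∀ v, K ≤ secG D.br.self H v := fun v => K_le_secG D.br hKH v
    have hS := D.gen H hKH
    set S := D.Sg H with hSdef
    obtain ⟨C₁, h1⟩ := trans_level D.br D.fin hKH hS m
    obtain ⟨C₂, h2⟩ := liftR D.br hS (fun v => D.Sg (secG D.br.self H v))
      (fun v => (D.gen _ (hle v)).sub) m
    obtain ⟨a, ha, hav, har⟩ := exists_mover (X := X) H
    set s : List X → G := fun v => sec D.br.self (a v) v with hs
    obtain ⟨C₃, h3⟩ := moveAll D.br hS a ha hav l (fun v hv => (hlm v).1 hv) hlnd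
    set σ := S.length * S.length with hσ
    refine ⟨C₁ + C₂ + C₃ + l.length + 3 * σ, fun n W hW x hx => ?_⟩
    have hPn : (PG K (m + n)).Normal := PG_normal D.br.self (m + n)
    -- (a)
    obtain ⟨z₁, hz₁, hx₁⟩ := h1 x hx
    -- (b)
    obtain ⟨z₂, hz₂, M, k, hk, hki⟩ := comm_PG D.br hS hx₁
    set x₂ := z₂⁻¹ * (z₁⁻¹ * x) with hx₂
    have hkK : ∀ v, k v ∈ K := fun v => CK_sub (hk v)
    have hkKK : ∀ v, k v ∈ ⁅K, K⁆ := fun v => CK_comm le_rfl (hk v)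
    have hx₂K : x₂ ∈ K := K.mul_mem (K.inv_mem (R_sub hz₂))
      (K.mul_mem (K.inv_mem (R_sub hz₁)) (comm_le_self H hx))
    -- (c)
    obtain ⟨h', g', hg', w, hw, e', hi', hh', p1, p2, p3⟩ :=
      h3 (fun v => s v * k v * (s v)⁻¹) k x₂ (fun v => hKn.conj_mem _ (hkK v) _) hkK hx₂K hki
    have p1' : ∀ v : List X, v.length = m → rtG H v ≠ v → h' v = 1 := by
      intro v hv hr
      rw [p1 v hr ((hlm v).2 hv)]
      show k v * ((s v)⁻¹ * (s v * k v * (s v)⁻¹) * s v)⁻¹ = 1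
      group
    have hKKn : (⁅K, K⁆ : Subgroup G).Normal := Subgroup.commutator_normal K K
    have hroot : ∀ r : List X, rtG H r = r → h' r ∈ ⁅secG D.br.self H r, K⁆ := by
      intro r hrr
      have hmono : (⁅K, K⁆ : Subgroup G) ≤ ⁅secG D.br.self H r, K⁆ :=
        Subgroup.commutator_mono (hle r) le_rfl
      apply hmono
      rw [p3 r hrr]
      refine Subgroup.mul_mem _ (hkKK r) ?_
      refine Subgroup.list_prod_mem _ fun y hy => ?_
      obtain ⟨v, _, rfl⟩ := List.mem_map.1 hy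
      exact hKKn.conj_mem _ (hkKK v) _
    -- (d)
    have hsp : ∀ r : List X, ∃ z₀ κ₁ κ₂ y₀ : G, κ₁ ∈ CK K W ∧ κ₂ ∈ CK K W ∧ z₀ ∈ K ∧ y₀ ∈ K ∧
        y₀ ∈ ⁅secG D.br.self H r, PG K n⁆ ∧
        (r.length = m → rtG H r = r → z₀ ∈ R K (D.Sg (secG D.br.self H r)) 0 ∧
          h' r = z₀ * (κ₁ * κ₂) * y₀) ∧ (¬ (r.length = m ∧ rtG H r = r) →
          z₀ = 1 ∧ κ₁ = 1 ∧ κ₂ = 1 ∧ y₀ = 1) := by
      intro r
      by_cases hr : r.length = m ∧ rtG H r = r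
      · obtain ⟨z, hz, hy⟩ := hW _ (hle r) _ (hroot r hr.2)
        obtain ⟨z₀, hz₀, κ, hκ, h7⟩ := R_split hz
        obtain ⟨κ₁, hκ₁, κ₂, hκ₂, h8⟩ := CK_split hκ
        have hPn' : (PG K n).Normal := PG_normal D.br.self n
        have hyK : z⁻¹ * h' r ∈ K := PG_le D.br n (comm_le_self _ hy)
        refine ⟨z₀, κ₁, κ₂, z⁻¹ * h' r, hκ₁, hκ₂, R_sub hz₀, hyK, hy,
          fun _ _ => ⟨hz₀, ?_⟩, fun h => absurd hr h⟩
        rw [← h8, ← h7]; group
      · exact ⟨1, 1, 1, 1, one_mem_CK W, one_mem_CK W, K.one_mem, K.one_mem,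
          Subgroup.one_mem _, fun h4 h5 => absurd ⟨h4, h5⟩ hr, fun _ => ⟨rfl, rfl, rfl, rfl⟩⟩
    choose z₀ κ₁ κ₂ y₀ hκ₁ hκ₂ hz₀K hy₀K hy₀ hsplit hnon using hsp
    set h₁ : List X → G := fun v => z₀ v * (κ₁ v * κ₂ v) with hh₁
    have hh₁K : ∀ v, h₁ v ∈ K := fun v =>
      K.mul_mem (hz₀K v) (K.mul_mem (CK_sub (hκ₁ v)) (CK_sub (hκ₂ v)))
    obtain ⟨g₁, hg₁, hi₁⟩ := D.br.ins m h₁ hh₁K
    obtain ⟨g₂, hg₂, hi₂⟩ := D.br.ins m y₀ hy₀K
    have hg₂c : g₂ ∈ ⁅H, PG K (m + n)⁆ := ins_comm_PG D.br hi₂ fun v _ => hy₀ v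
    have heq : g' = g₁ * g₂ := by
      refine insG_unique hG hi' (hi₁.mul hi₂) fun v hv => ?_
      show h' v = z₀ v * (κ₁ v * κ₂ v) * y₀ v
      by_cases hr : rtG H v = v
      · exact (hsplit v hv hr).2
      · obtain ⟨e1, e2, e3, e4⟩ := hnon v (fun h => hr h.2)
        rw [p1' v hv hr, e1, e2, e3, e4]; group
    -- (e)
    have hh₁1 : ∀ v, rtG H v ≠ v → h₁ v = 1 := by
      intro v hv
      obtain ⟨e1, e2, e3, _⟩ := hnon v (fun h => hv h.2)
      show z₀ v * (κ₁ v * κ₂ v) = 1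
      rw [e1, e2, e3]; group
    obtain ⟨q, g₃, hg₃, c₂, hc₂, e₂, hi₃, q0, q1, q2, q3, q4⟩ :=
      splitAll D.br hKH b hbK hbv κ₂ hκ₂ h₁ g₁ hg₁ hi₁ hh₁K hh₁1 l
        (fun v hv => (hlm v).1 hv) hlnd
    have hfinal : g₃ ∈ R K S (C₂ + W) := by
      refine h2 W q g₃ ?_ hi₃
      intro v hv
      by_cases hr : rtG H v = v
      · rw [q1 v ((hlm v).2 hv) hr]
        show z₀ v * (κ₁ v * κ₂ v) * (κ₂ v)⁻¹ ∈ _
        rw [← mul_assoc, mul_inv_cancel_right]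
        exact R_join (hsplit v hv hr).1 (hκ₁ v)
      · exact CK_R (q3 v hr)
    -- (f)
    refine ⟨z₁ * z₂ * (g₃ * c₂) * w, ?_, ?_⟩
    · refine R_mono ?_ (R_mul (R_mul (R_mul hz₁ hz₂) (R_mul_CK hfinal hc₂)) hw)
      omega
    · have hxe : x = z₁ * z₂ * (g₃ * c₂) * g₂ * w := by
        have h4 : x = z₁ * z₂ * x₂ := by rw [hx₂]; group
        rw [h4, e', heq, e₂]; group
      have h5 : (z₁ * z₂ * (g₃ * c₂) * w)⁻¹ * x = w⁻¹ * g₂ * w⁻¹⁻¹ := by rw [hxe]; group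
      rw [h5]
      exact conj_comm_mem (hKH (K.inv_mem (R_sub hw))) hg₂c
  obtain ⟨C, hC⟩ := uniform D.fin (fun H C => ∀ n W, Pn D n (W + W) → ∀ x ∈ ⁅H, K⁆,
      ∃ z ∈ R K (D.Sg H) (C + W), z⁻¹ * x ∈ ⁅H, PG K (m + n)⁆) (by
    intro H C C' hCC h n W hW x hx
    obtain ⟨z, hz, h1⟩ := h n W hW x hx
    exact ⟨z, R_mono (by omega) hz, h1⟩) key
  exact ⟨C, fun n W hW H hKH x hx => hC H hKH n W hW x hx⟩

/-- PROOF.  `m > 0` (for `m = 0` the word `[]` is fixed by everything, `map_nil`).  Let `C` be from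
`half_step` and `C₀` such that `Pn D n C₀` for all `n ≤ m` (from `trans_level` at level `m`,
`uniform`, `PG_anti`).  `W = C₀ + 2 * C + 1`: strong induction on `n`; for `n ≤ m` clear; for
`n = m + n'` use `half_step` with `(W + 1) / 2`, because `W ≤ (W+1)/2 + (W+1)/2` and
`C + (W + 1) / 2 ≤ W` (`R_mono`). -/
theorem exists_W [Finite X] [Nonempty X] (D : Dt G K) (m : ℕ)
    (hm : ∀ v : List X, v.length = m → ∃ b ∈ K, b • v ≠ v) : ∃ W, ∀ n, Pn D n W := by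
  have hm0 : 0 < m := by
    rcases Nat.eq_zero_or_pos m with h | h
    · obtain ⟨b, _, hb⟩ := hm [] (by rw [h]; rfl)
      exact absurd (map_nil D.br.self b.2) hb
    · exact h
  obtain ⟨C, hC⟩ := half_step D m hm
  obtain ⟨C₀, hC₀⟩ := uniform D.fin (fun H C => ∀ x ∈ ⁅H, K⁆,
      ∃ z ∈ R K (D.Sg H) C, z⁻¹ * x ∈ ⁅H, PG K m⁆) (by
    intro H C C' hCC h x hx
    obtain ⟨z, hz, h1⟩ := h x hx
    exact ⟨z, R_mono hCC hz, h1⟩) (fun H hKH => trans_level D.br D.fin hKH (D.gen H hKH) m)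
  refine ⟨C₀ + 2 * C + 1, fun n => ?_⟩
  induction n using Nat.strong_induction_on with
  | _ n ih =>
    by_cases hn : n ≤ m
    · intro H hKH x hx
      obtain ⟨z, hz, h1⟩ := hC₀ H hKH x hx
      exact ⟨z, R_mono (by omega) hz,
        Subgroup.commutator_mono le_rfl (PG_anti D.br hn) h1⟩
    · obtain ⟨n', rfl⟩ := Nat.exists_eq_add_of_le (le_of_not_ge hn)
      have h1 : Pn D n' ((C₀ + 2 * C + 1 + 1) / 2 + (C₀ + 2 * C + 1 + 1) / 2) := by
        intro H hKH x hx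
        obtain ⟨z, hz, h1⟩ := ih n' (by omega) H hKH x hx
        exact ⟨z, R_mono (by omega) hz, h1⟩
      intro H hKH x hx
      obtain ⟨z, hz, h2⟩ := hC n' _ h1 H hKH x hx
      exact ⟨z, R_mono (by omega) hz, h2⟩

end Pool.Agent.RB61
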