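import Mathlib
import Pool.Agent.RB61.Gath

set_option autoImplicit false
set_option linter.unusedSectionVars false

/-!
# RB61/Letters: replacing the transports by finitely many elements; distributing a product
-/

namespace Pool.Agent.RB61

open scoped commutatorElement Pointwise
open Pool.Agent.CW71 Pool.Agent.CB71

variable {Γ : Type*} [Group Γ] {K : Subgroup Γ} [hKn : K.Normal]

/-- PROOF.  Let `F` be the (finite) range of `Quotient.out` on `Γ ⧸ K` and
`E' = {ρ * e * ρ⁻¹ | ρ ∈ F, e ∈ E}`, finite (`Set.Finite.image2`) and contained in `K`.  For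
`τ ∈ Γ` let `ρ = (QuotientGroup.mk τ).out`, `τ = ρ κ'` with `κ' ∈ K`, so `τ = κ ρ` with
`κ = ρ κ' ρ⁻¹ ∈ K`.  Take `e i = ρ i * k i * (ρ i)⁻¹`; then
`τ i * k i * (τ i)⁻¹ = κ i * e i * (κ i)⁻¹`; `Ap.list_conj`. -/
theorem exists_letters (hK : K.FiniteIndex) {E : Set Γ} (hE : E.Finite) (hEK : ∀ e ∈ E, e ∈ K) :
    ∃ E' : Set Γ, E'.Finite ∧ (∀ e ∈ E', e ∈ K) ∧
      ∀ {ι : Type} (l : List ι) (τ k : ι → Γ), (∀ i ∈ l, k i ∈ E) →
        ∃ e : ι → Γ, (∀ i ∈ l, e i ∈ E') ∧
          Ap K l.length ((l.map fun i => τ i * k i * (τ i)⁻¹).prod) ((l.map e).prod) := by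
  classical
  haveI := hK
  haveI hq : Finite (Γ ⧸ K) := K.finite_quotient_of_finiteIndex
  have hFin : (Set.range (Quotient.out : Γ ⧸ K → Γ)).Finite := Set.finite_range _
  refine ⟨Set.image2 (fun ρ e => ρ * e * ρ⁻¹) (Set.range (Quotient.out : Γ ⧸ K → Γ)) E,
    hFin.image2 _ hE, ?_, ?_⟩
  · rintro _ ⟨ρ, -, e, he, rfl⟩
    exact hKn.conj_mem e (hEK e he) ρ
  · intro ι l τ k hk
    have hρ : ∀ i, (Quotient.out (QuotientGroup.mk (τ i) : Γ ⧸ K))⁻¹ * τ i ∈ K := by
      intro i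
      rw [← QuotientGroup.eq]
      exact Quotient.out_eq' _
    set ρ : ι → Γ := fun i => Quotient.out (QuotientGroup.mk (τ i) : Γ ⧸ K) with hρd
    refine ⟨fun i => ρ i * k i * (ρ i)⁻¹, ?_, ?_⟩
    · intro i hi
      exact ⟨ρ i, ⟨_, rfl⟩, k i, hk i hi, rfl⟩
    · have h1 := Ap.list_conj (K := K) l (fun i => ρ i * k i * (ρ i)⁻¹)
        (fun i => τ i * (ρ i)⁻¹) (fun i hi => hKn.conj_mem _ (hEK _ (hk i hi)) _) (fun i hi => by
          have h2 := hKn.conj_mem _ (hρ i) (ρ i)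
          have e1 : ρ i * ((ρ i)⁻¹ * τ i) * (ρ i)⁻¹ = τ i * (ρ i)⁻¹ := by group
          rwa [e1] at h2)
      have e2 : (fun i => τ i * (ρ i)⁻¹ * (ρ i * k i * (ρ i)⁻¹) * (τ i * (ρ i)⁻¹)⁻¹) =
          fun i => τ i * k i * (τ i)⁻¹ := by
        funext i; group
      rw [e2] at h1
      exact h1

/-- PROOF.  Induction on `l` (`i :: l`, `i ∉ l`): `CK_split` splits `κ = κ₁ κ₂` with
`κ₁ ∈ CK K c`, `κ₂ ∈ CK K (l.length * c)`; take `f` from the induction hypothesis for `κ₂` and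
change its value at `i` to `κ₁` (`Function.update`; `List.map_congr_left` because `i ∉ l`). -/
theorem distribute {ι : Type} (c : ℕ) (l : List ι) (hl : l.Nodup) {κ : Γ}
    (hκ : κ ∈ CK K (l.length * c)) :
    ∃ f : ι → Γ, (∀ i, f i ∈ CK K c) ∧ (l.map f).prod = κ := by
  classical
  induction l generalizing κ with
  | nil =>
    rw [List.length_nil, Nat.zero_mul] at hκ
    have h0 : κ = 1 := hκ
    exact ⟨fun _ => 1, fun _ => one_mem_CK c, by rw [List.map_nil, List.prod_nil, h0]⟩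
  | cons i l ih =>
    rw [List.length_cons, Nat.succ_mul, Nat.add_comm] at hκ
    obtain ⟨κ₁, h₁, κ₂, h₂, e⟩ := CK_split hκ
    obtain ⟨hi, hl'⟩ := List.nodup_cons.1 hl
    obtain ⟨f, hf, hp⟩ := ih hl' h₂
    refine ⟨Function.update f i κ₁, ?_, ?_⟩
    · intro j
      by_cases hj : j = i
      · subst hj
        rw [Function.update_self]; exact h₁
      · rw [Function.update_of_ne hj]; exact hf j
    · rw [List.map_cons, List.prod_cons, Function.update_self]
      have h3 : l.map (Function.update f i κ₁) = l.map f := by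
        apply List.map_congr_left
        intro j hj
        have : j ≠ i := fun h => hi (h ▸ hj)
        rw [Function.update_of_ne this]
      rw [h3, hp]
      exact e.symm

end Pool.Agent.RB61
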