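import Mathlib
import Pool.Agent.RB61.Lev

set_option autoImplicit false
set_option linter.unusedSectionVars false

/-!
# RB61/Roots: the orbits of `H` on a level of the tree
-/

namespace Pool.Agent.RB61

open scoped commutatorElement
open Pool.Agent.CW71 Pool.Agent.CB71

variable {X : Type} {G : Subgroup (Tr X)} {K : Subgroup G} [hKn : K.Normal]

/-- PROOF.  If `l = []` clear.  Otherwise fix `r₀ ∈ l` and choose for every `r ∈ l` an element
`g r ∈ G` with `g r • r₀ = r` (`ht r₀ r`, equal lengths).  The map `r ↦ mk (g r) : G ⧸ K` is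
injective on `l`: if `(g r)⁻¹ * g r' ∈ K` then, `K` being normal, `g r' * (g r)⁻¹ ∈ K ≤ H` maps `r`
to `r'`, so `rtG H r = rtG H r'` (`rtG_act`) and `r = r'`.  `K.index = Nat.card (G ⧸ K)`, finite. -/
theorem card_roots (ht : LevelTransitive G) (hK : K.FiniteIndex) {H : Subgroup G} (hKH : K ≤ H)
    {n : ℕ} {l : List (List X)} (hl : l.Nodup)
    (hl' : ∀ r ∈ l, r.length = n ∧ rtG H r = r) : l.length ≤ K.index := by
  classical
  rcases l with _ | ⟨r₀, l₀⟩
  · exact Nat.zero_le _
  obtain ⟨l, hld⟩ : ∃ l, l = r₀ :: l₀ := ⟨_, rfl⟩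
  rw [← hld] at hl hl' ⊢
  have hr₀ : r₀.length = n := (hl' r₀ (by rw [hld]; exact List.mem_cons_self)).1
  have hmem : ∀ i : Fin l.length, l.get i ∈ l := fun i => List.get_mem _ _
  choose g hg hgv using fun i : Fin l.length => ht r₀ (l.get i)
    (by rw [hr₀, (hl' _ (hmem i)).1])
  let f : Fin l.length → G ⧸ K := fun i => QuotientGroup.mk ⟨g i, hg i⟩
  have hf : Function.Injective f := by
    intro i j hij
    have h1 : (⟨g i, hg i⟩ : G)⁻¹ * ⟨g j, hg j⟩ ∈ K := QuotientGroup.eq.1 hij
    have h2 := hKn.conj_mem _ h1 ⟨g i, hg i⟩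
    have h3 : (⟨g i, hg i⟩ : G) * ((⟨g i, hg i⟩ : G)⁻¹ * ⟨g j, hg j⟩) * (⟨g i, hg i⟩ : G)⁻¹ =
        ⟨g j, hg j⟩ * (⟨g i, hg i⟩ : G)⁻¹ := by group
    rw [h3] at h2
    have h4 := rtG_act (hKH h2) (l.get i)
    have h5 : (⟨g i, hg i⟩ : G) • r₀ = l.get i := hgv i
    have h6 : (⟨g j, hg j⟩ : G) • r₀ = l.get j := hgv j
    have h7 : ((⟨g j, hg j⟩ : G) * (⟨g i, hg i⟩ : G)⁻¹) • (l.get i) = l.get j := by
      rw [← h5, mul_smul, inv_smul_smul, h6]
    rw [h7, (hl' _ (hmem j)).2, (hl' _ (hmem i)).2] at h4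
    exact (List.nodup_iff_injective_get.1 hl h4).symm
  have : Finite (G ⧸ K) := Subgroup.finite_quotient_of_finiteIndex
  have hcard := Nat.card_le_card_of_injective f hf
  rw [Nat.card_eq_fintype_card, Fintype.card_fin] at hcard
  exact hcard

/-- PROOF.  Take `n = C * K.index`.  Every word `w` of length `n` is `g • r` for some `g : G`
(`ht`); `g = q.out * κ` with `q = mk g : G ⧸ K`, `κ ∈ K ≤ H`, and `κ • r ∈ l` (`rtG_act`,
`len_act`).  So `(q, u) ↦ q.out • u` maps `(G ⧸ K) × l` onto the words of length `n`, whose number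
is `(card X)^n ≥ 2^n` (`List.Vector X n`, `card_vector`, as in `exists_levelG` in CB71/GN).  Hence
`K.index * l.length ≥ 2^n > n = C * K.index`, so `l.length ≥ C`. -/
theorem orbit_large [Finite X] [Nontrivial X] (ht : LevelTransitive G) (hss : SelfSimilar G)
    (hK : K.FiniteIndex) (C : ℕ) :
    ∃ n, ∀ H : Subgroup G, K ≤ H → ∀ r : List X, r.length = n → rtG H r = r →
      ∀ l : List (List X), (∀ u, u ∈ l ↔ (u.length = n ∧ rtG H u = r)) → C ≤ l.length := by
  classical
  refine ⟨C * K.index, fun H hKH r hr hrr l hl => ?_⟩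
  obtain ⟨n, hn⟩ : ∃ n, n = C * K.index := ⟨_, rfl⟩
  rw [← hn] at hr hl
  have : Fintype X := Fintype.ofFinite X
  have hfin : Finite (G ⧸ K) := Subgroup.finite_quotient_of_finiteIndex
  have hmem : ∀ i : Fin l.length, l.get i ∈ l := fun i => List.get_mem _ _
  let F : (G ⧸ K) × Fin l.length → List.Vector X n := fun p =>
    ⟨(Quotient.out p.1 : G) • l.get p.2, by
      rw [len_act hss]
      exact ((hl _).1 (hmem p.2)).1⟩
  have hF : Function.Surjective F := by
    intro w
    obtain ⟨g, hg, hgw⟩ := ht r w.1 (by rw [hr, w.2])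
    obtain ⟨κ, hκ⟩ := QuotientGroup.mk_out_eq_mul K (⟨g, hg⟩ : G)
    have hu : ((κ : G)⁻¹ • r) ∈ l := by
      rw [hl]
      refine ⟨by rw [len_act hss, hr], ?_⟩
      rw [rtG_act (H.inv_mem (hKH κ.2)), hrr]
    obtain ⟨i, hi⟩ := List.mem_iff_get.1 hu
    refine ⟨(QuotientGroup.mk (⟨g, hg⟩ : G), i), ?_⟩
    apply Subtype.ext
    show (Quotient.out (QuotientGroup.mk (⟨g, hg⟩ : G) : G ⧸ K) : G) • l.get i = w.1
    have h1 : (Quotient.out (QuotientGroup.mk (⟨g, hg⟩ : G) : G ⧸ K) : G) =
      (⟨g, hg⟩ : G) * (κ : G) := hκ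
    rw [h1, hi, mul_smul, smul_inv_smul]
    exact hgw
  have hcard := Nat.card_le_card_of_surjective F hF
  rw [Nat.card_prod, Nat.card_eq_fintype_card (α := Fin l.length), Fintype.card_fin,
    Nat.card_eq_fintype_card (α := List.Vector X n), card_vector] at hcard
  have h5 : Nat.card (G ⧸ K) = K.index := rfl
  rw [h5] at hcard
  have h6 : 2 ^ n ≤ Fintype.card X ^ n := Nat.pow_le_pow_left Fintype.one_lt_card n
  have h7 : n < 2 ^ n := Nat.lt_two_pow_self
  have h8 : K.index * C < K.index * l.length := by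
    rw [mul_comm K.index C, ← hn]
    omega
  exact (Nat.lt_of_mul_lt_mul_left h8).le

/-- PROOF.  Induction on the list `T` of elements of `secG H v` (compare `lift0` in CB71/GR): if
`T = s :: T'` and `x = ⁅s, μ⁆ * y`, `μ ∈ K`, `y ∈ R K T' 0`, then `s` is the section at `v` of
some `ŝ ∈ H` with `ŝ • v = v`; with `i ∈ K`, `InsG v.length (del v μ) i`, and `g'` inserted with
`del v y`, one has `g = ⁅ŝ, i⁆ * g'` (`comm_del`, `insG_unique`), `⁅ŝ, i⁆ ∈ CK H 1`
(`comm_mem_CK`) and `g' ∈ CK H T'.length`. -/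
theorem ins_one_word [Nonempty X] (hB : Br G K) {H : Subgroup G} (hKH : K ≤ H) {v : List X}
    (T : List G) (hT : ∀ s ∈ T, s ∈ secG hB.self H v) {x g : G} (hx : x ∈ R K T 0)
    (hg : InsG v.length (del v x) g) : g ∈ CK H T.length := by
  induction T generalizing x g with
  | nil =>
    have hx' : x = 1 := hx
    have h1 : g = 1 := insG_unique hB.self hg (insG_one v.length) fun u _ => by
      by_cases hu : u = v
      · rw [hu, del_self, hx']
      · rw [del_ne _ hu]
    rw [h1]
    exact one_mem_CK _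
  | cons s T ih =>
    obtain ⟨ŝ, hŝ, hŝv, hsec⟩ := hT s List.mem_cons_self
    obtain ⟨μ, hμ, y, hy, rfl⟩ := hx
    have hyK : y ∈ K := R_sub hy
    obtain ⟨i, hiK, hii⟩ := hB.ins v.length (del v μ) (del_mem hμ)
    obtain ⟨g', hg'K, hg'⟩ := hB.ins v.length (del v y) (del_mem hyK)
    have h1 := comm_del hB.self (a := ŝ) hii
    have h2 : g = ⁅ŝ, i⁆ * g' := by
      refine insG_unique hB.self hg (h1.mul hg') fun u _ => ?_
      rw [hŝv, hsec]
      by_cases hu : u = v
      · rw [hu, del_self, del_self, del_self, del_self, commutatorElement_def]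
      · rw [del_ne _ hu, del_ne _ hu, del_ne _ hu, del_ne _ hu]; simp
    exact ⟨ŝ, hŝ, i, hKH hiK, g', ih (fun t ht => hT t (List.mem_cons_of_mem _ ht)) hy hg', h2⟩

open Classical in
/-- PROOF.  Let `l` be the list of the representatives `r` of length `n` (finite, no repetition).
By induction on a list `l'` without repetition of such representatives: an element `g` inserted at
level `n` with the function `v ↦ if v ∈ l' then u v else 1` is in `CK H (l'.length * Q)`
(`g = g₁ * g₂`, `g₁` inserted with `del r (u r)`, `g₂` with the function for the tail;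
`ins_one_word` with `T = D.Sg (secG H r)`, `K_le_secG`, `CK_mono`; `u r ∈ K` by `R_sub`;
`D.br.ins`, `insG_unique`).  Finally `card_roots`. -/
theorem ins_roots [Finite X] [Nonempty X] (D : Dt G K) (ht : LevelTransitive G) {H : Subgroup G}
    (hKH : K ≤ H) {Q : ℕ} (hQ : ∀ H', K ≤ H' → (D.Sg H').length ≤ Q) {n : ℕ} {u : List X → G} {g : G}
    (hu : ∀ r : List X, r.length = n → rtG H r = r →
      u r ∈ R K (D.Sg (secG D.br.self H r)) 0)
    (hg : InsG n (fun v => if rtG H v = v then u v else 1) g) : g ∈ CK H (K.index * Q) := by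
  have hu1 : ∀ r : List X, r.length = n → rtG H r = r → u r ∈ K := fun r h1 h2 =>
    R_sub (hu r h1 h2)
  have key : ∀ l : List (List X), l.Nodup → (∀ r ∈ l, r.length = n ∧ rtG H r = r) → ∀ g : G,
      InsG n (fun v => if v ∈ l then u v else 1) g → g ∈ CK H (l.length * Q) := by
    intro l
    induction l with
    | nil =>
      intro _ _ g hg
      have h1 : g = 1 := insG_unique D.br.self hg (insG_one n) fun v _ => by
        rw [if_neg List.not_mem_nil]
      rw [h1]
      exact one_mem_CK _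
    | cons r l ih =>
      intro hnd hl g hg
      obtain ⟨hrl, hnd'⟩ := List.nodup_cons.1 hnd
      obtain ⟨hr1, hr2⟩ := hl r List.mem_cons_self
      have hl2 : ∀ s ∈ l, s.length = n ∧ rtG H s = s := fun s hs =>
        hl s (List.mem_cons_of_mem _ hs)
      obtain ⟨g₁, hg₁K, hg₁⟩ := D.br.ins n (del r (u r)) (del_mem (hu1 r hr1 hr2))
      obtain ⟨g₂, hg₂K, hg₂⟩ := D.br.ins n (fun v => if v ∈ l then u v else 1) (fun v => by
        by_cases hv : v ∈ l
        · rw [if_pos hv]
          exact hu1 v (hl2 v hv).1 (hl2 v hv).2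
        · rw [if_neg hv]
          exact K.one_mem)
      have h1 : g = g₁ * g₂ := by
        refine insG_unique D.br.self hg (hg₁.mul hg₂) fun v _ => ?_
        by_cases hv : v = r
        · rw [hv, if_pos List.mem_cons_self, if_neg hrl, del_self, mul_one]
        · rw [del_ne _ hv, one_mul]
          by_cases hvl : v ∈ l
          · rw [if_pos (List.mem_cons_of_mem _ hvl), if_pos hvl]
          · rw [if_neg hvl, if_neg (fun h => by
              rcases List.mem_cons.1 h with h | h
              · exact hv h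
              · exact hvl h)]
      have hKs := K_le_secG D.br hKH r
      have h2 : g₁ ∈ CK H (D.Sg (secG D.br.self H r)).length :=
        ins_one_word D.br hKH (v := r) (D.Sg (secG D.br.self H r)) (D.gen _ hKs).sub
          (hu r hr1 hr2) (by rw [hr1]; exact hg₁)
      have h3 : g₁ ∈ CK H Q := CK_mono (hQ _ hKs) h2
      rw [h1, List.length_cons, add_mul, one_mul, add_comm]
      exact CK_mul h3 (ih hnd' hl2 g₂ hg₂)
  have fW : {r : List X | r.length = n ∧ rtG H r = r}.Finite :=
    (List.finite_length_eq X n).subset fun r hr => hr.1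
  obtain ⟨l, hl⟩ : ∃ l, l = fW.toFinset.toList := ⟨_, rfl⟩
  have hlm : ∀ r, r ∈ l ↔ (r.length = n ∧ rtG H r = r) := by
    intro r
    rw [hl, Finset.mem_toList, Set.Finite.mem_toFinset]
    exact Iff.rfl
  have hlnd : l.Nodup := by
    rw [hl]
    exact Finset.nodup_toList _
  have h1 : g ∈ CK H (l.length * Q) := by
    refine key l hlnd (fun r hr => (hlm r).1 hr) g (hg.congr fun v hv => ?_)
    by_cases h : rtG H v = v
    · rw [if_pos h, if_pos ((hlm v).2 ⟨hv, h⟩)]
    · rw [if_neg h, if_neg (fun h' => h ((hlm v).1 h').2)]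
  exact CK_mono (Nat.mul_le_mul_right Q
    (card_roots ht D.fin hKH hlnd (fun r hr => (hlm r).1 hr))) h1

end Pool.Agent.RB61
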