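import Mathlib
import Pool.Agent.RB61.FolPw

set_option autoImplicit false
set_option linter.unusedSectionVars false

/-!
# RB61/PwR: powers of products and of elements of `R K S M`
-/

namespace Pool.Agent.RB61

open scoped commutatorElement
open Pool.Agent.CW71 Pool.Agent.CB71

variable {Γ : Type*} [Group Γ] {K : Subgroup Γ} [hKn : K.Normal]

/-- PROOF.  Induction on `l`, for all `N`.  `[]`: `1^c = 1`.  `x :: l`: use `hP` for `x` and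
`l.prod` with `2 N` and the induction hypothesis with `2 N`:
`(x * l.prod)^c ≈ x^c * l.prod^c ≈ x^c * (l.map (· ^ c)).prod`; the cost is
`2 * (c / (2 N)) + C + C' ≤ c / N + (C + C')`. -/
theorem Pw.list (hP : Pw K) (l : List Γ) (hl : ∀ x ∈ l, x ∈ K) (N : ℕ) (hN : 0 < N) :
    ∃ C : ℕ, ∀ c : ℕ, Ap K (c / N + C) (l.prod ^ c) ((l.map fun x => x ^ c).prod) := by
  induction l generalizing N with
  | nil => exact ⟨0, fun c => Ap.of_eq _ (by simp)⟩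
  | cons x l ih =>
    have hx := hl x List.mem_cons_self
    have hl' : ∀ y ∈ l, y ∈ K := fun y hy => hl y (List.mem_cons_of_mem _ hy)
    obtain ⟨C, hC⟩ := hP x hx l.prod (K.list_prod_mem hl') (2 * N) (by omega)
    obtain ⟨C', hC'⟩ := ih hl' (2 * N) (by omega)
    refine ⟨C + C', fun c => ?_⟩
    rw [List.prod_cons, List.map_cons, List.prod_cons]
    refine ((hC c).trans ((hC' c).mul_left (x ^ c))).mono ?_
    have h1 : 2 * (c / (2 * N)) ≤ c / N := by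
      rw [Nat.mul_comm 2 N, ← Nat.div_div_eq_div_mul]; omega
    omega

/-- PROOF.  `⁅s, m⁆ = (s m s⁻¹) m⁻¹` with both factors in `K`, so by `hP`
`⁅s, m⁆^c ≈ (s m s⁻¹)^c (m⁻¹)^c = s m^c s⁻¹ (m^c)⁻¹ = ⁅s, m^c⁆`. -/
theorem Pw.comm (hP : Pw K) (s : Γ) {m : Γ} (hm : m ∈ K) (N : ℕ) (hN : 0 < N) :
    ∃ C : ℕ, ∀ c : ℕ, Ap K (c / N + C) (⁅s, m⁆ ^ c) ⁅s, m ^ c⁆ := by
  have hsm : s * m * s⁻¹ ∈ K := hKn.conj_mem m hm s
  obtain ⟨C, hC⟩ := hP _ hsm m⁻¹ (K.inv_mem hm) N hN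
  refine ⟨C, fun c => ?_⟩
  have e1 : ⁅s, m⁆ = s * m * s⁻¹ * m⁻¹ := commutatorElement_def s m
  have e2 : ⁅s, m ^ c⁆ = (s * m * s⁻¹) ^ c * m⁻¹ ^ c := by
    rw [commutatorElement_def, conj_pow, inv_pow]
  rw [e1, e2]; exact hC c

private lemma PwR_third (c N : ℕ) : 3 * (c / (3 * N)) ≤ c / N := by
  rw [Nat.mul_comm 3 N, ← Nat.div_div_eq_div_mul]; omega

private lemma PwR_CK_pow (hP : Pw K) (M : ℕ) {g : Γ} (hg : g ∈ CK K M) (N : ℕ)
    (hN : 0 < N) : ∃ C : ℕ, ∀ c : ℕ, g ^ c ∈ CK K (c / N + C) := by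
  induction M generalizing g N with
  | zero =>
    have h : g = 1 := hg
    exact ⟨0, fun c => by rw [h, one_pow]; exact one_mem_CK _⟩
  | succ M ih =>
    obtain ⟨p, hp, q, hq, y, hy, rfl⟩ := hg
    obtain ⟨C₁, h₁⟩ := hP ⁅p, q⁆ (comm_mem_of_normal p hq) y (CK_sub hy) (3 * N) (by omega)
    obtain ⟨C₂, h₂⟩ := Pw.comm hP p hq (3 * N) (by omega)
    obtain ⟨C₃, h₃⟩ := ih hy (3 * N) (by omega)
    refine ⟨C₁ + C₂ + C₃ + 1, fun c => ?_⟩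
    have h4 : ⁅p, q ^ c⁆ * y ^ c ∈ CK K (c / (3 * N) + C₃ + 1) :=
      ⟨p, hp, q ^ c, K.pow_mem hq c, y ^ c, h₃ c, rfl⟩
    have h5 := (h₁ c).trans ((h₂ c).mul_right (y ^ c))
    have h6 := Ap.R (S := []) h5 h4
    refine CK_mono ?_ h6
    have := PwR_third c N
    omega

/-- PROOF.  First `CK K M` by induction on `M` for all `N`: `g = ⁅p, q⁆ y`, `p, q ∈ K`,
`y ∈ CK K M`: `g^c ≈ ⁅p, q⁆^c y^c ≈ ⁅p, q^c⁆ y^c` (`hP` and `Pw.comm`, each with `3 N`) and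
`y^c ∈ CK K (c / (3 N) + C)` by induction; total `3 * (c / (3 N)) + const ≤ c / N + const`.
(`Ap` to an element of `CK K n` gives an element of `CK K (n + cost)`: `Ap.R` with `S = []`.)
Then `R K S M` by induction on `S` in the same way: `g = ⁅s, m⁆ y`, `m ∈ K`, `y ∈ R K S M`:
`g^c ≈ ⁅s, m⁆^c y^c ≈ ⁅s, m^c⁆ y^c ∈ R K (s :: S) _` (constructor), with `Ap.R`. -/
theorem Pw.R_pow (hP : Pw K) (S : List Γ) (M : ℕ) {g : Γ} (hg : g ∈ R K S M) (N : ℕ)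
    (hN : 0 < N) : ∃ C : ℕ, ∀ c : ℕ, g ^ c ∈ R K S (c / N + C) := by
  induction S generalizing g N with
  | nil => exact PwR_CK_pow hP M hg N hN
  | cons s S ih =>
    obtain ⟨m, hm, y, hy, rfl⟩ := hg
    obtain ⟨C₁, h₁⟩ := hP ⁅s, m⁆ (comm_mem_of_normal s hm) y (R_sub hy) (3 * N) (by omega)
    obtain ⟨C₂, h₂⟩ := Pw.comm hP s hm (3 * N) (by omega)
    obtain ⟨C₃, h₃⟩ := ih hy (3 * N) (by omega)
    refine ⟨C₁ + C₂ + C₃, fun c => ?_⟩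
    have h4 : ⁅s, m ^ c⁆ * y ^ c ∈ R K (s :: S) (c / (3 * N) + C₃) :=
      ⟨m ^ c, K.pow_mem hm c, y ^ c, h₃ c, rfl⟩
    have h5 := (h₁ c).trans ((h₂ c).mul_right (y ^ c))
    refine R_mono ?_ (h5.R h4)
    have := PwR_third c N
    omega

end Pool.Agent.RB61
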