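import Mathlib
import Pool.Agent.RB61.PwR

set_option autoImplicit false
set_option linter.unusedSectionVars false

/-!
# RB61/Mon: ordered products of powers
-/

namespace Pool.Agent.RB61

open scoped commutatorElement
open Pool.Agent.CW71 Pool.Agent.CB71

variable {Γ : Type*} [Group Γ] {K : Subgroup Γ} [hKn : K.Normal]

/-- `b₀^(a₀) b₁^(a₁) ⋯` -/
def mon {k : ℕ} (b : Fin k → Γ) (a : Fin k → ℕ) : Γ :=
  ((List.finRange k).map fun i => b i ^ a i).prod

/-- PROOF.  `prod_mem_K`. -/
theorem mon_mem {k : ℕ} (b : Fin k → Γ) (hb : ∀ i, b i ∈ K) (a : Fin k → ℕ) : mon b a ∈ K := by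
  exact prod_mem_K _ _ fun i _ => K.pow_mem (hb i) _

theorem mon_zero {k : ℕ} (b : Fin k → Γ) : mon b 0 = 1 := by
  rw [mon]
  have h : (List.finRange k).map (fun i => b i ^ (0 : Fin k → ℕ) i) =
      (List.finRange k).map fun _ => (1 : Γ) :=
    List.map_congr_left fun i _ => by rw [Pi.zero_apply, pow_zero]
  rw [h]; simp

/-- PROOF.  `b i ^ (a i + a' i) = b i ^ a i * b i ^ a' i` and `Ap.list_mul` for the list
`List.finRange k` of length `k`. -/
theorem mon_add {k : ℕ} (b : Fin k → Γ) (hb : ∀ i, b i ∈ K) (a a' : Fin k → ℕ) :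
    Ap K k (mon b (a + a')) (mon b a * mon b a') := by
  have h := Ap.list_mul (K := K) (List.finRange k) (fun i => b i ^ a i) (fun i => b i ^ a' i)
    (fun i _ => K.pow_mem (hb i) _) (fun i _ => K.pow_mem (hb i) _)
  rw [List.length_finRange] at h
  have e : (fun i => b i ^ a i * b i ^ a' i) = fun i => b i ^ (a + a') i := by
    funext i; rw [Pi.add_apply, pow_add]
  rw [e] at h
  exact h

/-- PROOF.  `mon b (c • a) = ∏ (b i ^ a i)^c` (`pow_mul`, order of the factors as in
`List.finRange k`), which by `Pw.list` (list `(List.finRange k).map (b i ^ a i)`, number `2 N`,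
and `Ap.symm`) is `(mon b a)^c` up to `c / (2 N) + C` commutators.  `mon b a ∈ R K S M` for some
`M` by `exists_RH hS ha`, so `(mon b a)^c ∈ R K S (c / (2 N) + C')` by `Pw.R_pow`.  Conclude
with `Ap.R` and `2 * (c / (2 N)) ≤ c / N`, `R_mono`. -/
theorem mon_nsmul {k : ℕ} (hP : Pw K) (b : Fin k → Γ) (hb : ∀ i, b i ∈ K) {H : Subgroup Γ}
    {S : List Γ} (hS : GenList H S) (a : Fin k → ℕ) (ha : mon b a ∈ ⁅H, K⁆) (N : ℕ) (hN : 0 < N) :
    ∃ C : ℕ, ∀ c : ℕ, mon b (c • a) ∈ R K S (c / N + C) := by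
  obtain ⟨M, hM⟩ := exists_RH hS ha
  obtain ⟨C, hC⟩ := Pw.R_pow hP S M hM (2 * N) (by omega)
  obtain ⟨C', hC'⟩ := Pw.list hP ((List.finRange k).map fun i => b i ^ a i) (by
    intro x hx
    obtain ⟨i, _, rfl⟩ := List.mem_map.1 hx
    exact K.pow_mem (hb i) _) (2 * N) (by omega)
  refine ⟨C + C', fun c => ?_⟩
  have e : mon b (c • a) = (((List.finRange k).map fun i => b i ^ a i).map fun x => x ^ c).prod := by
    rw [mon, List.map_map]
    refine congrArg List.prod (List.map_congr_left fun i _ => ?_)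
    rw [Function.comp_apply, Pi.smul_apply, smul_eq_mul, mul_comm, pow_mul]
  rw [e]
  have h1 := (hC' c).symm.R (hC c)
  refine R_mono ?_ h1
  have h2 : 2 * (c / (2 * N)) ≤ c / N := by
    rw [Nat.mul_comm 2 N, ← Nat.div_div_eq_div_mul]; omega
  omega

private lemma Mon_step {k : ℕ} (b : Fin k → Γ) (hb : ∀ i, b i ∈ K) (a : Fin k → ℕ) (j : Fin k) :
    Ap K 1 (b j * mon b a) (mon b (a + Pi.single j 1)) := by
  have hj : j ∈ List.finRange k := List.mem_finRange j
  have hn : (List.finRange k).Nodup := List.nodup_finRange k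
  rw [mon, mon]
  obtain ⟨l₁, l₂, hl⟩ := List.append_of_mem hj
  rw [hl] at hn ⊢
  have hn1 : j ∉ l₁ := fun h => (List.disjoint_of_nodup_append hn) h List.mem_cons_self
  have hn2 : j ∉ l₂ := (List.nodup_cons.1 (List.Nodup.of_append_right hn)).1
  have h1 : ∀ l : List (Fin k), j ∉ l →
      (l.map fun i => b i ^ (a + Pi.single j 1 : Fin k → ℕ) i) = l.map fun i => b i ^ a i := by
    intro l hl
    refine List.map_congr_left fun i hi => ?_
    have : i ≠ j := fun h => hl (h ▸ hi)
    rw [Pi.add_apply, Pi.single_eq_of_ne this, add_zero]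
  rw [List.map_append, List.map_append, List.map_cons, List.map_cons, h1 l₁ hn1, h1 l₂ hn2,
    List.prod_append, List.prod_append, List.prod_cons, List.prod_cons, Pi.add_apply,
    Pi.single_eq_same]
  have h2 : Ap K 1 (b j * (l₁.map fun i => b i ^ a i).prod)
      ((l₁.map fun i => b i ^ a i).prod * b j) :=
    Ap.comm (hb j) (prod_mem_K _ _ fun i _ => K.pow_mem (hb i) _)
  have h3 := h2.mul_right (b j ^ a j * (l₂.map fun i => b i ^ a i).prod)
  have e1 : b j * (l₁.map fun i => b i ^ a i).prod * (b j ^ a j * (l₂.map fun i => b i ^ a i).prod)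
      = b j * ((l₁.map fun i => b i ^ a i).prod * (b j ^ a j * (l₂.map fun i => b i ^ a i).prod)) := by
    rw [mul_assoc]
  have e2 : (l₁.map fun i => b i ^ a i).prod * b j * (b j ^ a j * (l₂.map fun i => b i ^ a i).prod)
      = (l₁.map fun i => b i ^ a i).prod * (b j ^ (a j + 1) * (l₂.map fun i => b i ^ a i).prod) := by
    rw [pow_succ', mul_assoc, mul_assoc]
  rwa [e1, e2] at h3

/-- PROOF.  Sort the word: induction on `w`.  For `w = []` take `a = 0`.  For `w = x :: w'`,
`x = b j`, and `a` from the induction hypothesis, take `a + Pi.single j 1`: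
`(List.finRange k).map (b i ^ a i)` splits at `j` as `l₁ ++ [b j ^ a j] ++ l₂`
(`List.append_of_mem`, `List.nodup_finRange`), so
`b j * mon b a = b j * l₁.prod * b j ^ a j * l₂.prod ≈ l₁.prod * b j ^ (a j + 1) * l₂.prod
= mon b (a + Pi.single j 1)` with one commutator (`Ap.comm`).  Alternatively: `w` is a permutation
of `(List.finRange k).flatMap (fun i => List.replicate (a i) (b i))` and `Ap.perm`. -/
theorem mon_word {k : ℕ} (b : Fin k → Γ) (hb : ∀ i, b i ∈ K) (w : List Γ)
    (hw : ∀ x ∈ w, ∃ i, b i = x) :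
    ∃ a : Fin k → ℕ, ∑ i, a i = w.length ∧ Ap K w.length w.prod (mon b a) := by
  induction w with
  | nil =>
    refine ⟨0, by simp, ?_⟩
    rw [mon_zero]; exact Ap.refl _ _
  | cons x w ih =>
    obtain ⟨a, ha, hap⟩ := ih fun y hy => hw y (List.mem_cons_of_mem _ hy)
    obtain ⟨j, rfl⟩ := hw x List.mem_cons_self
    refine ⟨a + Pi.single j 1, ?_, ?_⟩
    · simp only [Pi.add_apply, Finset.sum_add_distrib, ha, List.length_cons]
      rw [Finset.sum_pi_single']
      simp
    · rw [List.prod_cons, List.length_cons]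
      exact (hap.mul_left (b j)).trans (Mon_step b hb a j)

end Pool.Agent.RB61
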