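import Mathlib
import Pool.Agent.RB61.Mon

set_option autoImplicit false
set_option linter.unusedSectionVars false

/-!
# RB61/Words: long words over a finite subset of `K` in `[H, K]`
-/

namespace Pool.Agent.RB61

open scoped commutatorElement
open Pool.Agent.CW71 Pool.Agent.CB71

variable {Γ : Type*} [Group Γ] {K : Subgroup Γ} [hKn : K.Normal]

/-- PROOF.  Induction on the list `hs`.  `[]`: the sum is `0`, `mon b 0 = 1`.  `h :: hs`:
`mon b (c • h + Σ) ≈ mon b (c • h) * mon b Σ` (`mon_add`, cost `k`), `mon b (c • h) ∈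
R K S (c + C)` (`mon_nsmul` with `N = 1`), `mon b Σ ∈ R K S (Σ c + C')` (induction); `R_mul` costs
`S.length * S.length`; `Ap.R`, `R_mono`. -/
theorem mon_comb {k : ℕ} (hP : Pw K) (b : Fin k → Γ) (hb : ∀ i, b i ∈ K) {H : Subgroup Γ}
    {S : List Γ} (hS : GenList H S) (hs : List (Fin k → ℕ))
    (hhs : ∀ h ∈ hs, mon b h ∈ ⁅H, K⁆) :
    ∃ C : ℕ, ∀ c : (Fin k → ℕ) → ℕ,
      mon b (hs.map fun h => c h • h).sum ∈ R K S ((hs.map c).sum + C) := by
  induction hs with
  | nil =>
    refine ⟨0, fun c => ?_⟩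
    have e : (([] : List (Fin k → ℕ)).map fun h => c h • h).sum = 0 := by simp
    rw [e, mon_zero]
    exact one_mem_R S _
  | cons h hs ih =>
    obtain ⟨C, hC⟩ := ih (fun x hx => hhs x (List.mem_cons_of_mem _ hx))
    obtain ⟨C', hC'⟩ := mon_nsmul hP b hb hS h (hhs h List.mem_cons_self) 1 one_pos
    refine ⟨C' + C + S.length * S.length + k, fun c => ?_⟩
    rw [List.map_cons, List.sum_cons, List.map_cons, List.sum_cons]
    have h1 := R_mul (hC' (c h)) (hC c)
    have h2 := (mon_add b hb (c h • h) (hs.map fun h => c h • h).sum).R h1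
    refine R_mono ?_ h2
    rw [Nat.div_one]; omega

/-- PROOF.  The set `P = {a | mon b a ∈ ⁅H, K⁆}` is an additive submonoid of `Fin k → ℕ`
(`mon_zero`, `mon_add` with `Ap.mem_comm`) and it is subtractive: if `a` and `a + a'` are in `P`
then `mon b (a + a') = mon b a * mon b a' * c`, `c ∈ CK K k ⊆ ⁅H, K⁆` (`CK_comm hKH`), so
`mon b a' ∈ ⁅H, K⁆`.  By `AddSubmonoid.fg_of_subtractive` (Mathlib.GroupTheory.Finiteness, Dickson's
lemma) `P` is generated by a finite set; remove `0` from it and let `hs` be the list of its elements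
without repetition.  Every `a ∈ P` is `Σ_{h ∈ hs} c h • h` for some `c`
(`AddSubmonoid.closure_induction`; the sum of two such representations is such a representation).
As `h ≠ 0` has `Σ_i h i ≥ 1`, `Σ_{h} c h ≤ Σ_i a i`.  Conclude with `mon_comb` and `R_mono`. -/
theorem mon_bound {k : ℕ} (hP : Pw K) (b : Fin k → Γ) (hb : ∀ i, b i ∈ K) {H : Subgroup Γ}
    (hKH : K ≤ H) {S : List Γ} (hS : GenList H S) :
    ∃ C : ℕ, ∀ a : Fin k → ℕ, mon b a ∈ ⁅H, K⁆ → mon b a ∈ R K S (∑ i, a i + C) := by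
  classical
  let P : AddSubmonoid (Fin k → ℕ) :=
    { carrier := {a | mon b a ∈ ⁅H, K⁆}
      zero_mem' := by
        change mon b 0 ∈ ⁅H, K⁆
        rw [mon_zero]; exact Subgroup.one_mem _
      add_mem' := by
        intro a a' ha ha'
        exact (mon_add b hb a a').mem_comm hKH (Subgroup.mul_mem _ ha ha') }
  have memP : ∀ a, a ∈ P ↔ mon b a ∈ ⁅H, K⁆ := fun a => Iff.rfl
  have hfg : P.FG := by
    apply AddSubmonoid.fg_of_subtractive
    intro x hx y hxy
    rw [memP] at hx hxy ⊢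
    have h1 : mon b x * mon b y ∈ ⁅H, K⁆ := (mon_add b hb x y).symm.mem_comm hKH hxy
    have h2 := Subgroup.mul_mem _ (Subgroup.inv_mem _ hx) h1
    rwa [inv_mul_cancel_left] at h2
  obtain ⟨T, hT⟩ := hfg
  have hT' : ∀ h ∈ (T.erase 0).toList, mon b h ∈ ⁅H, K⁆ := by
    intro h hh
    rw [Finset.mem_toList, Finset.mem_erase] at hh
    rw [← memP, ← hT]
    exact AddSubmonoid.subset_closure hh.2
  obtain ⟨C, hC⟩ := mon_comb hP b hb hS (T.erase 0).toList hT'
  refine ⟨C, fun a ha => ?_⟩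
  have key : ∀ a ∈ AddSubmonoid.closure (T : Set (Fin k → ℕ)), ∃ c : (Fin k → ℕ) → ℕ,
      ∑ h ∈ T.erase 0, c h • h = a := by
    intro a ha
    induction ha using AddSubmonoid.closure_induction with
    | mem x hx =>
      by_cases h0 : x = 0
      · refine ⟨0, ?_⟩
        rw [h0]; exact Finset.sum_eq_zero fun i _ => by simp
      · refine ⟨Pi.single x 1, ?_⟩
        rw [Finset.sum_eq_single x]
        · simp
        · intro y _ hy
          rw [Pi.single_eq_of_ne hy, zero_smul]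
        · intro hx'
          exact absurd (Finset.mem_erase.2 ⟨h0, hx⟩) hx'
    | zero => exact ⟨0, Finset.sum_eq_zero fun i _ => by simp⟩
    | add x y _ _ hx hy =>
      obtain ⟨c, rfl⟩ := hx
      obtain ⟨c', rfl⟩ := hy
      refine ⟨c + c', ?_⟩
      rw [← Finset.sum_add_distrib]
      exact Finset.sum_congr rfl fun i _ => by rw [Pi.add_apply, add_smul]
  obtain ⟨c, hc⟩ := key a (by rw [hT, memP]; exact ha)
  have h1 := hC c
  rw [Finset.sum_map_toList, Finset.sum_map_toList, hc] at h1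
  refine R_mono ?_ h1
  have h2 : ∑ h ∈ T.erase 0, c h ≤ ∑ i, a i := by
    have h3 : ∑ i, a i = ∑ h ∈ T.erase 0, c h * ∑ i, h i := by
      rw [← hc]
      simp only [Finset.sum_apply, Pi.smul_apply, smul_eq_mul]
      rw [Finset.sum_comm]
      exact Finset.sum_congr rfl fun i _ => by rw [Finset.mul_sum]
    rw [h3]
    refine Finset.sum_le_sum fun h hh => ?_
    have h4 : 1 ≤ ∑ i, h i := by
      by_contra hlt
      have h5 : ∑ i, h i = 0 := by omega
      have h6 : h = 0 := by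
        funext i
        exact (Finset.sum_eq_zero_iff.1 h5) i (Finset.mem_univ i)
      exact (Finset.mem_erase.1 hh).1 h6
    calc c h = c h * 1 := (mul_one _).symm
      _ ≤ _ := Nat.mul_le_mul_left _ h4
  exact Nat.add_le_add_right h2 C

/-- PROOF.  Let `b : Fin k → Γ` enumerate `E` (`hE.toFinset.equivFin` or a list).  `mon_word` gives
`a` with `Σ a i = w.length` and `w.prod ≈ mon b a` (cost `w.length`); `mon b a ∈ ⁅H, K⁆` by
`Ap.symm` and `Ap.mem_comm`; `mon_bound`, `Ap.R`. -/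
theorem word_bound (hP : Pw K) {E : Set Γ} (hE : E.Finite) (hEK : ∀ x ∈ E, x ∈ K) {H : Subgroup Γ}
    (hKH : K ≤ H) {S : List Γ} (hS : GenList H S) :
    ∃ C : ℕ, ∀ w : List Γ, (∀ x ∈ w, x ∈ E) → w.prod ∈ ⁅H, K⁆ →
      w.prod ∈ R K S (2 * w.length + C) := by
  classical
  obtain ⟨l, hl⟩ : ∃ l : List Γ, ∀ x, x ∈ l ↔ x ∈ E :=
    ⟨hE.toFinset.toList, fun x => by rw [Finset.mem_toList, hE.mem_toFinset]⟩
  let b : Fin l.length → Γ := fun i => l.get i
  have hbE : ∀ i, b i ∈ E := by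
    intro i
    exact (hl _).1 (List.get_mem l i)
  have hb : ∀ i, b i ∈ K := fun i => hEK _ (hbE i)
  obtain ⟨C, hC⟩ := mon_bound hP b hb hKH hS
  refine ⟨C, fun w hw hwc => ?_⟩
  have hw' : ∀ x ∈ w, ∃ i, b i = x := by
    intro x hx
    have h1 : x ∈ l := (hl x).2 (hw x hx)
    obtain ⟨i, hi⟩ := List.get_of_mem h1
    exact ⟨i, hi⟩
  obtain ⟨a, ha, hap⟩ := mon_word b hb w hw'
  have h1 := hC a (hap.symm.mem_comm hKH hwc)
  refine R_mono ?_ (hap.R h1)
  omega

end Pool.Agent.RB61
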