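import Mathlib
import Pool.Agent.RB61.Words
import Pool.Agent.RB61.Half
import Pool.Agent.RB61.BSec
import Pool.Agent.RB61.Cls
import Pool.Agent.RB61.Letters
import Pool.Agent.RB61.Roots

set_option autoImplicit false
set_option linter.unusedSectionVars false

/-!
# RB61/Main: the bound for `[H, K]`
-/

namespace Pool.Agent.RB61

open scoped commutatorElement
open Pool.Agent.CW71 Pool.Agent.CB71

variable {X : Type} {G : Subgroup (Tr X)} {K : Subgroup G} [hKn : K.Normal]

theorem bound_x [Finite X] [Nontrivial X] (D : Dt G K)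
    (hfs : ∀ g : G, {s : G | ∃ v : List X, sec D.br.self g v = s}.Finite)
    (ht : LevelTransitive G) (hP : Pw K) {H : Subgroup G} (hKH : K ≤ H) :
    ∃ N, ∀ x ∈ ⁅H, K⁆, x ∈ CK H N := by
  classical
  obtain ⟨m, hm⟩ := exists_levelG ht D.fin
  obtain ⟨W, hW⟩ := exists_W D m hm
  obtain ⟨Q, hQ⟩ : ∃ Q, ∀ H', K ≤ H' → (D.Sg H').length ≤ Q :=
    uniform D.fin (fun H' n => (D.Sg H').length ≤ n) (fun _ _ _ h h' => h'.trans h)
      (fun H' _ => ⟨_, le_rfl⟩)
  have hS := D.gen H hKH
  set S := D.Sg H with hSdef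
  refine ⟨(S.length + W) + (K.index * Q + (4 + ((S.length + S.length) + (S.length + S.length)))),
    fun x hx => ?_⟩
  obtain ⟨E, hE, hEK, hx'⟩ := bounded_sections D.br D.fin hfs hKH S hS.sub W (x := x)
    (fun n => hW n H hKH x hx)
  obtain ⟨E', hE', hE'K, hlet⟩ := exists_letters D.fin hE hEK
  obtain ⟨C, hC⟩ := uniform D.fin (fun H' C => ∀ w : List G, (∀ y ∈ w, y ∈ E') →
      w.prod ∈ ⁅H', K⁆ → w.prod ∈ R K (D.Sg H') (2 * w.length + C))
    (fun H' C C' hCC h w hw hw' => R_mono (by omega) (h w hw hw'))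
    (fun H' h => word_bound hP hE' hE'K h (D.gen H' h))
  obtain ⟨n, hn⟩ := orbit_large ht D.br.self D.fin C
  obtain ⟨z, hz, hzx, hsec⟩ := hx' n
  set y := z⁻¹ * x with hy
  obtain ⟨t, L, htm, hta, hL, hgath⟩ := gather D.br hS n
  have hPn : (PG K n).Normal := PG_normal D.br.self n
  have hyP : y ∈ PG K n := comm_le_self H hzx
  set k : List X → G := fun v => if v.length = n then sec D.br.self y v else 1 with hk
  have hkn : ∀ v : List X, v.length = n → k v = sec D.br.self y v := fun v hv => if_pos hv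
  have hkK : ∀ v, k v ∈ K := by
    intro v
    by_cases hv : v.length = n
    · rw [hkn v hv]; exact PG_sec D.br.self hyP hv
    · have : k v = 1 := if_neg hv
      rw [this]; exact K.one_mem
  have hyk : InsG n k y := insG_of_sec D.br.self (fun v hv => PG_fix D.br.self hyP hv)
    (fun v hv => (hkn v hv).symm)
  obtain ⟨w, hw, hyw⟩ := hgath k y hkK hyk
  -- the values at the representatives
  have key : ∀ r : List X, ∃ u κ : G, (r.length = n ∧ rtG H r = r →
      u ∈ R K (D.Sg (secG D.br.self H r)) 0 ∧ κ ∈ CK K ((L r).length * 4) ∧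
        gp D.br.self t k (L r) = u * κ) ∧ u ∈ K := by
    intro r
    by_cases hr : r.length = n ∧ rtG H r = r
    swap
    · exact ⟨1, 1, fun h => absurd h hr, K.one_mem⟩
    obtain ⟨hL1, hL2⟩ := hL r hr.2 hr.1
    have hle : K ≤ secG D.br.self H r := K_le_secG D.br hKH r
    have h1 := class_mem D.br hKH htm hta hr.2 hr.1 hL1 hL2 hkK hyk hzx
    obtain ⟨e, he, h2⟩ := hlet (L r) (fun v => sec D.br.self (t v) v) k (by
      intro v hv
      have hvn := ((hL2 v).1 hv).1
      rw [hkn v hvn]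
      exact hsec v hvn)
    have h3 : ((L r).map e).prod ∈ ⁅secG D.br.self H r, K⁆ := h2.symm.mem_comm hle h1
    have h4 := hC _ hle ((L r).map e) (by
      intro y hy
      obtain ⟨v, hv, rfl⟩ := List.mem_map.1 hy
      exact he v hv) h3
    rw [List.length_map] at h4
    have h5 := h2.R h4
    have h6 : C ≤ (L r).length := hn H hKH r hr.1 hr.2 (L r) hL2
    obtain ⟨u, hu, κ, hκ, h7⟩ := R_split (R_mono (M' := (L r).length * 4) (by omega) h5)
    exact ⟨u, κ, fun _ => ⟨hu, hκ, h7⟩, R_sub hu⟩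
  choose u κ hkey huK using key
  have hdis : ∀ r : List X, ∃ f : List X → G, (∀ v, f v ∈ CK K 4) ∧
      (r.length = n ∧ rtG H r = r → ((L r).map f).prod = κ r) := by
    intro r
    by_cases hr : r.length = n ∧ rtG H r = r
    · obtain ⟨f, hf, hf'⟩ := distribute 4 (L r) (hL r hr.2 hr.1).1 (hkey r hr).2.1
      exact ⟨f, hf, fun _ => hf'⟩
    · exact ⟨fun _ => 1, fun _ => one_mem_CK 4, fun h => absurd h hr⟩
  choose f hf hf' using hdis
  set k' : List X → G := fun v =>
    (sec D.br.self (t v) v)⁻¹ * f (rtG H v) v * sec D.br.self (t v) v with hk'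
  have hk'4 : ∀ v, k' v ∈ CK K 4 := by
    intro v
    have := CK_conj (hf (rtG H v) v) (sec D.br.self (t v) v)⁻¹
    rwa [inv_inv] at this
  obtain ⟨y', hy', hyi'⟩ := CK_par_existsG D.br n hk'4
  obtain ⟨w', hw', hyw'⟩ := hgath k' y' (fun v => CK_sub (hk'4 v)) hyi'
  have hgp : ∀ r : List X, r.length = n → rtG H r = r → gp D.br.self t k' (L r) = κ r := by
    intro r hr hrr
    rw [← hf' r ⟨hr, hrr⟩]
    unfold gp
    congr 1
    refine List.map_congr_left fun v hv => ?_
    have hvr : rtG H v = r := (((hL r hrr hr).2 v).1 hv).2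
    show sec D.br.self (t v) v * ((sec D.br.self (t v) v)⁻¹ * f (rtG H v) v *
      sec D.br.self (t v) v) * (sec D.br.self (t v) v)⁻¹ = f r v
    rw [hvr]; group
  -- the insertion of the elements `u`
  obtain ⟨gu, hguK, hgu⟩ := D.br.ins n (fun v => if rtG H v = v then u v else 1) (by
    intro v
    show (if rtG H v = v then u v else 1) ∈ K
    split
    · exact huK v
    · exact K.one_mem)
  have hguC : gu ∈ CK H (K.index * Q) :=
    ins_roots D ht hKH hQ (fun r hr hrr => (hkey r ⟨hr, hrr⟩).1) hgu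
  have heq : y * w = gu * (y' * w') := by
    refine insG_unique D.br.self hyw (hgu.mul hyw') fun v hv => ?_
    show (if rtG H v = v then gp D.br.self t k (L v) else 1) =
      (if rtG H v = v then u v else 1) *
        (if rtG H v = v then gp D.br.self t k' (L v) else 1)
    by_cases hr : rtG H v = v
    · rw [if_pos hr, if_pos hr, if_pos hr, hgp v hv hr]
      exact (hkey v ⟨hv, hr⟩).2.2
    · rw [if_neg hr, if_neg hr, if_neg hr, one_mul]
  have hxeq : x = z * (gu * (y' * (w' * w⁻¹))) := by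
    have h1 : x = z * y := by rw [hy]; group
    have h2 : y = gu * (y' * w') * w⁻¹ := by rw [← heq]; group
    rw [h1, h2]; group
  rw [hxeq]
  refine CK_mul (R_CK hKH hS.sub hz) (CK_mul hguC (CK_mul (CK_le hKH hy') (CK_mul
    (R_CK hKH hS.sub hw') (CK_inv (R_CK hKH hS.sub hw)))))

end Pool.Agent.RB61
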