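import Mathlib
import Pool.Agent.RB61.Main
import Pool.Agent.RB61.FolGr

set_option autoImplicit false
set_option linter.unusedSectionVars false

/-!
# RB61/Final: the main theorem
-/

namespace Pool.Agent.RB61

open scoped commutatorElement
open Pool.Agent.CW71 Pool.Agent.CB71

variable {X : Type}

section inner

variable {G : Subgroup (Tr X)} {K : Subgroup G} [hKn : K.Normal]

theorem bound_HH' [Finite X] [Nontrivial X] (D : Dt G K)
    (hfs : ∀ g : G, {s : G | ∃ v : List X, sec D.br.self g v = s}.Finite)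
    (ht : LevelTransitive G) (hP : Pw K) {H : Subgroup G} (hKH : K ≤ H) :
    ∃ N, ∀ y ∈ ⁅H, H⁆, y ∈ CK H N := by
  classical
  obtain ⟨N, hN⟩ := bound_x D hfs ht hP hKH
  obtain ⟨T, hT, hTH, hT'⟩ := transversal_HH (H := H) D.fin
  have h1 : ∀ t : G, ∃ n, t ∈ T → t ∈ CK H n := by
    intro t
    by_cases ht : t ∈ T
    · obtain ⟨n, hn⟩ := exists_CK H (hTH t ht)
      exact ⟨n, fun _ => hn⟩
    · exact ⟨0, fun h => absurd h ht⟩
  choose f hf using h1
  obtain ⟨C, hC⟩ := (hT.image f).bddAbove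
  refine ⟨C + N, fun y hy => ?_⟩
  obtain ⟨t, ht, h2⟩ := hT' y hy
  have h4 := CK_mul (CK_mono (hC ⟨t, ht, rfl⟩) (hf t ht)) (hN _ h2)
  rwa [mul_inv_cancel_left] at h4

theorem exists_Dt (hfg : G.FG) (hbr : Br G K) (hK : K.FiniteIndex) : Nonempty (Dt G K) := by
  classical
  have hGfg : Group.FG G := (Group.fg_iff_subgroup_fg G).2 hfg
  have hgen : ∀ H : Subgroup G, ∃ S : List G, K ≤ H → GenList H S := by
    intro H
    by_cases hKH : K ≤ H
    · have : H.FiniteIndex := Subgroup.finiteIndex_of_le hKH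
      have hHfg : Group.FG H := Subgroup.fg_of_index_ne_zero H
      obtain ⟨S, hS⟩ := exists_genList H ((Group.fg_iff_subgroup_fg H).1 hHfg)
      exact ⟨S, fun _ => hS⟩
    · exact ⟨[], fun h => absurd h hKH⟩
  choose Sg hSg using hgen
  exact ⟨⟨hbr, hK, Sg, hSg⟩⟩

end inner

/-- Every element of the group has only finitely many sections; for finitely generated
self-similar groups this means that the group is generated by a finite automaton. -/
def FiniteState (G : Subgroup (Tr X)) : Prop :=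
  ∀ g ∈ G, {h : Tr X | ∃ v : List X, IsSection g v h}.Finite

theorem main_RB [Finite X] [Nontrivial X] {G K H : Subgroup (Tr X)} (hfg : G.FG)
    (hss : SelfSimilar G) (hfs : FiniteState G) (ht : LevelTransitive G) (hKG : K ≤ G)
    (hKi : (K.subgroupOf G).FiniteIndex) (hKp : ContainsPower K)
    (hA : FolnerAmenable G ∨ SubexponentialGrowth G) (hHG : H ≤ G)
    (hHi : (H.subgroupOf G).FiniteIndex) :
    ∃ N : ℕ, ∀ g ∈ commutator H, ∃ l : List (H × H),
      l.length ≤ N ∧ g = (l.map fun p => ⁅p.1, p.2⁆).prod := by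
  have hbr := br_core hss hKG hKp
  set K₁ := (K.subgroupOf G).normalCore with hK₁
  have hK₁n : K₁.Normal := Subgroup.normalCore_normal _
  have hK₁i : K₁.FiniteIndex := by
    rw [hK₁]; infer_instance
  have hGfg : Group.FG G := (Group.fg_iff_subgroup_fg G).2 hfg
  have hNn : (H.subgroupOf G).normalCore.Normal := Subgroup.normalCore_normal _
  obtain ⟨L, hLN, hLn, hLi, hLbr⟩ := exists_branching hbr hGfg ht hK₁i
    (H.subgroupOf G).normalCore inferInstance
  obtain ⟨D⟩ := exists_Dt hfg hLbr hLi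
  have hfol : Fol L := hA.elim (fun h => fol_of_folner h L) (fun h => fol_of_subexp h L)
  have hfs' : ∀ g : G, {s : G | ∃ v : List X, sec D.br.self g v = s}.Finite := by
    intro g
    have h1 := (hfs g g.2).preimage (Subtype.val_injective (p := fun x => x ∈ G)).injOn
    refine h1.subset ?_
    rintro s ⟨v, rfl⟩
    exact ⟨v, sec_spec D.br.self g v⟩
  have hle : L ≤ H.subgroupOf G := hLN.trans (Subgroup.normalCore_le _)
  obtain ⟨N, hN⟩ := bound_HH' D hfs' ht (Pw_of_Fol hfol) hle
  refine ⟨N, fun g hg => ?_⟩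
  have h1 : (commutator H).map (Subgroup.inclusion hHG) ≤ ⁅H.subgroupOf G, H.subgroupOf G⁆ := by
    rw [commutator_def, Subgroup.map_commutator]
    apply Subgroup.commutator_mono
    · rintro x ⟨z, _, rfl⟩; exact z.2
    · rintro x ⟨z, _, rfl⟩; exact z.2
  obtain ⟨l, hl, e⟩ := CK_listH (hN _ (h1 ⟨g, hg, rfl⟩))
  exact ⟨l, hl, Subtype.ext e⟩

end Pool.Agent.RB61
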