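import Mathlib
import Pool.Agent.RB61.Final

set_option autoImplicit false
set_option linter.unusedSectionVars false

/-!
# RB61/Comm: finite commutator width and finite extensions
-/

namespace Pool.Agent.RB61

open scoped commutatorElement
open Pool.Agent.CW71 Pool.Agent.CB71

/-- `Γ` has finite commutator width: for some `N` every element of the derived subgroup is a
product of at most `N` commutators. -/
def FiniteCommutatorWidth (Γ : Type*) [Group Γ] : Prop :=
  ∃ N : ℕ, ∀ g ∈ commutator Γ, ∃ l : List (Γ × Γ),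
    l.length ≤ N ∧ g = (l.map fun p => ⁅p.1, p.2⁆).prod

lemma FiniteCommutatorWidth.equiv {Γ Δ : Type*} [Group Γ] [Group Δ] (e : Γ ≃* Δ)
    (h : FiniteCommutatorWidth Γ) : FiniteCommutatorWidth Δ := by
  obtain ⟨N, hN⟩ := h
  refine ⟨N, fun g hg => ?_⟩
  have h1 : e.symm g ∈ commutator Γ := by
    have h2 : (commutator Δ).map e.symm.toMonoidHom ≤ commutator Γ := by
      rw [commutator_def, commutator_def, Subgroup.map_commutator]
      exact Subgroup.commutator_mono le_top le_top
    exact h2 ⟨g, hg, rfl⟩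
  obtain ⟨l, hl, hl'⟩ := hN _ h1
  refine ⟨l.map fun p => (e p.1, e p.2), by simpa using hl, ?_⟩
  have h3 : g = e (e.symm g) := (e.apply_symm_apply g).symm
  rw [h3, hl', map_list_prod, List.map_map, List.map_map]
  congr 1
  refine List.map_congr_left fun p _ => ?_
  show e ⁅p.1, p.2⁆ = ⁅e p.1, e p.2⁆
  exact map_commutatorElement e p.1 p.2

lemma Comm_list_CK {Γ : Type*} [Group Γ] (K : Subgroup Γ) (l : List (K × K)) :
    (((l.map fun p => ⁅p.1, p.2⁆).prod : K) : Γ) ∈ CK K l.length := by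
  induction l with
  | nil => exact rfl
  | cons p l ih =>
    rw [List.map_cons, List.prod_cons]
    exact ⟨p.1, p.1.2, p.2, p.2.2, _, ih, rfl⟩

lemma Comm_CK_list {Γ : Type*} [Group Γ] {n : ℕ} {x : Γ} (hx : x ∈ CK (⊤ : Subgroup Γ) n) :
    ∃ l : List (Γ × Γ), l.length ≤ n ∧ x = (l.map fun p => ⁅p.1, p.2⁆).prod := by
  induction n generalizing x with
  | zero =>
    have : x = 1 := hx
    exact ⟨[], le_rfl, this⟩
  | succ n ih =>
    obtain ⟨p, _, q, _, y, hy, rfl⟩ := hx
    obtain ⟨l, hl, e⟩ := ih hy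
    exact ⟨(p, q) :: l, by simpa using hl, by rw [List.map_cons, List.prod_cons, ← e]⟩

/-- finite extensions: finite commutator width is inherited from a normal subgroup of finite
index -/
theorem FiniteCommutatorWidth.of_normal {Γ : Type*} [Group Γ] (N : Subgroup Γ) [hNn : N.Normal]
    (hN : N.FiniteIndex) {S : List Γ} (hS : GenList (⊤ : Subgroup Γ) S)
    (h : FiniteCommutatorWidth N) : FiniteCommutatorWidth Γ := by
  classical
  obtain ⟨n, hn⟩ := h
  obtain ⟨T, hT, hTH, hT'⟩ := transversal_HH (H := (⊤ : Subgroup Γ)) (K := N) hN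
  have h1 : ∀ t : Γ, ∃ n, t ∈ T → t ∈ CK (⊤ : Subgroup Γ) n := by
    intro t
    by_cases ht : t ∈ T
    · obtain ⟨n, hn⟩ := exists_CK ⊤ (hTH t ht)
      exact ⟨n, fun _ => hn⟩
    · exact ⟨0, fun h => absurd h ht⟩
  choose f hf using h1
  obtain ⟨C, hC⟩ := (hT.image f).bddAbove
  refine ⟨C + ((S.length + 0) + n), fun g hg => ?_⟩
  obtain ⟨t, ht, h2⟩ := hT' g hg
  obtain ⟨M, hM⟩ := exists_RH hS h2
  obtain ⟨y, hy, κ, hκ, e⟩ := R_split hM
  have hκN : κ ∈ N := CK_sub hκ
  have hκc : (⟨κ, hκN⟩ : N) ∈ commutator N := by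
    have h3 : κ ∈ ⁅N, N⁆ := CK_comm le_rfl hκ
    rw [← Subgroup.map_subtype_commutator] at h3
    obtain ⟨κ', hκ', e'⟩ := h3
    have : κ' = ⟨κ, hκN⟩ := Subtype.ext e'
    rw [← this]; exact hκ'
  obtain ⟨l, hl, hl'⟩ := hn _ hκc
  have h4 : κ ∈ CK N n := by
    have h5 := Comm_list_CK N l
    rw [← hl'] at h5
    exact CK_mono hl h5
  have h6 : g ∈ CK (⊤ : Subgroup Γ) (C + ((S.length + 0) + n)) := by
    have e2 : g = t * (y * κ) := by rw [← e]; group
    rw [e2]
    exact CK_mul (CK_mono (hC ⟨t, ht, rfl⟩) (hf t ht))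
      (CK_mul (R_CK le_top (fun _ _ => Subgroup.mem_top _) hy) (CK_le le_top h4))
  exact Comm_CK_list h6

lemma Comm_fg {Γ : Type*} [Group Γ] (N : Subgroup Γ) (hN : N.FiniteIndex) (hfg : Group.FG N) :
    Group.FG Γ := by
  classical
  have hQ : Finite (Γ ⧸ N) := Subgroup.finite_quotient_of_finiteIndex
  obtain ⟨T, hT⟩ := (Group.fg_iff_subgroup_fg N).1 hfg
  have hR : (Set.range (fun q : Γ ⧸ N => q.out)).Finite := Set.finite_range _
  refine ⟨⟨T ∪ hR.toFinset, ?_⟩⟩
  rw [eq_top_iff]
  intro g _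
  have h1 : N ≤ Subgroup.closure ((T ∪ hR.toFinset : Finset Γ) : Set Γ) := by
    refine le_trans hT.ge (Subgroup.closure_mono ?_)
    intro x hx
    rw [Finset.coe_union]
    exact Or.inl hx
  have h2 : (QuotientGroup.mk g : Γ ⧸ N).out ∈
      Subgroup.closure ((T ∪ hR.toFinset : Finset Γ) : Set Γ) := by
    apply Subgroup.subset_closure
    rw [Finset.coe_union]
    exact Or.inr (by simp)
  have h3 : ((QuotientGroup.mk g : Γ ⧸ N).out)⁻¹ * g ∈ N := QuotientGroup.eq.1
    (QuotientGroup.out_eq' _)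
  have h4 := Subgroup.mul_mem _ h2 (h1 h3)
  rwa [mul_inv_cancel_left] at h4

/-- groups with a subgroup of finite index isomorphic to a subgroup of finite index of `G` -/
theorem main_comm {X : Type} [Finite X] [Nontrivial X] {G K H : Subgroup (Tr X)} (hfg : G.FG)
    (hss : SelfSimilar G) (hfs : FiniteState G) (ht : LevelTransitive G) (hKG : K ≤ G)
    (hKi : (K.subgroupOf G).FiniteIndex) (hKp : ContainsPower K)
    (hA : FolnerAmenable G ∨ SubexponentialGrowth G) (hHG : H ≤ G)
    (hHi : (H.subgroupOf G).FiniteIndex) {Γ : Type*} [Group Γ] (Γ₁ : Subgroup Γ)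
    (hΓ₁ : Γ₁.FiniteIndex) (e : Γ₁ ≃* H) : FiniteCommutatorWidth Γ := by
  have hGfg : Group.FG G := (Group.fg_iff_subgroup_fg G).2 hfg
  have hHfg : Group.FG H := by
    have h1 : Group.FG (H.subgroupOf G) := Subgroup.fg_of_index_ne_zero _
    exact Group.fg_of_surjective (f := (Subgroup.subgroupOfEquivOfLe hHG).toMonoidHom)
      (Subgroup.subgroupOfEquivOfLe hHG).surjective
  have hΓ₁fg : Group.FG Γ₁ := Group.fg_of_surjective (f := e.symm.toMonoidHom) e.symm.surjective
  have hΓfg : Group.FG Γ := Comm_fg Γ₁ hΓ₁ hΓ₁fg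
  -- the normal core
  set N := Γ₁.normalCore with hN
  have hNn : N.Normal := Subgroup.normalCore_normal _
  have hNi : N.FiniteIndex := by rw [hN]; infer_instance
  have hNle : N ≤ Γ₁ := Subgroup.normalCore_le _
  -- the corresponding subgroup of `G`
  set L : Subgroup (Tr X) := ((N.subgroupOf Γ₁).map e.toMonoidHom).map H.subtype with hL
  have hLH : L ≤ H := by
    rintro x ⟨y, _, rfl⟩
    exact y.2
  have hLi : (L.subgroupOf G).FiniteIndex := by
    have h1 : (N.subgroupOf Γ₁).FiniteIndex := by infer_instance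
    have h2 : ((N.subgroupOf Γ₁).map e.toMonoidHom).FiniteIndex := by
      constructor
      have h3 := Subgroup.index_map_dvd (N.subgroupOf Γ₁) (f := e.toMonoidHom) e.surjective
      intro h4
      rw [h4] at h3
      exact h1.index_ne_zero (Nat.eq_zero_of_zero_dvd h3)
    have h3 : L.subgroupOf H = (N.subgroupOf Γ₁).map e.toMonoidHom := by
      ext x
      rw [Subgroup.mem_subgroupOf, hL]
      constructor
      · rintro ⟨y, hy, hxy⟩
        have : y = x := Subtype.ext hxy
        rw [← this]; exact hy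
      · intro hx
        exact ⟨x, hx, rfl⟩
    have h4 : L.relIndex H ≠ 0 := by
      show (L.subgroupOf H).index ≠ 0
      rw [h3]
      exact h2.index_ne_zero
    have h5 : H.relIndex G ≠ 0 := hHi.index_ne_zero
    have h6 : L.relIndex G ≠ 0 := by
      rw [← Subgroup.relIndex_mul_relIndex L H G hLH hHG]
      exact mul_ne_zero h4 h5
    exact ⟨h6⟩
  have hLw : FiniteCommutatorWidth L :=
    main_RB hfg hss hfs ht hKG hKi hKp hA (hLH.trans hHG) hLi
  -- the isomorphism
  have e1 : L ≃* N.subgroupOf Γ₁ :=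
    ((N.subgroupOf Γ₁).equivMapOfInjective e.toMonoidHom e.injective).trans
      (((N.subgroupOf Γ₁).map e.toMonoidHom).equivMapOfInjective H.subtype
        (Subgroup.subtype_injective H)) |>.symm
  have e2 : N.subgroupOf Γ₁ ≃* N := Subgroup.subgroupOfEquivOfLe hNle
  have hNw : FiniteCommutatorWidth N := (hLw.equiv e1).equiv e2
  obtain ⟨S, hS⟩ := exists_genList (⊤ : Subgroup Γ) hΓfg.out
  exact FiniteCommutatorWidth.of_normal N hNi hS hNw

end Pool.Agent.RB61
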